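import Mathlib

set_option autoImplicit false

namespace Pool.Agent.Lib.MP_c82530_nt

open Polynomial Complex

open scoped Nat

/-- An algebraic number different from zero is a root of an integer polynomial with nonzero
constant term. -/
lemma exists_int_poly {x : ℂ} (hx : IsAlgebraic ℚ x) (hx0 : x ≠ 0) :
    ∃ P : ℤ[X], aeval x P = 0 ∧ P.eval 0 ≠ 0 := by
  have hx' : IsAlgebraic ℤ x := (IsFractionRing.isAlgebraic_iff ℤ ℚ ℂ).mpr hx
  obtain ⟨P, hP0, hP⟩ := hx'
  -- divide by the largest power of X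
  obtain ⟨Q, hQ, hQ0⟩ : ∃ Q : ℤ[X], P = X ^ P.rootMultiplicity 0 * Q ∧ Q.eval 0 ≠ 0 := by
    obtain ⟨Q, hQ, hQ'⟩ := P.exists_eq_pow_rootMultiplicity_mul_and_not_dvd hP0 0
    refine ⟨Q, by simpa using hQ, ?_⟩
    rw [C_0, sub_zero] at hQ'
    intro h
    apply hQ'
    rw [X_dvd_iff, coeff_zero_eq_eval_zero]
    exact h
  refine ⟨Q, ?_, hQ0⟩
  rw [hQ, map_mul, map_pow, aeval_X] at hP
  rcases mul_eq_zero.mp hP with h | h
  · have hne : P.rootMultiplicity 0 ≠ 0 := by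
      rintro h0
      rw [h0, pow_zero] at h
      exact one_ne_zero h
    exact absurd ((pow_eq_zero_iff hne).mp h) hx0
  · exact h

/-- clearing denominators: `a^D * g(x)` is integral if `a * x` is and `D ≥ deg g`. -/
lemma isIntegral_pow_mul_aeval {K : Type*} [Field K] [CharZero K] {x : K} {a : ℤ}
    (hx : IsIntegral ℤ ((a : K) * x)) (g : ℤ[X]) (D : ℕ) (hD : g.natDegree ≤ D) :
    IsIntegral ℤ ((a : K) ^ D * aeval x g) := by
  rw [aeval_eq_sum_range' (Nat.lt_succ_of_le hD), Finset.mul_sum]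
  apply IsIntegral.sum
  intro i hi
  rw [Finset.mem_range, Nat.lt_succ_iff] at hi
  have e : (a : K) ^ D * (g.coeff i • x ^ i) = ((a ^ (D - i) * g.coeff i : ℤ) : K) * ((a : K) * x) ^ i := by
    rw [zsmul_eq_mul, mul_pow]
    push_cast
    have : (a : K) ^ D = (a : K) ^ (D - i) * (a : K) ^ i := by
      rw [← pow_add]; congr 1; omega
    rw [this]; ring
  rw [e]
  exact (isIntegral_algebraMap (R := ℤ) (A := K)).mul (hx.pow i)

theorem core (K : IntermediateField ℚ ℂ) [FiniteDimensional ℚ K] [IsGalois ℚ K] (f : K →₀ ℤ)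
    (hinv : ∀ (σ : K ≃ₐ[ℚ] K) (γ : K), f (σ γ) = f γ) (h0 : f 0 ≠ 0)
    (hsum : f.sum (fun γ a => (a : ℂ) * Complex.exp (γ : ℂ)) = 0) : False := by
  classical
  set S := f.support.erase 0 with hS
  -- algebraicity
  have halg : ∀ γ : K, IsAlgebraic ℚ (γ : ℂ) := by
    intro γ
    have := Algebra.IsAlgebraic.isAlgebraic (R := ℚ) γ
    exact this.algebraMap
  -- the polynomial
  have hpoly : ∀ γ : K, ∃ P : ℤ[X], (γ ≠ 0 → aeval (γ : ℂ) P = 0) ∧ P.eval 0 ≠ 0 := by
    intro γ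
    by_cases hγ : γ = 0
    · exact ⟨1, fun h => absurd hγ h, by simp⟩
    · obtain ⟨P, h1, h2⟩ := exists_int_poly (halg γ) (by simpa using hγ)
      exact ⟨P, fun _ => h1, h2⟩
  choose P hP1 hP2 using hpoly
  set F : ℤ[X] := ∏ γ ∈ S, P γ with hF
  have hF0 : F.eval 0 ≠ 0 := by
    rw [hF, eval_prod]
    exact Finset.prod_ne_zero_iff.mpr (fun γ _ => hP2 γ)
  have hFne : F ≠ 0 := by rintro h; rw [h] at hF0; simp at hF0
  have hroot : ∀ γ ∈ S, (γ : ℂ) ∈ F.aroots ℂ := by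
    intro γ hγ
    rw [mem_aroots]
    refine ⟨hFne, ?_⟩
    rw [hF, map_prod]
    apply Finset.prod_eq_zero hγ
    exact hP1 γ (Finset.ne_of_mem_erase hγ)
  obtain ⟨c, hc⟩ := LindemannWeierstrass.exp_polynomial_approx F hF0
  -- common denominator
  obtain ⟨a, ha0, ha⟩ : ∃ a : ℤ, a ≠ 0 ∧ ∀ γ ∈ S, IsIntegral ℤ ((a : K) * γ) := by
    have h1 : ∀ γ : K, ∃ y : ℤ, y ≠ 0 ∧ IsIntegral ℤ ((y : K) * γ) := by
      intro γ
      have h2 : IsAlgebraic ℤ γ :=
        (IsFractionRing.isAlgebraic_iff ℤ ℚ K).mpr (Algebra.IsAlgebraic.isAlgebraic γ)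
      obtain ⟨y, hy, hy'⟩ := h2.exists_integral_multiple
      exact ⟨y, hy, by rwa [← zsmul_eq_mul]⟩
    choose y hy0 hy using h1
    refine ⟨∏ γ ∈ S, y γ, Finset.prod_ne_zero_iff.mpr (fun γ _ => hy0 γ), ?_⟩
    intro γ hγ
    rw [← Finset.mul_prod_erase S y hγ, mul_comm (y γ), Int.cast_mul, mul_assoc]
    exact (isIntegral_algebraMap (R := ℤ) (A := K)).mul (hy γ)
  set d := F.natDegree with hd
  -- the sum over S
  have hsum' : (f 0 : ℂ) + ∑ γ ∈ S, (f γ : ℂ) * Complex.exp (γ : ℂ) = 0 := by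
    rw [Finsupp.sum, ← Finset.add_sum_erase _ _ (Finsupp.mem_support_iff.mpr h0)] at hsum
    simpa using hsum
  -- the Galois invariant sum is an integer
  have hint : ∀ (D : ℕ) (g : ℤ[X]), g.natDegree ≤ D → ∃ t : ℤ,
      ∑ γ ∈ S, (f γ : ℂ) * ((a : ℂ) ^ D * aeval (γ : ℂ) g) = t := by
    intro D g hg
    set T : K := ∑ γ ∈ S, (f γ : K) * ((a : K) ^ D * aeval γ g) with hT
    have hTint : IsIntegral ℤ T := by
      apply IsIntegral.sum
      intro γ hγ
      exact (isIntegral_algebraMap (R := ℤ) (A := K)).mul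
        (isIntegral_pow_mul_aeval (ha γ hγ) g D hg)
    have hTfix : ∀ σ : K ≃ₐ[ℚ] K, σ T = T := by
      intro σ
      rw [hT, map_sum]
      have hmem : ∀ (τ : K ≃ₐ[ℚ] K) (γ : K), γ ∈ S → τ γ ∈ S := by
        intro τ γ hγ
        rw [hS, Finset.mem_erase, Finsupp.mem_support_iff] at hγ ⊢
        refine ⟨?_, by rw [hinv]; exact hγ.2⟩
        intro h
        exact hγ.1 ((map_eq_zero_iff τ τ.injective).mp h)
      apply Finset.sum_nbij' (fun γ => σ γ) (fun γ => σ.symm γ)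
      · intro γ hγ; exact hmem σ γ hγ
      · intro γ hγ; exact hmem σ.symm γ hγ
      · intro γ _; simp
      · intro γ _; simp
      · intro γ _
        rw [map_mul, map_mul, map_pow, map_intCast, map_intCast, hinv]
        congr 2
        have hcomp : (σ : K →+* K).comp (algebraMap ℤ K) = algebraMap ℤ K := RingHom.ext_int _ _
        have h3 := hom_eval₂ g (algebraMap ℤ K) (σ : K →+* K) γ
        rw [hcomp] at h3
        exact h3
    have hTbot := (IsGalois.mem_bot_iff_fixed (F := ℚ) (E := K) T).mpr hTfix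
    rw [IntermediateField.mem_bot] at hTbot
    obtain ⟨r, hr⟩ := hTbot
    have hrint : IsIntegral ℤ r := by
      rw [← hr] at hTint
      exact (isIntegral_algebraMap_iff (algebraMap ℚ K).injective).mp hTint
    obtain ⟨t, ht⟩ := IsIntegrallyClosed.isIntegral_iff.mp hrint
    refine ⟨t, ?_⟩
    have hTt : T = (t : K) := by rw [← hr, ← ht]; simp
    have : (T : ℂ) = (t : ℂ) := by rw [hTt]; simp
    rw [← this, hT]
    push_cast
    apply Finset.sum_congr rfl
    intro γ _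
    congr 2
    exact aeval_algebraMap_apply ℂ γ g |>.trans rfl
  -- limit
  set C := ∑ γ ∈ S, |(f γ : ℝ)| with hC
  have hlim : Filter.Tendsto (fun m : ℕ => C * ((|(a : ℝ)| ^ d * |c|) * ((|(a : ℝ)| ^ d * |c|) ^ m / m !)))
      Filter.atTop (nhds 0) := by
    have := FloorSemiring.tendsto_pow_div_factorial_atTop (|(a : ℝ)| ^ d * |c|)
    have h2 := (this.const_mul (|(a : ℝ)| ^ d * |c|)).const_mul C
    simpa using h2
  have hev := (hlim.eventually (gt_mem_nhds (show (0 : ℝ) < 1 by norm_num)))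
  rw [Filter.eventually_atTop] at hev
  obtain ⟨M, hM⟩ := hev
  obtain ⟨p, hpM, hp⟩ := Nat.exists_infinite_primes
    (M + 1 + ((eval 0 F).natAbs + 1) + (f 0).natAbs + 1 + a.natAbs)
  obtain ⟨n, hn, g, hg, happ⟩ := hc p (by omega) hp
  obtain ⟨t, ht⟩ := hint (p * d) g (by omega)
  -- the integer
  set J : ℤ := n * a ^ (p * d) * f 0 + p * t with hJ
  have hJne : J ≠ 0 := by
    intro hJ0
    have h1 : (p : ℤ) ∣ n * a ^ (p * d) * f 0 := by
      have : n * a ^ (p * d) * f 0 = p * (-t) := by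
        rw [hJ] at hJ0; linarith
      exact ⟨-t, this⟩
    have hpp : Prime (p : ℤ) := Nat.prime_iff_prime_int.mp hp
    rcases hpp.dvd_or_dvd h1 with h2 | h2
    · rcases hpp.dvd_or_dvd h2 with h3 | h3
      · exact hn h3
      · have h4 := hpp.dvd_of_dvd_pow h3
        have h5 := Int.natAbs_dvd_natAbs.mpr h4
        have h6 := Nat.le_of_dvd (Int.natAbs_pos.mpr ha0) h5
        simp at h6; omega
    · have h5 := Int.natAbs_dvd_natAbs.mpr h2
      have h6 := Nat.le_of_dvd (Int.natAbs_pos.mpr h0) h5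
      simp at h6; omega
  have hJ1 : (1 : ℝ) ≤ ‖(J : ℂ)‖ := by
    rw [Complex.norm_intCast]
    exact_mod_cast Int.one_le_abs hJne
  have hJeq : (J : ℂ) = - ∑ γ ∈ S, (f γ : ℂ) * ((a : ℂ) ^ (p * d) *
      ((n : ℂ) * Complex.exp (γ : ℂ) - p * aeval (γ : ℂ) g)) := by
    have e1 : ∑ γ ∈ S, (f γ : ℂ) * ((a : ℂ) ^ (p * d) *
      ((n : ℂ) * Complex.exp (γ : ℂ) - p * aeval (γ : ℂ) g)) =
      n * a ^ (p * d) * ∑ γ ∈ S, (f γ : ℂ) * Complex.exp (γ : ℂ) -
      p * ∑ γ ∈ S, (f γ : ℂ) * ((a : ℂ) ^ (p * d) * aeval (γ : ℂ) g) := by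
      rw [Finset.mul_sum, Finset.mul_sum, ← Finset.sum_sub_distrib]
      apply Finset.sum_congr rfl
      intro γ _; ring
    rw [e1, ht, hJ]
    have e2 : ∑ γ ∈ S, (f γ : ℂ) * Complex.exp (γ : ℂ) = - (f 0 : ℂ) := by
      linear_combination hsum'
    rw [e2]
    push_cast; ring
  have hJle : ‖(J : ℂ)‖ ≤ C * (|(a : ℝ)| ^ (p * d) * (|c| ^ p / (p - 1)!)) := by
    rw [hJeq, norm_neg]
    refine (norm_sum_le _ _).trans ?_
    rw [hC, Finset.sum_mul]
    apply Finset.sum_le_sum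
    intro γ hγ
    rw [norm_mul, norm_mul, norm_pow, Complex.norm_intCast, Complex.norm_intCast]
    have h1 := happ (hroot γ hγ)
    rw [zsmul_eq_mul, nsmul_eq_mul] at h1
    have h2 : c ^ p / (p - 1)! ≤ |c| ^ p / (p - 1)! := by
      apply div_le_div_of_nonneg_right _ (by positivity)
      rw [← abs_pow]
      exact le_abs_self _
    gcongr
    exact h1.trans h2
  have hfin : C * (|(a : ℝ)| ^ (p * d) * (|c| ^ p / (p - 1)!)) < 1 := by
    have h1 := hM (p - 1) (by omega)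
    have h2 : |(a : ℝ)| ^ (p * d) * (|c| ^ p / (p - 1)!) =
        (|(a : ℝ)| ^ d * |c|) * ((|(a : ℝ)| ^ d * |c|) ^ (p - 1) / (p - 1)!) := by
      rw [← mul_div_assoc, ← mul_div_assoc, ← pow_succ', Nat.sub_add_cancel hp.one_le, mul_pow,
        ← pow_mul, mul_comm d p]
    rw [h2]
    exact h1
  linarith

end Pool.Agent.Lib.MP_c82530_nt
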