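import Mathlib
import Pool.Agent.Lib.MP_c82530_nt.LWCore

set_option autoImplicit false

namespace Pool.Agent.Lib.MP_c82530_nt

open Complex AddMonoidAlgebra

variable (K : IntermediateField ℚ ℂ)

/-- `x ↦ exp x` -/
noncomputable def expHom : Multiplicative K →* ℂ where
  toFun x := Complex.exp ((Multiplicative.toAdd x : K) : ℂ)
  map_one' := by simp
  map_mul' x y := by
    rw [toAdd_mul, ← Complex.exp_add]
    push_cast
    rfl

/-- evaluation of exponential sums -/
noncomputable def ev (R : Type*) [CommSemiring R] [Algebra R ℂ] : AddMonoidAlgebra R K →ₐ[R] ℂ :=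
  AddMonoidAlgebra.lift R ℂ K (expHom K)

lemma ev_apply (R : Type*) [CommSemiring R] [Algebra R ℂ] (x : AddMonoidAlgebra R K) :
    ev K R x = x.coeff.sum (fun γ b => algebraMap R ℂ b * Complex.exp (γ : ℂ)) := by
  unfold ev
  rw [AddMonoidAlgebra.lift_apply]
  apply Finsupp.sum_congr
  intro γ _
  rw [Algebra.smul_def]
  rfl

lemma coeff_mul_single_neg {R : Type*} [CommRing R] (x : AddMonoidAlgebra R K) (γ : K) :
    (x * AddMonoidAlgebra.single (-γ) (1 : R)).coeff 0 = x.coeff γ := by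
  rw [AddMonoidAlgebra.coeff_mul_single_eq_coeff_mul γ, mul_one]
  intro m' _
  constructor
  · intro h; linear_combination h
  · intro h; rw [h]; ring

variable [FiniteDimensional ℚ K] [IsGalois ℚ K]

/-- Rational coefficients suffice. -/
lemma exists_rat (x : AddMonoidAlgebra K K) (hx : x ≠ 0) (hev : ev K K x = 0) :
    ∃ y : AddMonoidAlgebra ℚ K, y ≠ 0 ∧ ev K ℚ y = 0 := by
  classical
  set y1 : AddMonoidAlgebra K K := ∏ τ : K ≃ₐ[ℚ] K, mapRingHom K (τ : K →+* K) x with hy1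
  have hne : y1 ≠ 0 := by
    rw [hy1, Finset.prod_ne_zero_iff]
    intro τ _
    rw [Ne, map_eq_zero_iff]
    · exact hx
    · exact map_injective _ τ.injective
  have hev1 : ev K K y1 = 0 := by
    rw [hy1, map_prod]
    apply Finset.prod_eq_zero (Finset.mem_univ (AlgEquiv.refl))
    have : mapRingHom K ((AlgEquiv.refl : K ≃ₐ[ℚ] K) : K →+* K) x = x := by
      ext γ; simp
    rw [this, hev]
  have hfix : ∀ σ : K ≃ₐ[ℚ] K, mapRingHom K (σ : K →+* K) y1 = y1 := by
    intro σ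
    rw [hy1, map_prod]
    apply Fintype.prod_equiv (Equiv.mulLeft σ)
    intro τ
    ext γ
    simp
  have hrange : y1 ∈ Set.range (AddMonoidAlgebra.map (M := K) (algebraMap ℚ K : ℚ →+ K)) := by
    rw [range_map]
    intro γ
    have h1 : ∀ σ : K ≃ₐ[ℚ] K, σ (y1.coeff γ) = y1.coeff γ := by
      intro σ
      have := congrArg (fun z => z.coeff γ) (hfix σ)
      simpa using this
    have := (IsGalois.mem_bot_iff_fixed (F := ℚ) (E := K) (y1.coeff γ)).mpr h1
    rw [IntermediateField.mem_bot] at this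
    exact this
  obtain ⟨y, hy⟩ := hrange
  refine ⟨y, ?_, ?_⟩
  · rintro rfl
    apply hne
    rw [← hy, AddMonoidAlgebra.map_zero]
  · rw [← hev1, ← hy]
    exact (lift_mapRingHom_algebraMap (R := ℚ) (S := K) (expHom K) y).symm

/-- Galois invariant rational exponential sums with nonzero constant term. -/
lemma exists_invariant (y : AddMonoidAlgebra ℚ K) (hy : y ≠ 0) (hev : ev K ℚ y = 0) :
    ∃ w : AddMonoidAlgebra ℚ K, w.coeff 0 ≠ 0 ∧ ev K ℚ w = 0 ∧
      ∀ (σ : K ≃ₐ[ℚ] K) (γ : K), w.coeff (σ γ) = w.coeff γ := by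
  classical
  set z : AddMonoidAlgebra ℚ K :=
    ∏ σ : K ≃ₐ[ℚ] K, mapDomainRingHom ℚ ((σ : K →+* K) : K →+ K) y with hz
  have hzne : z ≠ 0 := by
    rw [hz, Finset.prod_ne_zero_iff]
    intro σ _
    rw [Ne, map_eq_zero_iff]
    · exact hy
    · exact mapDomain_injective σ.injective
  have hfix : ∀ σ : K ≃ₐ[ℚ] K, mapDomainRingHom ℚ ((σ : K →+* K) : K →+ K) z = z := by
    intro σ
    rw [hz, map_prod]
    apply Fintype.prod_equiv (Equiv.mulLeft σ)
    intro τ
    rw [← RingHom.comp_apply, ← mapDomainRingHom_comp]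
    rfl
  have hinv : ∀ (z : AddMonoidAlgebra ℚ K),
      (∀ σ : K ≃ₐ[ℚ] K, mapDomainRingHom ℚ ((σ : K →+* K) : K →+ K) z = z) →
      ∀ (σ : K ≃ₐ[ℚ] K) (γ : K), z.coeff (σ γ) = z.coeff γ := by
    intro z hz σ γ
    have h1 : (mapDomainRingHom ℚ ((σ : K →+* K) : K →+ K) z).coeff (σ γ) = z.coeff γ :=
      Finsupp.mapDomain_apply σ.injective _ _
    rw [hz] at h1
    exact h1
  have hevz : ev K ℚ z = 0 := by
    rw [hz, map_prod]
    apply Finset.prod_eq_zero (Finset.mem_univ (AlgEquiv.refl))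
    have : mapDomainRingHom ℚ (((AlgEquiv.refl : K ≃ₐ[ℚ] K) : K →+* K) : K →+ K) y = y :=
      DFunLike.congr_fun (mapDomainRingHom_id (R := ℚ) (M := K)) y
    rw [this, hev]
  obtain ⟨γ0, hγ0⟩ : ∃ γ0, z.coeff γ0 ≠ 0 := by
    by_contra h
    push Not at h
    apply hzne
    ext γ
    simpa using h γ
  set T : AddMonoidAlgebra ℚ K := ∑ σ : K ≃ₐ[ℚ] K, AddMonoidAlgebra.single (-(σ γ0)) (1 : ℚ) with hT
  refine ⟨z * T, ?_, ?_, ?_⟩
  · rw [hT, Finset.mul_sum, coeff_sum, Finset.sum_apply']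
    have : ∀ σ : K ≃ₐ[ℚ] K, (z * AddMonoidAlgebra.single (-(σ γ0)) (1 : ℚ)).coeff 0 = z.coeff γ0 := by
      intro σ
      rw [coeff_mul_single_neg, hinv z hfix]
    rw [Finset.sum_congr rfl (fun σ _ => this σ), Finset.sum_const, nsmul_eq_mul]
    apply mul_ne_zero _ hγ0
    simp
  · rw [map_mul, hevz, zero_mul]
  · apply hinv
    intro σ
    rw [map_mul, hfix, hT, map_sum]
    congr 1
    apply Fintype.sum_equiv (Equiv.mulLeft σ)
    intro τ
    change mapDomain _ _ = _
    rw [mapDomain_single]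
    simp

theorem no_relation (x : AddMonoidAlgebra K K) (hx : x ≠ 0) (hev : ev K K x = 0) : False := by
  classical
  obtain ⟨y, hy, hevy⟩ := exists_rat K x hx hev
  obtain ⟨w, hw0, hevw, hinv⟩ := exists_invariant K y hy hevy
  -- clear denominators
  set D : ℕ := ∏ γ ∈ w.coeff.support, (w.coeff γ).den with hD
  have hD0 : (D : ℚ) ≠ 0 := by
    rw [hD]; push_cast
    exact Finset.prod_ne_zero_iff.mpr (fun γ _ => by exact_mod_cast (w.coeff γ).den_nz)
  have hnum : ∀ γ, (((D : ℚ) * w.coeff γ).num : ℚ) = D * w.coeff γ := by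
    intro γ
    by_cases hγ : γ ∈ w.coeff.support
    · have : (D : ℚ) * w.coeff γ = ((∏ δ ∈ w.coeff.support.erase γ, (w.coeff δ).den : ℕ) *
          (w.coeff γ).num : ℤ) := by
        rw [hD, ← Finset.mul_prod_erase _ _ hγ]
        push_cast
        have h1 := Rat.den_mul_eq_num (w.coeff γ)
        rw [← h1]; ring
      rw [this, Rat.num_intCast]
    · rw [Finsupp.notMem_support_iff.mp hγ]; simp
  set f : K →₀ ℤ := w.coeff.mapRange (fun q => ((D : ℚ) * q).num) (by simp) with hf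
  have hfγ : ∀ γ, f γ = ((D : ℚ) * w.coeff γ).num := fun γ => by rw [hf, Finsupp.mapRange_apply]
  refine core K f ?_ ?_ ?_
  · intro σ γ; rw [hfγ, hfγ, hinv]
  · rw [hfγ, Rat.num_ne_zero]
    exact mul_ne_zero hD0 hw0
  · have h1 : f.sum (fun γ a => (a : ℂ) * Complex.exp (γ : ℂ)) =
        (D : ℂ) * w.coeff.sum (fun γ b => algebraMap ℚ ℂ b * Complex.exp (γ : ℂ)) := by
      rw [hf, Finsupp.sum_mapRange_index (by simp), Finsupp.mul_sum]
      apply Finsupp.sum_congr
      intro γ _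
      have h2 := hnum γ
      have h3 : ((((D : ℚ) * w.coeff γ).num : ℚ) : ℂ) = ((D * w.coeff γ : ℚ) : ℂ) := by rw [h2]
      push_cast at h3
      rw [h3, eq_ratCast]; ring
    rw [h1, ← ev_apply, hevw, mul_zero]

end Pool.Agent.Lib.MP_c82530_nt
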