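import Mathlib
import Pool.Agent.Lib.MP_c82530_nt.LW

set_option autoImplicit false

namespace Pool.Agent.Lib.MP_c82530_nt

open Complex Polynomial

/-- a finite set of algebraic numbers is contained in a finite Galois extension of `ℚ` in `ℂ`. -/
lemma exists_galois (s : Finset ℂ) (hs : ∀ x ∈ s, IsAlgebraic ℚ x) :
    ∃ K : IntermediateField ℚ ℂ, FiniteDimensional ℚ K ∧ IsGalois ℚ K ∧ ∀ x ∈ s, x ∈ K := by
  classical
  set f : ℚ[X] := ∏ x ∈ s, minpoly ℚ x with hf
  have hf0 : f ≠ 0 := by
    rw [hf, Finset.prod_ne_zero_iff]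
    intro x hx
    exact minpoly.ne_zero (hs x hx).isIntegral
  set K := IntermediateField.adjoin ℚ (f.rootSet ℂ) with hK
  have hspl : f.IsSplittingField ℚ K :=
    IntermediateField.adjoin_rootSet_isSplittingField (IsAlgClosed.splits _)
  have hfd : FiniteDimensional ℚ K := IsSplittingField.finiteDimensional K f
  have hnor : Normal ℚ K := Normal.of_isSplittingField f
  refine ⟨K, hfd, ⟨⟩, ?_⟩
  intro x hx
  apply IntermediateField.subset_adjoin
  rw [mem_rootSet]
  refine ⟨hf0, ?_⟩
  rw [hf, map_prod]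
  exact Finset.prod_eq_zero hx (minpoly.aeval ℚ x)

/-- **Lindemann-Weierstrass**, linear form. -/
theorem lw_linear (s : Finset ℂ) (hs : ∀ γ ∈ s, IsAlgebraic ℚ γ) (w : ℂ → ℂ)
    (hw : ∀ γ ∈ s, IsAlgebraic ℚ (w γ)) (h : ∑ γ ∈ s, w γ * Complex.exp γ = 0) :
    ∀ γ ∈ s, w γ = 0 := by
  classical
  obtain ⟨K, hfd, hgal, hK⟩ := exists_galois (s ∪ s.image w) (by
    intro x hx
    rcases Finset.mem_union.mp hx with hx | hx
    · exact hs x hx
    · obtain ⟨γ, hγ, rfl⟩ := Finset.mem_image.mp hx
      exact hw γ hγ)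
  have hsK : ∀ γ ∈ s, γ ∈ K := fun γ hγ => hK γ (Finset.mem_union_left _ hγ)
  have hwK : ∀ γ ∈ s, w γ ∈ K := fun γ hγ =>
    hK (w γ) (Finset.mem_union_right _ (Finset.mem_image_of_mem w hγ))
  intro γ0 hγ0
  by_contra hne
  set x : AddMonoidAlgebra K K := ∑ γ : s, AddMonoidAlgebra.single (⟨γ.1, hsK γ γ.2⟩ : K)
    (⟨w γ.1, hwK γ γ.2⟩ : K) with hx
  apply no_relation K x
  · intro hx0
    have h1 := congrArg (fun z => z.coeff (⟨γ0, hsK γ0 hγ0⟩ : K)) hx0
    simp only [AddMonoidAlgebra.coeff_zero, Finsupp.coe_zero, Pi.zero_apply] at h1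
    rw [hx, AddMonoidAlgebra.coeff_sum, Finset.sum_apply'] at h1
    rw [Finset.sum_eq_single (⟨γ0, hγ0⟩ : s)] at h1
    · rw [AddMonoidAlgebra.coeff_single, Finsupp.single_eq_same] at h1
      apply hne
      exact congrArg Subtype.val h1
    · intro b _ hb
      rw [AddMonoidAlgebra.coeff_single, Finsupp.single_apply, if_neg]
      intro hb2
      apply hb
      exact Subtype.ext (congrArg (fun z : K => (z : ℂ)) hb2)
    · intro h2; exact absurd (Finset.mem_univ _) h2
  · rw [hx, map_sum]
    have : ∀ γ : s, ev K K (AddMonoidAlgebra.single (⟨γ.1, hsK γ γ.2⟩ : K)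
        (⟨w γ.1, hwK γ γ.2⟩ : K)) = w γ.1 * Complex.exp γ.1 := by
      intro γ
      rw [ev_apply, AddMonoidAlgebra.coeff_single, Finsupp.sum_single_index (by simp)]
      rfl
    rw [Finset.sum_congr rfl (fun γ _ => this γ), Finset.sum_coe_sort s (fun γ => w γ * Complex.exp γ)]
    exact h

/-- **Lindemann-Weierstrass**: exponentials of `ℚ`-linearly independent algebraic numbers are
algebraically independent. -/
theorem lw {ι : Type*} (α : ι → ℂ) (halg : ∀ i, IsAlgebraic ℚ (α i))
    (hlin : LinearIndependent ℚ α) : AlgebraicIndependent ℚ (fun i => Complex.exp (α i)) := by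
  classical
  rw [algebraicIndependent_iff]
  intro p hp
  set φ : (ι →₀ ℕ) → ℂ := fun m => m.sum (fun i k => (k : ℂ) * α i) with hφ
  have hφinj : Function.Injective φ := by
    intro m m' hmm
    have h1 : Finsupp.linearCombination ℚ α (m.mapRange (fun k : ℕ => (k : ℚ)) (by simp)) =
        Finsupp.linearCombination ℚ α (m'.mapRange (fun k : ℕ => (k : ℚ)) (by simp)) := by
      rw [Finsupp.linearCombination_apply, Finsupp.linearCombination_apply,
        Finsupp.sum_mapRange_index (by simp), Finsupp.sum_mapRange_index (by simp)]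
      have e : ∀ m : ι →₀ ℕ, (m.sum fun i k => ((k : ℕ) : ℚ) • α i) = φ m := by
        intro m
        rw [hφ]
        apply Finsupp.sum_congr
        intro i _
        rw [Rat.smul_def]; push_cast; rfl
      rw [e, e, hmm]
    have h2 := hlin h1
    ext i
    have h3 := DFunLike.congr_fun h2 i
    rw [Finsupp.mapRange_apply, Finsupp.mapRange_apply] at h3
    exact_mod_cast h3
  have hφalg : ∀ m, IsAlgebraic ℚ (φ m) := by
    intro m
    rw [hφ]
    apply IsIntegral.isAlgebraic
    apply IsIntegral.sum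
    intro i _
    have h1 : IsIntegral ℚ ((m i : ℕ) : ℂ) := by
      have := isIntegral_algebraMap (R := ℚ) (A := ℂ) (x := (m i : ℚ))
      simpa using this
    exact h1.mul (halg i).isIntegral
  have hsum : ∑ m ∈ p.support, ((p.coeff m : ℚ) : ℂ) * Complex.exp (φ m) = 0 := by
    rw [← hp, MvPolynomial.aeval_def, MvPolynomial.eval₂_eq]
    apply Finset.sum_congr rfl
    intro m _
    congr 1
    have e1 : φ m = ∑ i ∈ m.support, ((m i : ℕ) : ℂ) * α i := rfl
    rw [e1, Complex.exp_sum]
    apply Finset.prod_congr rfl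
    intro i _
    rw [← Complex.exp_nat_mul]
  -- transfer to a sum over exponents
  set w : ℂ → ℂ := fun γ => if h : ∃ m ∈ p.support, φ m = γ then ((p.coeff h.choose : ℚ) : ℂ) else 0
    with hw
  have hwφ : ∀ m ∈ p.support, w (φ m) = ((p.coeff m : ℚ) : ℂ) := by
    intro m hm
    have hex : ∃ m' ∈ p.support, φ m' = φ m := ⟨m, hm, rfl⟩
    have h1 : w (φ m) = ((p.coeff hex.choose : ℚ) : ℂ) := by
      rw [hw]; exact dif_pos hex
    rw [h1, hφinj hex.choose_spec.2]
  have hlin := lw_linear (p.support.image φ) (by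
    intro γ hγ
    obtain ⟨m, _, rfl⟩ := Finset.mem_image.mp hγ
    exact hφalg m) w (by
    intro γ hγ
    obtain ⟨m, hm, rfl⟩ := Finset.mem_image.mp hγ
    rw [hwφ m hm]
    exact isAlgebraic_algebraMap (R := ℚ) (A := ℂ) (p.coeff m)) (by
    rw [Finset.sum_image (fun m _ m' _ h => hφinj h), ← hsum]
    apply Finset.sum_congr rfl
    intro m hm
    rw [hwφ m hm])
  by_contra hp0
  obtain ⟨m, hm⟩ := MvPolynomial.ne_zero_iff.mp hp0
  have hms : m ∈ p.support := MvPolynomial.mem_support_iff.mpr hm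
  have := hlin (φ m) (Finset.mem_image_of_mem φ hms)
  rw [hwφ m hms] at this
  apply hm
  exact_mod_cast this

/-- **Hermite-Lindemann**: a nonzero logarithm of an algebraic number is transcendental. -/
theorem log_transcendental {l : ℂ} (hl : IsAlgebraic ℚ (Complex.exp l)) (hl0 : l ≠ 0) :
    Transcendental ℚ l := by
  intro halg
  have h1 : LinearIndependent ℚ (fun _ : Unit => l) :=
    LinearIndependent.of_subsingleton () hl0
  have h2 := lw (fun _ : Unit => l) (fun _ => halg) h1
  exact h2.transcendental () hl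

end Pool.Agent.Lib.MP_c82530_nt
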