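import Mathlib
import Pool.Agent.Lib.MP_c82530_nt.LWMain

set_option autoImplicit false

namespace Pool.Agent.Lib.MP_c82530_nt

open Complex Set

/-- the algebraic matroid of `ℂ` over `ℚ`. -/
noncomputable abbrev AM : Matroid ℂ := AlgebraicIndependent.matroid ℚ ℂ

lemma mem_cl {s : Set ℂ} {z : ℂ} :
    z ∈ AM.closure s ↔ IsAlgebraic (Algebra.adjoin ℚ s) z := by
  rw [AM, AlgebraicIndependent.matroid_closure_eq]
  exact Iff.rfl

lemma mem_cl_empty {z : ℂ} : z ∈ AM.closure ∅ ↔ IsAlgebraic ℚ z := by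
  rw [mem_cl, Algebra.adjoin_empty]
  constructor
  · intro h
    exact (isAlgebraic_ringHom_iff_of_comp_eq (R := ℚ) (S := (⊥ : Subalgebra ℚ ℂ)) (A := ℂ) (B := ℂ)
      (Algebra.botEquiv ℚ ℂ).symm (RingHom.id ℂ) Function.injective_id (by ext x; simp)).mp h
  · intro h
    exact (isAlgebraic_ringHom_iff_of_comp_eq (R := ℚ) (S := (⊥ : Subalgebra ℚ ℂ)) (A := ℂ) (B := ℂ)
      (Algebra.botEquiv ℚ ℂ).symm (RingHom.id ℂ) Function.injective_id (by ext x; simp)).mpr h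

/-- algebraic dependence is transported by field embeddings. -/
lemma map_mem_cl (σ : ℂ →ₐ[ℚ] ℂ) {s : Set ℂ} {z : ℂ} (h : z ∈ AM.closure s) :
    σ z ∈ AM.closure (σ '' s) := by
  rw [mem_cl] at h ⊢
  have hmap : (Algebra.adjoin ℚ s).map σ = Algebra.adjoin ℚ (σ '' s) := AlgHom.map_adjoin σ s
  let f : Algebra.adjoin ℚ s →ₐ[ℚ] Algebra.adjoin ℚ (σ '' s) :=
    (Subalgebra.inclusion hmap.le).comp (σ.subalgebraMap (Algebra.adjoin ℚ s))
  refine IsAlgebraic.ringHom_of_comp_eq (R := Algebra.adjoin ℚ s)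
    (S := Algebra.adjoin ℚ (σ '' s)) f.toRingHom σ.toRingHom h ?_ ?_
  · intro a b hab
    have := congrArg Subtype.val hab
    exact Subtype.ext (σ.toRingHom.injective this)
  · ext a; rfl

/-- complex conjugation as a `ℚ`-algebra map -/
noncomputable def cj : ℂ →ₐ[ℚ] ℂ := (Complex.conjAe.restrictScalars ℚ : ℂ ≃ₐ[ℚ] ℂ).toAlgHom

lemma cj_apply (z : ℂ) : cj z = (starRingEnd ℂ) z := rfl

lemma cj_exp (z : ℂ) : cj (Complex.exp z) = Complex.exp (cj z) := by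
  rw [cj_apply, cj_apply, Complex.exp_conj]

lemma isAlgebraic_conj {z : ℂ} (h : IsAlgebraic ℚ z) : IsAlgebraic ℚ ((starRingEnd ℂ) z) :=
  (h.algHom cj)

end Pool.Agent.Lib.MP_c82530_nt
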