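import Mathlib
import Pool.Agent.Lib.MP_c82530_nt.Cl

set_option autoImplicit false

namespace Pool.Agent.Lib.MP_c82530_nt

open Complex Set

/-- adding one element to an algebraically independent family -/
lemma indep_snoc {ι : Type*} {x : ι → ℂ} (hx : AlgebraicIndependent ℚ x) {l : ℂ}
    (hl : l ∉ AM.closure (range x)) :
    AlgebraicIndependent ℚ (Sum.elim x (fun _ : Unit => l)) := by
  have h : AlgebraicIndependent ℚ (Sum.elim (fun _ : Unit => l) x) := by
    rw [AlgebraicIndependent.sumElim_iff]
    refine ⟨hx, ?_⟩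
    rw [algebraicIndependent_unique_type_iff]
    intro h
    exact hl (mem_cl.mpr h)
  refine (algebraicIndependent_equiv' (Equiv.sumComm ι Unit) ?_).mpr h
  ext (i | i) <;> rfl

/-- exponentials of a `ℚ`-independent algebraic family, split in two parts: the closures meet in
the algebraic numbers. -/
lemma inter_cl {ι κ : Type*} (α : ι → ℂ) (β : κ → ℂ)
    (hα : ∀ i, IsAlgebraic ℚ (α i)) (hβ : ∀ i, IsAlgebraic ℚ (β i))
    (hlin : LinearIndependent ℚ (Sum.elim α β)) {z : ℂ}
    (h1 : z ∈ AM.closure (range fun i => Complex.exp (α i)))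
    (h2 : z ∈ AM.closure (range fun i => Complex.exp (β i))) : IsAlgebraic ℚ z := by
  have hind : AlgebraicIndependent ℚ (fun i => Complex.exp (Sum.elim α β i)) := by
    apply lw _ _ hlin
    rintro (i | i)
    · exact hα i
    · exact hβ i
  have hinj := hind.injective
  have hM : AM.Indep ((range fun i => Complex.exp (α i)) ∪ (range fun i => Complex.exp (β i))) := by
    rw [AM, AlgebraicIndependent.matroid_indep_iff]
    have h3 := hind.to_subtype_range
    have h4 : range (fun i => Complex.exp (Sum.elim α β i)) =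
        (range fun i => Complex.exp (α i)) ∪ (range fun i => Complex.exp (β i)) := by
      ext z
      simp only [mem_range, mem_union, Sum.exists, Sum.elim_inl, Sum.elim_inr]
    rw [h4] at h3
    exact h3
  have h5 := hM.closure_inter_eq_inter_closure
  have h6 : (range fun i => Complex.exp (α i)) ∩ (range fun i => Complex.exp (β i)) = ∅ := by
    ext z
    simp only [mem_inter_iff, mem_range, mem_empty_iff_false, iff_false, not_and, not_exists]
    rintro ⟨i, rfl⟩ j hj
    have := @hinj (Sum.inl i) (Sum.inr j) hj.symm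
    exact absurd this (by simp)
  rw [h6] at h5
  rw [← mem_cl_empty, h5]
  exact ⟨h1, h2⟩

/-- the conjugate of an element of the closure of the `exp (α i)` is in the closure of the
`exp (conj (α i))`. -/
lemma conj_cl {ι : Type*} {α : ι → ℂ} {z : ℂ}
    (h : z ∈ AM.closure (range fun i => Complex.exp (α i))) :
    (starRingEnd ℂ) z ∈ AM.closure (range fun i => Complex.exp ((starRingEnd ℂ) (α i))) := by
  have h1 := map_mem_cl cj h
  have h2 : cj '' (range fun i => Complex.exp (α i)) =
      range fun i => Complex.exp ((starRingEnd ℂ) (α i)) := by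
    rw [← range_comp]
    congr 1
    ext i
    exact cj_exp (α i)
  rw [h2] at h1
  exact h1

lemma neg_mem_cl {s : Set ℂ} {z : ℂ} (h : z ∈ AM.closure s) : -z ∈ AM.closure s := by
  rw [mem_cl] at h ⊢
  exact h.neg

lemma alg_mem_cl (s : Set ℂ) {z : ℂ} (h : IsAlgebraic ℚ z) : z ∈ AM.closure s := by
  rw [mem_cl]
  exact IsAlgebraic.extendScalars (S := Algebra.adjoin ℚ s) (algebraMap ℚ (Algebra.adjoin ℚ s)).injective h

lemma mul_mem_cl {s : Set ℂ} {z w : ℂ} (h : z ∈ AM.closure s) (h' : w ∈ AM.closure s) :
    z * w ∈ AM.closure s := by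
  rw [mem_cl] at h h' ⊢
  exact h.mul h'

/-- **Main step**: a real or purely imaginary nonzero logarithm of an algebraic number is not
algebraic over `ℚ(exp α₁, …, exp αₙ)` when `αᵢ, conj αᵢ` are `ℚ`-linearly independent. -/
theorem log_not_mem {ι : Type*} (α : ι → ℂ) (hα : ∀ i, IsAlgebraic ℚ (α i))
    (hlin : LinearIndependent ℚ (Sum.elim α (fun i => (starRingEnd ℂ) (α i))))
    {l : ℂ} (hl0 : l ≠ 0) (hl : IsAlgebraic ℚ (Complex.exp l))
    (hc : (starRingEnd ℂ) l = l ∨ (starRingEnd ℂ) l = -l) :
    l ∉ AM.closure (range fun i => Complex.exp (α i)) := by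
  intro h
  have h1 := conj_cl h
  have h2 : l ∈ AM.closure (range fun i => Complex.exp ((starRingEnd ℂ) (α i))) := by
    rcases hc with hc | hc
    · rwa [hc] at h1
    · rw [hc] at h1
      have := neg_mem_cl h1
      rwa [neg_neg] at this
  have h3 := inter_cl α (fun i => (starRingEnd ℂ) (α i)) hα (fun i => isAlgebraic_conj (hα i))
    hlin h h2
  exact log_transcendental hl hl0 h3

/-- for one algebraic number neither real nor purely imaginary, `α, conj α` are independent. -/
lemma linInd_conj {α : ℂ} (h1 : (starRingEnd ℂ) α ≠ α) (h2 : (starRingEnd ℂ) α ≠ -α) :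
    LinearIndependent ℚ (Sum.elim (fun _ : Fin 1 => α) (fun _ : Fin 1 => (starRingEnd ℂ) α)) := by
  have hα0 : α ≠ 0 := by
    rintro rfl
    exact h1 (map_zero _)
  have h : LinearIndependent ℚ ![α, (starRingEnd ℂ) α] := by
    rw [LinearIndependent.pair_iff' hα0]
    intro a ha
    rw [Algebra.smul_def] at ha
    have hn := congrArg (fun z : ℂ => ‖z‖) ha
    simp only [norm_mul, RCLike.norm_conj] at hn
    have hnα : ‖α‖ ≠ 0 := norm_ne_zero_iff.mpr hα0
    have hn1 : ‖(algebraMap ℚ ℂ) a‖ = 1 := mul_right_cancel₀ hnα (by rw [hn, one_mul])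
    rw [eq_ratCast, Complex.norm_ratCast] at hn1
    have ha1 : a = 1 ∨ a = -1 := by
      rcases (abs_eq (zero_le_one' ℝ)).mp hn1 with h | h
      · left; exact_mod_cast h
      · right; exact_mod_cast h
    rcases ha1 with rfl | rfl
    · apply h1; rw [← ha]; simp
    · apply h2; rw [← ha]; simp
  have h3 := (linearIndependent_equiv' (finSumFinEquiv (m := 1) (n := 1))
    (f := ![α, (starRingEnd ℂ) α]) (g := Sum.elim (fun _ : Fin 1 => α)
    (fun _ : Fin 1 => (starRingEnd ℂ) α)) ?_).mpr h
  · exact h3
  · ext (i | i) <;> fin_cases i <;> rfl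

end Pool.Agent.Lib.MP_c82530_nt
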