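import Mathlib

set_option autoImplicit false

namespace Pool.Agent.Lib.MP_c82530_nt

open Polynomial

/-- a relation `∑ gᵢ(y) τ^i = 0` together with an endomorphism `σ` over `F` such that
`σ τ = c τ` (`c` not a root of unity) and `σ y = y + κ` forces `y` to be algebraic. -/
lemma eigen_aux {F : Type*} [Field F] [Algebra F ℂ] (σ : ℂ →ₐ[F] ℂ) {τ y : ℂ} {c κ : F}
    (hc : ∀ i j : ℕ, c ^ i = c ^ j → i = j) (hτ : τ ≠ 0)
    (hστ : σ τ = algebraMap F ℂ c * τ) (hσy : σ y = y + algebraMap F ℂ κ) :
    ∀ (n : ℕ) (s : Finset ℕ) (g : ℕ → F[X]), s.card = n → s.Nonempty → (∀ i ∈ s, g i ≠ 0) →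
      ∑ i ∈ s, aeval y (g i) * τ ^ i = 0 → IsAlgebraic F y := by
  classical
  intro n
  induction n with
  | zero =>
    intro s g hs hne
    rw [Finset.card_eq_zero] at hs
    exact absurd hs hne.ne_empty
  | succ n ih =>
    intro s g hs hne hg hsum
    obtain ⟨i0, hi0⟩ := hne
    by_cases h1 : (s.erase i0).Nonempty
    · -- reduce the number of terms
      set G : ℕ → F[X] := fun i => C (c ^ i0) * (g i0).comp (X + C κ) * g i
        - g i0 * (C (c ^ i) * (g i).comp (X + C κ)) with hG
      have hGi0 : G i0 = 0 := by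
        rw [hG]; ring
      refine ih (s.erase i0) G ?_ h1 ?_ ?_
      · rw [Finset.card_erase_of_mem hi0, hs]; rfl
      · intro i hi h0
        have hne := (Finset.mem_erase.mp hi).1
        have hgi := hg i (Finset.mem_erase.mp hi).2
        have hgi0 := hg i0 hi0
        have e1 : C (c ^ i0) * (g i0).comp (X + C κ) * g i =
          g i0 * (C (c ^ i) * (g i).comp (X + C κ)) := sub_eq_zero.mp h0
        have e2 := congrArg Polynomial.leadingCoeff e1
        simp only [leadingCoeff_mul, leadingCoeff_C] at e2
        rw [leadingCoeff_comp (by rw [natDegree_X_add_C]; norm_num),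
          leadingCoeff_comp (by rw [natDegree_X_add_C]; norm_num)] at e2
        simp only [leadingCoeff_X_add_C, one_pow, mul_one] at e2
        have e3 : (c ^ i0) * ((g i0).leadingCoeff * (g i).leadingCoeff) =
          (c ^ i) * ((g i0).leadingCoeff * (g i).leadingCoeff) := by
          linear_combination e2
        have e4 := mul_right_cancel₀ (mul_ne_zero (leadingCoeff_ne_zero.mpr hgi0)
          (leadingCoeff_ne_zero.mpr hgi)) e3
        exact hne (hc _ _ e4.symm)
      · have e0 : ∑ i ∈ s.erase i0, aeval y (G i) * τ ^ i = ∑ i ∈ s, aeval y (G i) * τ ^ i := by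
          rw [← Finset.add_sum_erase s _ hi0, hGi0]
          simp
        rw [e0]
        have hcomp : ∀ p : F[X], aeval y (p.comp (X + C κ)) = σ (aeval y p) := by
          intro p
          rw [aeval_comp, ← aeval_algHom_apply, hσy]
          simp
        have e1 : ∀ i ∈ s, aeval y (G i) * τ ^ i =
            (algebraMap F ℂ (c ^ i0) * aeval y ((g i0).comp (X + C κ))) *
              (aeval y (g i) * τ ^ i) - aeval y (g i0) * σ (aeval y (g i) * τ ^ i) := by
          intro i _
          rw [hG]
          simp only [map_sub, map_mul, aeval_C, map_pow, hστ]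
          rw [hcomp (g i)]
          ring
        rw [Finset.sum_congr rfl e1, Finset.sum_sub_distrib, ← Finset.mul_sum, ← Finset.mul_sum,
          ← map_sum, hsum]
        simp
    · -- only one term
      rw [Finset.not_nonempty_iff_eq_empty] at h1
      have hs' : s = {i0} := by
        rw [← Finset.insert_erase hi0, h1]; rfl
      rw [hs', Finset.sum_singleton] at hsum
      have h2 : aeval y (g i0) = 0 := by
        rcases mul_eq_zero.mp hsum with h | h
        · exact h
        · exact absurd h (pow_ne_zero _ hτ)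
      exact ⟨g i0, hg i0 hi0, h2⟩

lemma mem_closure_empty {F : Type*} [Field F] [Algebra F ℂ] {y : ℂ} :
    y ∈ (AlgebraicIndependent.matroid F ℂ).closure ∅ ↔ IsAlgebraic F y := by
  rw [AlgebraicIndependent.matroid_closure_eq, Algebra.adjoin_empty]
  have e := isAlgebraic_ringHom_iff_of_comp_eq (R := F) (S := (⊥ : Subalgebra F ℂ)) (A := ℂ)
    (B := ℂ) (Algebra.botEquiv F ℂ).symm (RingHom.id ℂ) Function.injective_id (by ext x; simp)
    (a := y)
  exact e

/-- If `y` is algebraic over `F(τ)`, `σ τ = c τ` with `c` not a root of unity and `σ y = y + κ`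
then `y` is algebraic over `F`. -/
theorem eigen {F : Type*} [Field F] [Algebra F ℂ] (σ : ℂ →ₐ[F] ℂ) {τ y : ℂ} {c κ : F}
    (hc : ∀ i j : ℕ, c ^ i = c ^ j → i = j) (hτ : τ ≠ 0)
    (hστ : σ τ = algebraMap F ℂ c * τ) (hσy : σ y = y + algebraMap F ℂ κ)
    (hy : IsAlgebraic (Algebra.adjoin F {τ}) y) : IsAlgebraic F y := by
  classical
  by_contra hcon
  -- exchange
  have h1 : y ∈ (AlgebraicIndependent.matroid F ℂ).closure (insert τ ∅) \
      (AlgebraicIndependent.matroid F ℂ).closure ∅ := by
    constructor
    · rw [AlgebraicIndependent.matroid_closure_eq, insert_empty_eq]; exact hy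
    · rw [mem_closure_empty]; exact hcon
  have h2 := Matroid.closure_exchange h1
  have h3 : IsAlgebraic (Algebra.adjoin F {y}) τ := by
    have := h2.1
    rw [AlgebraicIndependent.matroid_closure_eq, insert_empty_eq] at this
    exact this
  obtain ⟨p, hp0, hp⟩ := h3
  have hg : ∀ i, ∃ g : F[X], aeval y g = (p.coeff i : ℂ) := by
    intro i
    have h := (Algebra.adjoin_singleton_eq_range_aeval F y).le (p.coeff i).2
    obtain ⟨g, hg⟩ := h
    exact ⟨g, hg⟩
  choose g hg using hg
  apply hcon
  refine eigen_aux σ hc hτ hστ hσy _ p.support g rfl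
    (Polynomial.support_nonempty.mpr hp0) ?_ ?_
  · intro i hi h0
    rw [Polynomial.mem_support_iff] at hi
    apply hi
    apply Subtype.ext
    rw [← hg i, h0, map_zero]
    rfl
  · rw [aeval_def, eval₂_eq_sum, Polynomial.sum] at hp
    rw [← hp]
    apply Finset.sum_congr rfl
    intro i _
    rw [hg i]
    rfl

end Pool.Agent.Lib.MP_c82530_nt
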