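import Mathlib
import Pool.Agent.Lib.MP_c82530_nt.Conj
import Pool.Agent.Lib.MP_c82530_nt.Eigen

set_option autoImplicit false

namespace Pool.Agent.Lib.MP_c82530_nt

open Set

/-- a transcendental element can be rescaled by a field endomorphism when the field is algebraic
over `F(τ)` -/
lemma exists_endo (F : IntermediateField ℚ ℂ) {τ : ℂ} (hτ : Transcendental F τ)
    [halg : Algebra.IsAlgebraic (IntermediateField.adjoin F (range fun _ : Unit => τ)) ℂ]
    {c : F} (hc : c ≠ 0) : ∃ σ : ℂ →ₐ[F] ℂ, σ τ = (c : ℂ) * τ := by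
  have h1 : AlgebraicIndependent F (fun _ : Unit => τ) := by
    rw [algebraicIndependent_unique_type_iff]; exact hτ
  have hτ' : Transcendental F ((c : ℂ) * τ) := by
    intro h
    apply hτ
    have h2 : IsAlgebraic F ((algebraMap F ℂ) (c⁻¹) * ((c : ℂ) * τ)) :=
      (isAlgebraic_algebraMap (c⁻¹)).mul h
    have hc' : (c : ℂ) ≠ 0 := by
      intro h; exact hc (Subtype.ext h)
    have e : (algebraMap F ℂ) (c⁻¹) * ((c : ℂ) * τ) = τ := by
      rw [map_inv₀]
      change (c : ℂ)⁻¹ * ((c : ℂ) * τ) = τ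
      field_simp
    rwa [e] at h2
  have h2 : AlgebraicIndependent F (fun _ : Unit => (c : ℂ) * τ) := by
    rw [algebraicIndependent_unique_type_iff]; exact hτ'
  let f : FractionRing (MvPolynomial Unit F) →ₐ[F] ℂ :=
    IsFractionRing.liftAlgHom (K := FractionRing (MvPolynomial Unit F))
      (algebraicIndependent_iff_injective_aeval.2 h2)
  have hf : f (algebraMap (MvPolynomial Unit F) (FractionRing (MvPolynomial Unit F))
      (MvPolynomial.X ())) = (c : ℂ) * τ := by
    have : f (algebraMap (MvPolynomial Unit F) (FractionRing (MvPolynomial Unit F))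
      (MvPolynomial.X ())) = MvPolynomial.aeval (fun _ : Unit => (c : ℂ) * τ)
        (MvPolynomial.X ()) :=
      IsFractionRing.lift_algebraMap (algebraicIndependent_iff_injective_aeval.2 h2) _
    rw [this, MvPolynomial.aeval_X]
  let φ : IntermediateField.adjoin F (range fun _ : Unit => τ) →ₐ[F] ℂ :=
    f.comp h1.aevalEquivField.symm.toAlgHom
  obtain ⟨σ, hσ⟩ := IsAlgClosed.surjective_domRestrict_of_isAlgebraic (K := F) (M := ℂ)
    (L := IntermediateField.adjoin F (range fun _ : Unit => τ)) (E := ℂ) φ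
  refine ⟨σ, ?_⟩
  have hmem : τ ∈ IntermediateField.adjoin F (range fun _ : Unit => τ) :=
    IntermediateField.subset_adjoin _ _ ⟨(), rfl⟩
  have e1 : σ τ = φ ⟨τ, hmem⟩ := by
    rw [← hσ]; rfl
  rw [e1]
  have e2 : h1.aevalEquivField (algebraMap (MvPolynomial Unit F)
      (FractionRing (MvPolynomial Unit F)) (MvPolynomial.X ())) =
      (⟨τ, hmem⟩ : IntermediateField.adjoin F (range fun _ : Unit => τ)) := by
    apply Subtype.ext
    rw [AlgebraicIndependent.aevalEquivField_algebraMap_apply_coe, MvPolynomial.aeval_X]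
  have e3 : h1.aevalEquivField.symm (⟨τ, hmem⟩ : IntermediateField.adjoin F
      (range fun _ : Unit => τ)) = algebraMap (MvPolynomial Unit F)
      (FractionRing (MvPolynomial Unit F)) (MvPolynomial.X ()) := by
    rw [← e2, AlgEquiv.symm_apply_apply]
  change f (h1.aevalEquivField.symm _) = _
  rw [e3, hf]

/-- the closure of a set as an intermediate field of `ℂ/ℚ` -/
noncomputable def clF (s : Set ℂ) : IntermediateField ℚ ℂ :=
  (algebraicClosure (IntermediateField.adjoin ℚ s) ℂ).restrictScalars ℚ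

lemma mem_clF {s : Set ℂ} {z : ℂ} : z ∈ clF s ↔ z ∈ AM.closure s := by
  rw [mem_cl, ← IntermediateField.isAlgebraic_adjoin_iff, ← mem_algebraicClosure_iff]
  exact Iff.rfl

lemma mem_cl_of_isAlgebraic {s : Set ℂ} (F : IntermediateField ℚ ℂ) (hF : (F : Set ℂ) ⊆ AM.closure s)
    {z : ℂ} (h : IsAlgebraic F z) : z ∈ AM.closure s := by
  have h1 : z ∈ AM.closure (F : Set ℂ) := by
    rw [mem_cl]
    refine IsAlgebraic.ringHom_of_comp_eq (R := F) (S := Algebra.adjoin ℚ (F : Set ℂ))
      (A := ℂ) (B := ℂ) (Subalgebra.inclusion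
        (show F.toSubalgebra ≤ Algebra.adjoin ℚ (F : Set ℂ) from Algebra.subset_adjoin)).toRingHom
      (RingHom.id ℂ) h ?_ ?_
    · intro a b hab
      have := congrArg Subtype.val hab
      exact Subtype.ext this
    · ext a; rfl
  have h2 := AM.closure_subset_closure hF h1
  rwa [Matroid.closure_closure] at h2

lemma clF_closed {s : Set ℂ} {z : ℂ} (h : IsAlgebraic (clF s) z) : z ∈ clF s := by
  rw [mem_clF]
  exact mem_cl_of_isAlgebraic (clF s) (fun _ hz => mem_clF.mp hz) h

lemma isAlgebraic_of_mem_cl {s : Set ℂ} (F : IntermediateField ℚ ℂ) (hs : s ⊆ F) {z : ℂ}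
    (h : z ∈ AM.closure s) : IsAlgebraic F z := by
  rw [mem_cl] at h
  refine IsAlgebraic.ringHom_of_comp_eq (R := Algebra.adjoin ℚ s) (S := F)
      (A := ℂ) (B := ℂ) (Subalgebra.inclusion
        (show Algebra.adjoin ℚ s ≤ F.toSubalgebra from Algebra.adjoin_le hs)).toRingHom
      (RingHom.id ℂ) h ?_ ?_
  · intro a b hab
    have := congrArg Subtype.val hab
    exact Subtype.ext this
  · ext a; rfl

lemma exp_smul_pow (q : ℚ) (h : ℂ) :
    Complex.exp (q • h) ^ q.den = Complex.exp h ^ q.num := by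
  rw [← Complex.exp_nat_mul, ← Complex.exp_int_mul]
  congr 1
  rw [Algebra.smul_def, eq_ratCast, ← mul_assoc]
  congr 1
  have := Rat.den_mul_eq_num q
  exact_mod_cast this

/-- the set of `h` with `exp h ∈ F` is a `ℚ`-subspace if `F` is relatively algebraically closed -/
lemma exp_smul_mem (F : IntermediateField ℚ ℂ) (hF : ∀ z, IsAlgebraic F z → z ∈ F) (q : ℚ) {h : ℂ}
    (hh : Complex.exp h ∈ F) : Complex.exp (q • h) ∈ F := by
  apply hF
  have h1 : IsAlgebraic F (Complex.exp (q • h) ^ q.den) := by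
    rw [exp_smul_pow]
    have h2 : Complex.exp h ^ q.num ∈ F := zpow_mem hh _
    exact isAlgebraic_algebraMap (⟨_, h2⟩ : F)
  exact IsAlgebraic.of_pow q.den_pos h1

lemma alg_top (F : IntermediateField ℚ ℂ) {B : Set ℂ} {τ : ℂ} (hB : AM.closure B = univ)
    (h : ∀ y ∈ B, y ≠ τ → y ∈ F) :
    Algebra.IsAlgebraic (IntermediateField.adjoin F (range fun _ : Unit => τ)) ℂ := by
  constructor
  intro z
  have hz : z ∈ AM.closure B := by
    rw [hB]; exact mem_univ _
  refine isAlgebraic_of_mem_cl ((IntermediateField.adjoin F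
    (range fun _ : Unit => τ)).restrictScalars ℚ) ?_ hz
  intro y hy
  by_cases h' : y = τ
  · rw [h']
    exact IntermediateField.subset_adjoin F (range fun _ : Unit => τ) ⟨(), rfl⟩
  · exact (IntermediateField.adjoin F (range fun _ : Unit => τ)).algebraMap_mem ⟨y, h y hy h'⟩

/-- **Scaling endomorphisms.** If `α0` is an algebraic number outside the `ℚ`-space `H` of algebraic
numbers then some endomorphism of `ℂ` over a relatively algebraically closed field containing all
`exp h`, `h ∈ H`, maps `exp α0` to `2 exp α0`, and `exp α0` is not in this field. -/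
theorem exists_scaling (α0 : ℂ) (H : Submodule ℚ ℂ) (hH : ∀ h ∈ H, IsAlgebraic ℚ h)
    (h0 : IsAlgebraic ℚ α0) (hn : α0 ∉ H) :
    ∃ (F : IntermediateField ℚ ℂ) (σ : ℂ →ₐ[F] ℂ), (∀ z, IsAlgebraic F z → z ∈ F) ∧
      (∀ h ∈ H, Complex.exp h ∈ F) ∧ Complex.exp α0 ∉ F ∧
      σ (Complex.exp α0) = 2 * Complex.exp α0 := by
  classical
  let b := Module.Basis.ofVectorSpace ℚ H
  set v : Module.Basis.ofVectorSpaceIndex ℚ H → ℂ := fun i => (b i : ℂ) with hv
  have hspan : Submodule.span ℚ (range v) = H := by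
    have h1 : range v = H.subtype '' (range b) := by
      rw [← range_comp]; rfl
    rw [h1, Submodule.span_image, b.span_eq, Submodule.map_top, Submodule.range_subtype]
  have hvi : LinearIndependent ℚ v := b.linearIndependent.map' H.subtype (Submodule.ker_subtype H)
  have hopt := hvi.option (x := α0) (by rw [hspan]; exact hn)
  set x : Option (Module.Basis.ofVectorSpaceIndex ℚ H) → ℂ :=
    fun o => Option.casesOn' o α0 v with hx
  have hlw := lw x (by
    rintro (_ | i)
    · exact h0
    · exact hH _ (b i).2) hopt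
  have hind : AM.Indep (range fun o => Complex.exp (x o)) := hlw.to_subtype_range
  obtain ⟨B, hB, hIB⟩ := hind.exists_isBase_superset
  set τ := Complex.exp α0 with hτ
  have hτB : τ ∈ B := hIB ⟨none, rfl⟩
  have hτF : τ ∉ clF (B \ {τ}) := by
    rw [mem_clF]
    exact hB.indep.notMem_closure_sdiff_of_mem hτB
  have hF : ∀ z, IsAlgebraic (clF (B \ {τ})) z → z ∈ clF (B \ {τ}) := fun z hz => clF_closed hz
  have hb : ∀ i, Complex.exp (v i) ∈ clF (B \ {τ}) := by
    intro i
    rw [mem_clF]
    apply AM.mem_closure_of_mem' ?_ (mem_univ _)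
    refine ⟨hIB ⟨some i, rfl⟩, ?_⟩
    intro h
    have := hlw.injective (show Complex.exp (x (some i)) = Complex.exp (x none) from h)
    exact absurd this (by simp)
  have hexp : ∀ h ∈ H, Complex.exp h ∈ clF (B \ {τ}) := by
    intro h hh
    rw [← hspan] at hh
    induction hh using Submodule.span_induction with
    | mem y hy => obtain ⟨i, rfl⟩ := hy; exact hb i
    | zero => rw [Complex.exp_zero]; exact one_mem _
    | add y z _ _ hy hz => rw [Complex.exp_add]; exact mul_mem hy hz
    | smul q y _ hy => exact exp_smul_mem _ hF q hy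
  have hBF : ∀ y ∈ B, y ≠ τ → y ∈ clF (B \ {τ}) := by
    intro y hy h
    rw [mem_clF]
    exact AM.mem_closure_of_mem' ⟨hy, h⟩ (mem_univ _)
  obtain ⟨F, hFdef⟩ : ∃ F, F = clF (B \ {τ}) := ⟨_, rfl⟩
  rw [← hFdef] at hF hexp hτF hBF
  have halg := alg_top F hB.closure_eq hBF
  have htr : Transcendental F τ := fun h => hτF (hF _ h)
  obtain ⟨σ, hσ⟩ := exists_endo F htr (c := 2) two_ne_zero
  refine ⟨F, σ, hF, hexp, hτF, ?_⟩
  rw [hσ]
  rfl

end Pool.Agent.Lib.MP_c82530_nt
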