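import Mathlib
import Pool.Agent.Lib.MP_c82530_nt.Scale

set_option autoImplicit false

namespace Pool.Agent.Lib.MP_c82530_nt

open Set

lemma isAlgebraic_inv' {z : ℂ} (h : IsAlgebraic ℚ z) : IsAlgebraic ℚ z⁻¹ := h.inv

lemma exp_smul_mem_cl (q : ℚ) (v : ℂ) : Complex.exp (q • v) ∈ AM.closure {Complex.exp v} := by
  rw [← mem_clF]
  apply exp_smul_mem _ (fun z hz => clF_closed hz)
  rw [mem_clF]
  exact AM.mem_closure_of_mem' rfl (mem_univ _)

/-- the scaling endomorphism multiplies every `exp v` by an algebraic number. -/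
lemma sigma_exp {F : IntermediateField ℚ ℂ} (σ : ℂ →ₐ[F] ℂ) {α0 : ℂ}
    (hσ : σ (Complex.exp α0) = 2 * Complex.exp α0) {H : Submodule ℚ ℂ}
    (hH : ∀ h ∈ H, Complex.exp h ∈ F) {v : ℂ} (hv : v ∈ H ⊔ Submodule.span ℚ {α0}) :
    ∃ c : ℂ, IsAlgebraic ℚ c ∧ σ (Complex.exp v) = c * Complex.exp v := by
  obtain ⟨h, hh, w, hw, rfl⟩ := Submodule.mem_sup.mp hv
  obtain ⟨q, rfl⟩ := Submodule.mem_span_singleton.mp hw
  set e := Complex.exp (q • α0) with he
  have he0 : e ≠ 0 := Complex.exp_ne_zero _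
  refine ⟨σ e / e, ?_, ?_⟩
  · have h1 : (σ e / e) ^ q.den = (2 : ℂ) ^ q.num := by
      rw [div_pow, ← map_pow, he, exp_smul_pow, map_zpow₀, hσ, mul_zpow]
      have : Complex.exp α0 ^ q.num ≠ 0 := zpow_ne_zero _ (Complex.exp_ne_zero _)
      field_simp
    apply IsAlgebraic.of_pow q.den_pos
    rw [h1]
    have h2 : IsAlgebraic ℚ ((algebraMap ℚ ℂ) ((2 : ℚ) ^ q.num)) := isAlgebraic_algebraMap _
    rw [map_zpow₀] at h2
    simpa using h2
  · rw [Complex.exp_add, map_mul]
    have h1 : σ (Complex.exp h) = Complex.exp h := σ.commutes (⟨_, hH h hh⟩ : F)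
    rw [h1, ← he]
    field_simp

/-- exchange for one generator -/
lemma mem_cl_singleton_symm {τ y : ℂ} (h : y ∈ AM.closure {τ}) (hy : Transcendental ℚ y) :
    τ ∈ AM.closure {y} := by
  have h1 : y ∈ AM.closure (insert τ ∅) \ AM.closure ∅ := by
    refine ⟨by rwa [insert_empty_eq], ?_⟩
    rw [mem_cl_empty]; exact hy
  have h2 := (Matroid.closure_exchange h1).1
  rwa [insert_empty_eq] at h2

lemma two_pow_inj (F : IntermediateField ℚ ℂ) : ∀ i j : ℕ, (2 : F) ^ i = (2 : F) ^ j → i = j := by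
  intro i j h
  have h1 : (2 : ℂ) ^ i = (2 : ℂ) ^ j := congrArg Subtype.val h
  have h2 : (2 : ℕ) ^ i = (2 : ℕ) ^ j := by exact_mod_cast h1
  exact Nat.pow_right_injective le_rfl h2

/-- the `ℚ`-space of algebraic numbers -/
noncomputable def Kalg : Submodule ℚ ℂ := (algebraicClosure ℚ ℂ).toSubalgebra.toSubmodule

lemma mem_Kalg {z : ℂ} : z ∈ Kalg ↔ IsAlgebraic ℚ z := mem_algebraicClosure_iff

/-- a hyperplane of the space of algebraic numbers through `a` and not through `b` -/
lemma exists_hyperplane {a b : ℂ} (ha : IsAlgebraic ℚ a) (hb : IsAlgebraic ℚ b)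
    (hab : LinearIndependent ℚ ![a, b]) :
    ∃ H : Submodule ℚ ℂ, (∀ h ∈ H, IsAlgebraic ℚ h) ∧ a ∈ H ∧ b ∉ H ∧
      ∀ v, IsAlgebraic ℚ v → v ∈ H ⊔ Submodule.span ℚ {b} := by
  have hb0 : b ≠ 0 := by
    have := hab.ne_zero 1
    simpa using this
  have hdis : Disjoint (Submodule.span ℚ {a}) (Submodule.span ℚ {b}) := by
    rw [Submodule.disjoint_def]
    intro x hx hx'
    obtain ⟨p, rfl⟩ := Submodule.mem_span_singleton.mp hx
    obtain ⟨q, hq⟩ := Submodule.mem_span_singleton.mp hx'
    have h := LinearIndependent.pair_iff.mp hab p (-q) (by rw [neg_smul, hq]; ring)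
    rw [h.1, zero_smul]
  obtain ⟨A, hA, hcompl⟩ := hdis.exists_isCompl
  refine ⟨A ⊓ Kalg, fun h hh => mem_Kalg.mp hh.2, ⟨hA (Submodule.mem_span_singleton_self a),
    mem_Kalg.mpr ha⟩, ?_, ?_⟩
  · intro h
    exact hb0 (Submodule.disjoint_def.mp hcompl.disjoint b h.1
      (Submodule.mem_span_singleton_self b))
  · intro v hv
    have h1 : v ∈ A ⊔ Submodule.span ℚ {b} := by
      rw [hcompl.sup_eq_top]; trivial
    obtain ⟨x, hx, w, hw, rfl⟩ := Submodule.mem_sup.mp h1
    refine Submodule.mem_sup.mpr ⟨x, ⟨hx, ?_⟩, w, hw, rfl⟩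
    have hw' : w ∈ Kalg := by
      obtain ⟨q, rfl⟩ := Submodule.mem_span_singleton.mp hw
      exact Kalg.smul_mem q (mem_Kalg.mpr hb)
    have h2 := Kalg.sub_mem (mem_Kalg.mpr hv) hw'
    rwa [add_sub_cancel_right] at h2

lemma isAlgebraic_adjoin_F (F : IntermediateField ℚ ℂ) {τ y : ℂ} (h : y ∈ AM.closure {τ}) :
    IsAlgebraic (Algebra.adjoin F {τ}) y := by
  have h1 : IsAlgebraic (IntermediateField.adjoin F {τ}) y := by
    refine isAlgebraic_of_mem_cl ((IntermediateField.adjoin F {τ}).restrictScalars ℚ) ?_ h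
    rintro _ rfl
    exact IntermediateField.subset_adjoin F _ rfl
  rwa [IntermediateField.isAlgebraic_adjoin_iff] at h1

/-- **Directness.** Let `αᵢ` be pairwise `ℚ`-linearly independent algebraic numbers and let `yᵢ` be
algebraic over `ℚ(exp αᵢ)`. If `∑ yᵢ` is algebraic then every `yᵢ` is algebraic. -/
theorem direct {ι : Type*} (s : Finset ι) (α : ι → ℂ) (hα : ∀ i ∈ s, IsAlgebraic ℚ (α i))
    (hpair : ∀ i ∈ s, ∀ j ∈ s, i ≠ j → LinearIndependent ℚ ![α i, α j]) :
    ∀ y : ι → ℂ, (∀ i ∈ s, y i ∈ AM.closure {Complex.exp (α i)}) →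
      IsAlgebraic ℚ (∑ i ∈ s, y i) → ∀ i ∈ s, IsAlgebraic ℚ (y i) := by
  classical
  induction s using Finset.induction_on with
  | empty => simp
  | insert m s hm ih =>
    intro y hy hsum
    have ih' := ih (fun i hi => hα i (Finset.mem_insert_of_mem hi))
      (fun i hi j hj => hpair i (Finset.mem_insert_of_mem hi) j (Finset.mem_insert_of_mem hj))
    rw [Finset.sum_insert hm] at hsum
    have key : ∀ j ∈ s, IsAlgebraic ℚ (y j) := by
      intro j hj
      have hmj : m ≠ j := by rintro rfl; exact hm hj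
      obtain ⟨H, hH, hmH, hjH, hsup⟩ := exists_hyperplane (hα m (Finset.mem_insert_self m s))
        (hα j (Finset.mem_insert_of_mem hj))
        (hpair m (Finset.mem_insert_self m s) j (Finset.mem_insert_of_mem hj) hmj)
      obtain ⟨F, σ, hF, hexp, hτF, hσ⟩ := exists_scaling (α j) H hH
        (hα j (Finset.mem_insert_of_mem hj)) hjH
      have hQF : ∀ z, IsAlgebraic ℚ z → z ∈ F := fun z hz =>
        hF z (hz.extendScalars (algebraMap ℚ F).injective)
      have hσF : ∀ z ∈ F, σ z = z := fun z hz => σ.commutes (⟨z, hz⟩ : F)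
      have hymF : y m ∈ F := by
        apply hF
        apply isAlgebraic_of_mem_cl F _ (hy m (Finset.mem_insert_self m s))
        rintro _ rfl
        exact hexp _ hmH
      have hz : ∀ i ∈ s, σ (y i) - y i ∈ AM.closure {Complex.exp (α i)} := by
        intro i hi
        have hyi := hy i (Finset.mem_insert_of_mem hi)
        obtain ⟨c, hc, hσc⟩ := sigma_exp σ hσ hexp (hsup _ (hα i (Finset.mem_insert_of_mem hi)))
        have h1 := map_mem_cl (σ.restrictScalars ℚ) hyi
        have h2 : σ (y i) ∈ AM.closure {Complex.exp (α i)} := by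
          rw [image_singleton] at h1
          have h3 : ({(σ.restrictScalars ℚ) (Complex.exp (α i))} : Set ℂ) ⊆
              AM.closure {Complex.exp (α i)} := by
            rw [singleton_subset_iff]
            change σ (Complex.exp (α i)) ∈ _
            rw [hσc]
            exact mul_mem_cl (alg_mem_cl _ hc) (AM.mem_closure_of_mem' rfl (mem_univ _))
          have h4 := AM.closure_subset_closure h3 h1
          rwa [Matroid.closure_closure] at h4
        rw [mem_cl] at h2 hyi ⊢
        exact h2.sub hyi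
      have hsumz : ∑ i ∈ s, (σ (y i) - y i) = 0 := by
        rw [Finset.sum_sub_distrib, ← map_sum]
        have h1 : ∑ i ∈ s, y i ∈ F := by
          have h2 : ∑ i ∈ s, y i = (y m + ∑ i ∈ s, y i) - y m := by ring
          rw [h2]
          exact sub_mem (hQF _ hsum) hymF
        rw [hσF _ h1, sub_self]
      have hzalg := ih' (fun i => σ (y i) - y i) hz (by rw [hsumz]; exact isAlgebraic_zero) j hj
      have hyj := hy j (Finset.mem_insert_of_mem hj)
      have h1 : IsAlgebraic (Algebra.adjoin F {Complex.exp (α j)}) (y j) :=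
        isAlgebraic_adjoin_F F hyj
      have h2 : IsAlgebraic F (y j) := eigen σ (τ := Complex.exp (α j)) (c := 2)
        (κ := (⟨_, hQF _ hzalg⟩ : F)) (two_pow_inj F) (Complex.exp_ne_zero _)
        (by rw [hσ]; rfl) (by
          change σ (y j) = y j + (σ (y j) - y j)
          ring) h1
      have h3 : y j ∈ F := hF _ h2
      by_contra hcon
      apply hτF
      apply hF
      apply isAlgebraic_of_mem_cl F _ (mem_cl_singleton_symm hyj hcon)
      rintro _ rfl
      exact h3
    intro i hi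
    rcases Finset.mem_insert.mp hi with rfl | hi
    · have h1 : y i = (y i + ∑ j ∈ s, y j) - ∑ j ∈ s, y j := by ring
      rw [h1]
      refine hsum.sub ?_
      exact mem_Kalg.mp (Kalg.sum_mem fun j hj => mem_Kalg.mpr (key j hj))
    · exact key i hi

end Pool.Agent.Lib.MP_c82530_nt
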