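import Mathlib
import Pool.Agent.Lib.MP_c82530_nt.Direct

set_option autoImplicit false

namespace Pool.Agent.Lib.MP_c82530_nt

open Set

/-- a hyperplane of the space of algebraic numbers containing `W` and not containing `b` -/
lemma exists_hyperplane' {W : Submodule ℚ ℂ} {b : ℂ} (hW : ∀ w ∈ W, IsAlgebraic ℚ w)
    (hb : IsAlgebraic ℚ b) (hbW : b ∉ W) :
    ∃ H : Submodule ℚ ℂ, (∀ h ∈ H, IsAlgebraic ℚ h) ∧ W ≤ H ∧ b ∉ H ∧
      ∀ v, IsAlgebraic ℚ v → v ∈ H ⊔ Submodule.span ℚ {b} := by
  have hb0 : b ≠ 0 := by rintro rfl; exact hbW W.zero_mem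
  have hdis : Disjoint W (Submodule.span ℚ {b}) := by
    rw [Submodule.disjoint_def]
    intro x hx hx'
    obtain ⟨q, rfl⟩ := Submodule.mem_span_singleton.mp hx'
    by_cases hq : q = 0
    · rw [hq, zero_smul]
    · exfalso
      apply hbW
      have := W.smul_mem q⁻¹ hx
      rwa [smul_smul, inv_mul_cancel₀ hq, one_smul] at this
  obtain ⟨A, hA, hcompl⟩ := hdis.exists_isCompl
  refine ⟨A ⊓ Kalg, fun h hh => mem_Kalg.mp hh.2, le_inf hA (fun w hw => mem_Kalg.mpr (hW w hw)),
    ?_, ?_⟩
  · intro h
    exact hb0 (Submodule.disjoint_def.mp hcompl.disjoint b h.1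
      (Submodule.mem_span_singleton_self b))
  · intro v hv
    have h1 : v ∈ A ⊔ Submodule.span ℚ {b} := by
      rw [hcompl.sup_eq_top]; trivial
    obtain ⟨x, hx, w, hw, rfl⟩ := Submodule.mem_sup.mp h1
    refine Submodule.mem_sup.mpr ⟨x, ⟨hx, ?_⟩, w, hw, rfl⟩
    have hw' : w ∈ Kalg := by
      obtain ⟨q, rfl⟩ := Submodule.mem_span_singleton.mp hw
      exact Kalg.smul_mem q (mem_Kalg.mpr hb)
    have h2 := Kalg.sub_mem (mem_Kalg.mpr hv) hw'
    rwa [add_sub_cancel_right] at h2

lemma isAlgebraic_adjoin_F' (F : IntermediateField ℚ ℂ) {τ y : ℂ} {s : Set ℂ}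
    (hs : s ⊆ AM.closure ((F : Set ℂ) ∪ {τ})) (h : y ∈ AM.closure s) :
    IsAlgebraic (Algebra.adjoin F {τ}) y := by
  have h0 : y ∈ AM.closure ((F : Set ℂ) ∪ {τ}) := by
    have := AM.closure_subset_closure hs h
    rwa [Matroid.closure_closure] at this
  have h1 : IsAlgebraic (IntermediateField.adjoin F {τ}) y := by
    refine isAlgebraic_of_mem_cl ((IntermediateField.adjoin F {τ}).restrictScalars ℚ) ?_ h0
    rintro z (hz | rfl)
    · exact (IntermediateField.adjoin F {τ}).algebraMap_mem ⟨z, hz⟩
    · exact IntermediateField.subset_adjoin F _ rfl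
  rwa [IntermediateField.isAlgebraic_adjoin_iff] at h1

/-- the exponentials of the elements of a `ℚ`-space -/
def expSet (W : Submodule ℚ ℂ) : Set ℂ := Complex.exp '' (W : Set ℂ)

lemma expSet_bot : AM.closure (expSet ⊥) = AM.closure ∅ := by
  apply Subset.antisymm
  · have : expSet ⊥ ⊆ AM.closure ∅ := by
      rintro _ ⟨x, hx, rfl⟩
      have hx' : x = 0 := hx
      rw [hx', Complex.exp_zero, mem_cl_empty]
      exact isAlgebraic_one
    have h2 := AM.closure_subset_closure this
    rwa [Matroid.closure_closure] at h2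
  · exact AM.closure_subset_closure (empty_subset _)

/-- **Directness for subspaces.** -/
theorem direct_sub {ι : Type*} : ∀ (n : ℕ) (s : Finset ι), s.card = n → ∀ (N : ℕ)
    (W : ι → Submodule ℚ ℂ), (∑ i ∈ s, Module.finrank ℚ (W i) = N) →
    (∀ i ∈ s, FiniteDimensional ℚ (W i)) →
    (∀ i ∈ s, ∀ w ∈ W i, IsAlgebraic ℚ w) →
    (∀ i ∈ s, ∀ j ∈ s, i ≠ j → Disjoint (W i) (W j)) →
    ∀ y : ι → ℂ, (∀ i ∈ s, y i ∈ AM.closure (expSet (W i))) →
      IsAlgebraic ℚ (∑ i ∈ s, y i) → ∀ i ∈ s, IsAlgebraic ℚ (y i) := by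
  classical
  intro n
  induction n with
  | zero =>
    intro s hs N W _ _ _ _ y _ _ i hi
    rw [Finset.card_eq_zero] at hs
    rw [hs] at hi
    exact absurd hi (Finset.notMem_empty i)
  | succ n ihn =>
    intro s hs N
    induction N using Nat.strong_induction_on with
    | _ N ihN =>
    intro W hN hfd hW hdis y hy hsum
    by_cases hall : ∀ i ∈ s, W i = ⊥
    · intro i hi
      have := hy i hi
      rw [hall i hi, expSet_bot, mem_cl_empty] at this
      exact this
    push Not at hall
    obtain ⟨j, hj, hWj⟩ := hall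
    by_cases hsj : ∃ m ∈ s, m ≠ j
    swap
    · push Not at hsj
      have hs1 : s = {j} := by
        ext x; simp only [Finset.mem_singleton]
        exact ⟨fun hx => hsj x hx, fun hx => hx ▸ hj⟩
      rw [hs1, Finset.sum_singleton] at hsum
      intro i hi
      rw [hsj i hi]; exact hsum
    obtain ⟨m, hm, hmj⟩ := hsj
    obtain ⟨b, hbW, hb0⟩ := (Submodule.ne_bot_iff _).mp hWj
    have hbalg := hW j hj b hbW
    have hbm : b ∉ W m := by
      intro hb
      exact hb0 (Submodule.disjoint_def.mp (hdis m hm j hj hmj) b hb hbW)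
    obtain ⟨H, hH, hmH, hbH, hsup⟩ := exists_hyperplane' (hW m hm) hbalg hbm
    obtain ⟨F, σ, hF, hexp, hτF, hσ⟩ := exists_scaling b H hH hbalg hbH
    have hQF : ∀ z, IsAlgebraic ℚ z → z ∈ F := fun z hz =>
      hF z (hz.extendScalars (algebraMap ℚ F).injective)
    have hσF : ∀ z ∈ F, σ z = z := fun z hz => σ.commutes (⟨z, hz⟩ : F)
    have hymF : y m ∈ F := by
      apply hF
      apply isAlgebraic_of_mem_cl F _ (hy m hm)
      rintro _ ⟨h, hh, rfl⟩
      exact hexp _ (hmH hh)
    have hz : ∀ i ∈ s, σ (y i) - y i ∈ AM.closure (expSet (W i)) := by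
      intro i hi
      have hyi := hy i hi
      have h1 := map_mem_cl (σ.restrictScalars ℚ) hyi
      have h2 : σ (y i) ∈ AM.closure (expSet (W i)) := by
        have h3 : (σ.restrictScalars ℚ) '' (expSet (W i)) ⊆ AM.closure (expSet (W i)) := by
          rintro _ ⟨_, ⟨w, hw, rfl⟩, rfl⟩
          obtain ⟨c, hc, hσc⟩ := sigma_exp σ hσ hexp (hsup _ (hW i hi w hw))
          change σ (Complex.exp w) ∈ _
          rw [hσc]
          exact mul_mem_cl (alg_mem_cl _ hc) (AM.mem_closure_of_mem' ⟨w, hw, rfl⟩ (mem_univ _))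
        have h4 := AM.closure_subset_closure h3 h1
        rwa [Matroid.closure_closure] at h4
      rw [mem_cl] at h2 hyi ⊢
      exact h2.sub hyi
    have hsumz : ∑ i ∈ s.erase m, (σ (y i) - y i) = 0 := by
      rw [Finset.sum_sub_distrib, ← map_sum]
      have h1 : ∑ i ∈ s.erase m, y i ∈ F := by
        have h2 : ∑ i ∈ s.erase m, y i = (∑ i ∈ s, y i) - y m := by
          rw [← Finset.add_sum_erase s _ hm]; ring
        rw [h2]
        exact sub_mem (hQF _ hsum) hymF
      rw [hσF _ h1, sub_self]
    have hzalg := ihn (s.erase m) (by rw [Finset.card_erase_of_mem hm, hs]; rfl) _ W rfl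
      (fun i hi => hfd i (Finset.mem_of_mem_erase hi))
      (fun i hi => hW i (Finset.mem_of_mem_erase hi))
      (fun i hi i' hi' => hdis i (Finset.mem_of_mem_erase hi) i' (Finset.mem_of_mem_erase hi'))
      (fun i => σ (y i) - y i) (fun i hi => hz i (Finset.mem_of_mem_erase hi))
      (by rw [hsumz]; exact isAlgebraic_zero) j (Finset.mem_erase.mpr ⟨hmj.symm, hj⟩)
    -- `y j ∈ F`
    have hyjF : y j ∈ F := by
      apply hF
      have h1 : IsAlgebraic (Algebra.adjoin F {Complex.exp b}) (y j) := by
        apply isAlgebraic_adjoin_F' F _ (hy j hj)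
        rintro _ ⟨w, hw, rfl⟩
        obtain ⟨h, hh, x, hx, hx2⟩ := Submodule.mem_sup.mp (hsup w (hW j hj w hw))
        obtain ⟨q, rfl⟩ := Submodule.mem_span_singleton.mp hx
        rw [← hx2, Complex.exp_add]
        apply mul_mem_cl
        · exact AM.mem_closure_of_mem' (Or.inl (hexp h hh)) (mem_univ _)
        · exact AM.closure_subset_closure subset_union_right (exp_smul_mem_cl q b)
      exact eigen σ (τ := Complex.exp b) (c := 2) (κ := (⟨_, hQF _ hzalg⟩ : F)) (two_pow_inj F)
        (Complex.exp_ne_zero _) (by rw [hσ]; rfl) (by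
          change σ (y j) = y j + (σ (y j) - y j)
          ring) h1
    -- `y j` is in the closure of the smaller space `W j ⊓ H`
    have hyjH : y j ∈ AM.closure (expSet (W j ⊓ H)) := by
      by_contra hcon
      have h1 : y j ∈ AM.closure (insert (Complex.exp b) (expSet (W j ⊓ H))) := by
        have h3 : expSet (W j) ⊆ AM.closure (insert (Complex.exp b) (expSet (W j ⊓ H))) := by
          rintro _ ⟨w, hw, rfl⟩
          obtain ⟨h, hh, x, hx, hx2⟩ := Submodule.mem_sup.mp (hsup w (hW j hj w hw))
          obtain ⟨q, rfl⟩ := Submodule.mem_span_singleton.mp hx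
          have hhW : h ∈ W j := by
            have h4 := (W j).sub_mem hw ((W j).smul_mem q hbW)
            rw [← hx2, add_sub_cancel_right] at h4
            exact h4
          rw [← hx2, Complex.exp_add]
          apply mul_mem_cl
          · exact AM.mem_closure_of_mem' (Or.inr ⟨h, ⟨hhW, hh⟩, rfl⟩) (mem_univ _)
          · exact AM.closure_subset_closure (singleton_subset_iff.mpr (mem_insert _ _))
              (exp_smul_mem_cl q b)
        have h4 := AM.closure_subset_closure h3 (hy j hj)
        rwa [Matroid.closure_closure] at h4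
      have h2 := (Matroid.closure_exchange ⟨h1, hcon⟩).1
      apply hτF
      apply hF
      apply isAlgebraic_of_mem_cl F _ h2
      rintro z (rfl | ⟨w, hw, rfl⟩)
      · exact hyjF
      · exact hexp _ hw.2
    -- apply the induction hypothesis
    set W' : ι → Submodule ℚ ℂ := fun i => if i = j then W j ⊓ H else W i with hW'
    have hW'le : ∀ i, W' i ≤ W i := by
      intro i
      rw [hW']
      by_cases h : i = j
      · simp only [h, if_true]; exact inf_le_left
      · simp only [h, if_false]; exact le_rfl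
    have hlt : ∑ i ∈ s, Module.finrank ℚ (W' i) < N := by
      rw [← hN]
      apply Finset.sum_lt_sum
      · intro i hi
        have := hfd i hi
        exact Submodule.finrank_mono (hW'le i)
      · refine ⟨j, hj, ?_⟩
        have := hfd j hj
        apply Submodule.finrank_lt_finrank_of_lt
        refine lt_of_le_of_ne (hW'le j) ?_
        intro h
        apply hbH
        have h1 : b ∈ W' j := by rw [h]; exact hbW
        have h2 : W' j = W j ⊓ H := by rw [hW']; simp
        rw [h2] at h1
        exact h1.2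
    refine ihN _ hlt W' rfl ?_ ?_ ?_ y ?_ hsum
    · intro i hi
      have := hfd i hi
      exact Submodule.finiteDimensional_of_le (hW'le i)
    · intro i hi w hw
      exact hW i hi w (hW'le i hw)
    · intro i hi i' hi' hne
      exact (hdis i hi i' hi' hne).mono (hW'le i) (hW'le i')
    · intro i hi
      by_cases h : i = j
      · have h2 : W' i = W j ⊓ H := by rw [hW']; simp [h]
        rw [h2, h]
        exact hyjH
      · have h2 : W' i = W i := by rw [hW']; simp [h]
        rw [h2]
        exact hy i hi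

end Pool.Agent.Lib.MP_c82530_nt
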