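import Mathlib
import Pool.Agent.Lib.MP_c82530_nt.DirectSub

set_option autoImplicit false

namespace Pool.Agent.Lib.MP_c82530_nt

open Set

lemma indep_snoc_k {n : ℕ} {α : Fin n → ℂ} (hα : ∀ i, IsAlgebraic ℚ (α i))
    (hlin : LinearIndependent ℚ α) {w : ℂ}
    (hw : w ∉ AM.closure (range fun i => Complex.exp (α i))) :
    AlgebraicIndependent (integralClosure ℚ ℂ)
      (Sum.elim (fun i : Fin n => Complex.exp (α i)) (fun _ : Fin 1 => w)) := by
  apply AlgebraicIndependent.integralClosure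
  have h3 := indep_snoc (lw α hα hlin) hw
  refine (algebraicIndependent_equiv' (Equiv.sumCongr (Equiv.refl (Fin n))
    (Equiv.ofUnique (Fin 1) Unit)) ?_).mpr h3
  ext (i | i) <;> rfl

lemma mem_of_dep {n : ℕ} {α : Fin n → ℂ} (hα : ∀ i, IsAlgebraic ℚ (α i))
    (hlin : LinearIndependent ℚ α) {w : ℂ}
    (h : ¬ AlgebraicIndependent (integralClosure ℚ ℂ)
      (Sum.elim (fun i : Fin n => Complex.exp (α i)) (fun _ : Fin 1 => w))) :
    w ∈ AM.closure (expSet (Submodule.span ℚ (range α))) := by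
  by_contra hcon
  apply h
  apply indep_snoc_k hα hlin
  intro h1
  apply hcon
  apply AM.closure_subset_closure ?_ h1
  rintro _ ⟨i, rfl⟩
  exact ⟨α i, Submodule.subset_span ⟨i, rfl⟩, rfl⟩

lemma span_alg {n : ℕ} {α : Fin n → ℂ} (hα : ∀ i, IsAlgebraic ℚ (α i)) :
    ∀ w ∈ Submodule.span ℚ (range α), IsAlgebraic ℚ w := by
  intro w hw
  rw [← mem_Kalg]
  refine (Submodule.span_le (p := Kalg)).mpr ?_ hw
  rintro _ ⟨i, rfl⟩
  exact mem_Kalg.mpr (hα i)

/-- if a sum of elements of the closures is algebraic, all are algebraic. -/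
lemma direct_fin {m : ℕ} (W : Fin m → Submodule ℚ ℂ) (hfd : ∀ i, FiniteDimensional ℚ (W i))
    (hW : ∀ i, ∀ w ∈ W i, IsAlgebraic ℚ w) (hdis : ∀ i j, i ≠ j → Disjoint (W i) (W j))
    (y : Fin m → ℂ) (hy : ∀ i, y i ∈ AM.closure (expSet (W i)))
    (hsum : IsAlgebraic ℚ (∑ i, y i)) (i : Fin m) : IsAlgebraic ℚ (y i) :=
  direct_sub m Finset.univ (Finset.card_fin m) _ W rfl (fun i _ => hfd i) (fun i _ => hW i)
    (fun i _ j _ h => hdis i j h) y (fun i _ => hy i) hsum i (Finset.mem_univ i)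

/-- polynomial relations -/
theorem poly_relation {m : ℕ} (W : Fin m → Submodule ℚ ℂ) (hfd : ∀ i, FiniteDimensional ℚ (W i))
    (hW : ∀ i, ∀ w ∈ W i, IsAlgebraic ℚ w) (hdis : ∀ i j, i ≠ j → Disjoint (W i) (W j))
    (z : Fin m → ℂ) (hz : ∀ i, z i ∈ AM.closure (expSet (W i)))
    (htr : ∀ i, Transcendental ℚ (z i)) (P : Fin m → Polynomial (algebraicClosure ℚ ℂ))
    (hsum : ∑ i, Polynomial.aeval (z i) (P i) = 0) (i : Fin m) : (P i).natDegree = 0 := by
  have hcl : ∀ (s : Set ℂ) (x : ℂ) (p : Polynomial (algebraicClosure ℚ ℂ)), x ∈ AM.closure s →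
      Polynomial.aeval x p ∈ AM.closure s := by
    intro s x p hx
    rw [← mem_clF] at hx ⊢
    rw [Polynomial.aeval_eq_sum_range]
    apply sum_mem
    intro j _
    rw [Algebra.smul_def]
    refine mul_mem ?_ (pow_mem hx j)
    rw [mem_clF]
    exact alg_mem_cl _ (mem_algebraicClosure_iff.mp (p.coeff j).2)
  have h1 := direct_fin W hfd hW hdis (fun i => Polynomial.aeval (z i) (P i))
    (fun i => hcl _ _ _ (hz i)) (by rw [hsum]; exact isAlgebraic_zero) i
  -- `z i` is transcendental over the field of algebraic numbers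
  have htr' : Transcendental (algebraicClosure ℚ ℂ) (z i) := by
    intro h
    exact htr i (mem_cl_empty.mp (mem_cl_of_isAlgebraic (algebraicClosure ℚ ℂ)
      (fun z hz => mem_cl_empty.mpr (mem_algebraicClosure_iff.mp hz)) h))
  by_contra hdeg
  set c : algebraicClosure ℚ ℂ := ⟨_, mem_algebraicClosure_iff.mpr h1⟩ with hc
  apply htr'
  refine ⟨P i - Polynomial.C c, ?_, ?_⟩
  · intro h0
    rw [sub_eq_zero.mp h0, Polynomial.natDegree_C] at hdeg
    exact hdeg rfl
  · rw [map_sub, Polynomial.aeval_C]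
    exact sub_self _

/-- uniform version for the `ℚ̄`-span of `d` numbers. -/
theorem uniform {d : ℕ} (z : Fin d → ℂ) (W : Fin (d + 1) → Submodule ℚ ℂ)
    (hfd : ∀ i, FiniteDimensional ℚ (W i))
    (hW : ∀ i, ∀ w ∈ W i, IsAlgebraic ℚ w) (hdis : ∀ i j, i ≠ j → Disjoint (W i) (W j)) :
    ∃ i, ∀ (b0 : ℂ) (b : Fin d → ℂ), IsAlgebraic ℚ b0 → (∀ j, IsAlgebraic ℚ (b j)) →
      (b0 + ∑ j, b j * z j) ∈ AM.closure (expSet (W i)) →
      IsAlgebraic ℚ (b0 + ∑ j, b j * z j) := by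
  classical
  by_contra hcon
  push Not at hcon
  choose b0 b hb0 hb hmem htr using hcon
  let k := algebraicClosure ℚ ℂ
  set B : Fin (d + 1) → (Fin d → k) := fun i j => ⟨b i j, mem_algebraicClosure_iff.mpr (hb i j)⟩
    with hB
  have hdep : ¬ LinearIndependent k B := by
    intro h
    have := h.fintype_card_le_finrank
    simp at this
  rw [Fintype.not_linearIndependent_iff] at hdep
  obtain ⟨g, hg, i0, hi0⟩ := hdep
  have hg' : ∀ j, ∑ i, (g i : ℂ) * b i j = 0 := by
    intro j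
    have h1 := congrFun hg j
    rw [Finset.sum_apply] at h1
    have h2 := congrArg (fun x : k => (x : ℂ)) h1
    simp only [Pi.smul_apply, smul_eq_mul, Pi.zero_apply] at h2
    rw [AddSubmonoidClass.coe_finsetSum] at h2
    exact h2
  have hsum : ∑ i, (g i : ℂ) * (b0 i + ∑ j, b i j * z j) = ∑ i, (g i : ℂ) * b0 i := by
    simp only [mul_add, Finset.sum_add_distrib, Finset.mul_sum]
    rw [show ∑ i, ∑ j, (g i : ℂ) * (b i j * z j) = ∑ j, ∑ i, (g i : ℂ) * (b i j * z j) from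
      Finset.sum_comm]
    have : ∀ j, ∑ i, (g i : ℂ) * (b i j * z j) = 0 := by
      intro j
      have h1 : ∑ i, (g i : ℂ) * (b i j * z j) = (∑ i, (g i : ℂ) * b i j) * z j := by
        rw [Finset.sum_mul]
        exact Finset.sum_congr rfl (fun i _ => by ring)
      rw [h1, hg' j, zero_mul]
    rw [Finset.sum_eq_zero (fun j _ => this j), add_zero]
  have hgalg : ∀ i, IsAlgebraic ℚ (g i : ℂ) := fun i => mem_algebraicClosure_iff.mp (g i).2
  have h1 := direct_fin W hfd hW hdis (fun i => (g i : ℂ) * (b0 i + ∑ j, b i j * z j))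
    (fun i => mul_mem_cl (alg_mem_cl _ (hgalg i)) (hmem i)) (by
      rw [hsum]
      exact mem_Kalg.mp (Kalg.sum_mem fun i _ => mem_Kalg.mpr ((hgalg i).mul (hb0 i)))) i0
  apply htr i0
  have hgi : (g i0 : ℂ) ≠ 0 := by
    intro h; exact hi0 (Subtype.ext h)
  have h2 : (b0 i0 + ∑ j, b i0 j * z j) = (g i0 : ℂ)⁻¹ * ((g i0 : ℂ) *
      (b0 i0 + ∑ j, b i0 j * z j)) := by
    field_simp
  rw [h2]
  exact (hgalg i0).inv.mul h1

/-- the `ℚ`-space of logarithms of algebraic numbers. -/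
noncomputable def Llog : Submodule ℚ ℂ where
  carrier := {l | IsAlgebraic ℚ (Complex.exp l)}
  zero_mem' := by
    change IsAlgebraic ℚ (Complex.exp 0)
    rw [Complex.exp_zero]; exact isAlgebraic_one
  add_mem' := by
    intro a b ha hb
    change IsAlgebraic ℚ (Complex.exp (a + b))
    rw [Complex.exp_add]; exact IsAlgebraic.mul ha hb
  smul_mem' := by
    intro q a ha
    have h1 := exp_smul_mem (clF ∅) (fun z hz => clF_closed hz) q (h := a) (by
      rw [mem_clF, mem_cl_empty]; exact ha)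
    rwa [mem_clF, mem_cl_empty] at h1

lemma mem_Llog {l : ℂ} : l ∈ Llog ↔ IsAlgebraic ℚ (Complex.exp l) := Iff.rfl

lemma Llog_tr {l : ℂ} (h : l ∈ Llog) (h0 : l ≠ 0) : Transcendental ℚ l :=
  log_transcendental (mem_Llog.mp h) h0

end Pool.Agent.Lib.MP_c82530_nt
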