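import Mathlib
import Pool.Agent.Lib.MP_c82530_nt.Apply

set_option autoImplicit false

namespace Pool.Agent.Lib.MP_c82530_nt

open Set

/-- the closure of the exponentials of a family is that of the exponentials of its span. -/
lemma cl_range_eq {ι : Type*} (b : ι → ℂ) :
    AM.closure (range fun i => Complex.exp (b i)) =
      AM.closure (expSet (Submodule.span ℚ (range b))) := by
  apply Subset.antisymm
  · apply AM.closure_subset_closure
    rintro _ ⟨i, rfl⟩
    exact ⟨b i, Submodule.subset_span ⟨i, rfl⟩, rfl⟩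
  · have h : expSet (Submodule.span ℚ (range b)) ⊆
        AM.closure (range fun i => Complex.exp (b i)) := by
      rintro _ ⟨x, hx, rfl⟩
      rw [← mem_clF]
      have hx' : x ∈ Submodule.span ℚ (range b) := hx
      induction hx' using Submodule.span_induction with
      | mem y hy =>
        obtain ⟨i, rfl⟩ := hy
        rw [mem_clF]
        exact AM.mem_closure_of_mem' ⟨i, rfl⟩ (mem_univ _)
      | zero => rw [Complex.exp_zero]; exact one_mem _
      | add y z hy' hz' hy hz =>
        rw [Complex.exp_add]; exact mul_mem (hy hy') (hz hz')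
      | smul q y hy' hy => exact exp_smul_mem _ (fun z hz => clF_closed hz) q (hy hy')
    have := AM.closure_subset_closure h
    rwa [Matroid.closure_closure] at this

/-- a basis of a submodule of `ℂ` as a family in `ℂ` -/
lemma exists_basis_family (W : Submodule ℚ ℂ) :
    ∃ (ι : Type) (b : ι → ℂ), LinearIndependent ℚ b ∧ Submodule.span ℚ (range b) = W := by
  let b := Module.Basis.ofVectorSpace ℚ W
  refine ⟨Module.Basis.ofVectorSpaceIndex ℚ W, fun i => (b i : ℂ), ?_, ?_⟩
  · exact b.linearIndependent.map' W.subtype (Submodule.ker_subtype W)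
  · have h1 : range (fun i => (b i : ℂ)) = W.subtype '' (range b) := by
      rw [← range_comp]; rfl
    rw [h1, Submodule.span_image, b.span_eq, Submodule.map_top, Submodule.range_subtype]

/-- a basis of a finite dimensional submodule of `ℂ` -/
lemma exists_fin_basis (W : Submodule ℚ ℂ) [FiniteDimensional ℚ W] :
    ∃ (b : Fin (Module.finrank ℚ W) → ℂ), LinearIndependent ℚ b ∧
      Submodule.span ℚ (range b) = W := by
  let b := Module.finBasis ℚ W
  refine ⟨fun i => (b i : ℂ), ?_, ?_⟩
  · exact b.linearIndependent.map' W.subtype (Submodule.ker_subtype W)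
  · have h1 : range (fun i => (b i : ℂ)) = W.subtype '' (range b) := by
      rw [← range_comp]; rfl
    rw [h1, Submodule.span_image, b.span_eq, Submodule.map_top, Submodule.range_subtype]

lemma range_elim' {ι κ : Type*} (a : ι → ℂ) (b : κ → ℂ) :
    range (Sum.elim a b) = range a ∪ range b := by
  exact Sum.elim_range a b

/-- **closures of exponentials of subspaces intersect as the subspaces do.** -/
theorem cl_inf {W1 W2 : Submodule ℚ ℂ} (h1 : ∀ w ∈ W1, IsAlgebraic ℚ w)
    (h2 : ∀ w ∈ W2, IsAlgebraic ℚ w) {z : ℂ}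
    (hz1 : z ∈ AM.closure (expSet W1)) (hz2 : z ∈ AM.closure (expSet W2)) :
    z ∈ AM.closure (expSet (W1 ⊓ W2)) := by
  obtain ⟨C, hC⟩ := Submodule.exists_isCompl (W1 ⊓ W2)
  obtain ⟨ι, b, hb, hbs⟩ := exists_basis_family (W1 ⊓ W2)
  obtain ⟨κ1, b1, hb1, hbs1⟩ := exists_basis_family (C ⊓ W1)
  obtain ⟨κ2, b2, hb2, hbs2⟩ := exists_basis_family (C ⊓ W2)
  have hd12 : Disjoint (C ⊓ W1) (C ⊓ W2) := by
    rw [Submodule.disjoint_def]
    intro x hx hx'
    exact Submodule.disjoint_def.mp hC.disjoint x ⟨hx.2, hx'.2⟩ hx.1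
  have hli12 : LinearIndependent ℚ (Sum.elim b1 b2) :=
    LinearIndependent.sum_type hb1 hb2 (by rw [hbs1, hbs2]; exact hd12)
  have hli : LinearIndependent ℚ (Sum.elim b (Sum.elim b1 b2)) := by
    apply LinearIndependent.sum_type hb hli12
    rw [hbs, range_elim', Submodule.span_union, hbs1, hbs2]
    refine hC.disjoint.mono_right ?_
    exact sup_le inf_le_left inf_le_left
  have hW1 : Submodule.span ℚ (range (Sum.elim b b1)) = W1 := by
    rw [range_elim', Submodule.span_union, hbs, hbs1]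
    have h4 : (W1 ⊓ W2) ⊔ C ⊓ W1 = ((W1 ⊓ W2) ⊔ C) ⊓ W1 := (sup_inf_assoc_of_le C inf_le_left).symm
    rw [h4, hC.sup_eq_top, top_inf_eq]
  have hW2 : Submodule.span ℚ (range (Sum.elim b b2)) = W2 := by
    rw [range_elim', Submodule.span_union, hbs, hbs2]
    have h4 : (W1 ⊓ W2) ⊔ C ⊓ W2 = ((W1 ⊓ W2) ⊔ C) ⊓ W2 :=
      (sup_inf_assoc_of_le C inf_le_right).symm
    rw [h4, hC.sup_eq_top, top_inf_eq]
  have hind : AlgebraicIndependent ℚ (fun i => Complex.exp (Sum.elim b (Sum.elim b1 b2) i)) := by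
    apply lw _ _ hli
    have e0 : ∀ i, b i ∈ W1 ⊓ W2 := fun i => by
      rw [← hbs]; exact Submodule.subset_span (mem_range_self i)
    have e1 : ∀ i, b1 i ∈ C ⊓ W1 := fun i => by
      rw [← hbs1]; exact Submodule.subset_span (mem_range_self i)
    have e2 : ∀ i, b2 i ∈ C ⊓ W2 := fun i => by
      rw [← hbs2]; exact Submodule.subset_span (mem_range_self i)
    rintro (i | i | i)
    · exact h1 _ (e0 i).1
    · exact h1 _ (e1 i).2
    · exact h2 _ (e2 i).2
  have hinj := hind.injective
  have hM : AM.Indep ((range fun i => Complex.exp (Sum.elim b b1 i)) ∪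
      (range fun i => Complex.exp (Sum.elim b b2 i))) := by
    rw [AM, AlgebraicIndependent.matroid_indep_iff]
    have h3 := hind.to_subtype_range
    have h4 : range (fun i => Complex.exp (Sum.elim b (Sum.elim b1 b2) i)) =
        (range fun i => Complex.exp (Sum.elim b b1 i)) ∪
          (range fun i => Complex.exp (Sum.elim b b2 i)) := by
      ext z
      constructor
      · rintro ⟨i | i | i, rfl⟩
        · exact Or.inl ⟨Sum.inl i, rfl⟩
        · exact Or.inl ⟨Sum.inr i, rfl⟩
        · exact Or.inr ⟨Sum.inr i, rfl⟩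
      · rintro (⟨i | i, rfl⟩ | ⟨i | i, rfl⟩)
        · exact ⟨Sum.inl i, rfl⟩
        · exact ⟨Sum.inr (Sum.inl i), rfl⟩
        · exact ⟨Sum.inl i, rfl⟩
        · exact ⟨Sum.inr (Sum.inr i), rfl⟩
    rw [h4] at h3
    exact h3
  have h5 := hM.closure_inter_eq_inter_closure
  have h6 : (range fun i => Complex.exp (Sum.elim b b1 i)) ∩
      (range fun i => Complex.exp (Sum.elim b b2 i)) = range fun i => Complex.exp (b i) := by
    ext z
    constructor
    · rintro ⟨⟨i | i, rfl⟩, ⟨j | j, hj⟩⟩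
      · exact ⟨i, rfl⟩
      · exact ⟨i, rfl⟩
      · exact ⟨j, hj⟩
      · have := @hinj (Sum.inr (Sum.inr j)) (Sum.inr (Sum.inl i)) hj
        exact absurd this (by simp)
    · rintro ⟨i, rfl⟩
      exact ⟨⟨Sum.inl i, rfl⟩, ⟨Sum.inl i, rfl⟩⟩
  rw [h6, cl_range_eq, cl_range_eq, cl_range_eq, hbs, hW1, hW2] at h5
  rw [h5]
  exact ⟨hz1, hz2⟩

/-- an element of the closure of `exp` of a space of algebraic numbers is in that of a finite
dimensional subspace -/
lemma exists_fd {W : Submodule ℚ ℂ} {z : ℂ} (hz : z ∈ AM.closure (expSet W)) :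
    ∃ V ≤ W, FiniteDimensional ℚ V ∧ z ∈ AM.closure (expSet V) := by
  classical
  obtain ⟨I, hI, hfin, -, hz2⟩ := Matroid.exists_mem_finite_closure_of_mem_closure hz
  obtain ⟨T, hTW, hTfin, rfl⟩ : ∃ T : Set ℂ, T ⊆ (W : Set ℂ) ∧ T.Finite ∧
      Complex.exp '' T = I := by
    obtain ⟨T, hT1, hT2⟩ := (subset_image_iff.mp hI)
    obtain ⟨T', hT', hb⟩ := exists_subset_bijOn T Complex.exp
    refine ⟨T', hT'.trans hT1, ?_, ?_⟩
    · apply Finite.of_finite_image _ hb.injOn
      rw [hb.image_eq, hT2]; exact hfin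
    · rw [hb.image_eq, hT2]
  refine ⟨Submodule.span ℚ T, Submodule.span_le.mpr hTW, FiniteDimensional.span_of_finite ℚ hTfin,
    ?_⟩
  exact AM.closure_subset_closure (image_mono Submodule.subset_span) hz2

/-- the support of a number algebraic over the field of the exponentials of algebraic numbers -/
theorem exists_support {z : ℂ} (hz : z ∈ AM.closure (expSet Kalg)) :
    ∃ V : Submodule ℚ ℂ, FiniteDimensional ℚ V ∧ (∀ v ∈ V, IsAlgebraic ℚ v) ∧
      ∀ W : Submodule ℚ ℂ, (∀ w ∈ W, IsAlgebraic ℚ w) →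
        (z ∈ AM.closure (expSet W) ↔ V ≤ W) := by
  classical
  obtain ⟨V0, hV0, hfd0, hz0⟩ := exists_fd hz
  have hex : ∃ n : ℕ, ∃ V : Submodule ℚ ℂ, FiniteDimensional ℚ V ∧ (∀ v ∈ V, IsAlgebraic ℚ v) ∧
      z ∈ AM.closure (expSet V) ∧ Module.finrank ℚ V = n :=
    ⟨_, V0, hfd0, fun v hv => mem_Kalg.mp (hV0 hv), hz0, rfl⟩
  obtain ⟨V, hfd, hV, hzV, hn⟩ := Nat.find_spec hex
  refine ⟨V, hfd, hV, fun W hW => ⟨fun hzW => ?_, fun hVW => ?_⟩⟩
  · have h1 := cl_inf hV hW hzV hzW
    have h2 : Nat.find hex ≤ Module.finrank ℚ (V ⊓ W : Submodule ℚ ℂ) :=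
      Nat.find_min' hex ⟨V ⊓ W, Submodule.finiteDimensional_of_le inf_le_left,
        fun v hv => hV v hv.1, h1, rfl⟩
    rw [← hn] at h2
    have h3 : (V ⊓ W : Submodule ℚ ℂ) = V :=
      Submodule.eq_of_le_of_finrank_le inf_le_left h2
    rw [← h3]
    exact inf_le_right
  · exact AM.closure_subset_closure (image_mono hVW) hzV

/-- the exact criterion for one number -/
lemma indep_iff {n : ℕ} {α : Fin n → ℂ} (hα : ∀ i, IsAlgebraic ℚ (α i))
    (hlin : LinearIndependent ℚ α) {w : ℂ} :
    AlgebraicIndependent (integralClosure ℚ ℂ)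
      (Sum.elim (fun i : Fin n => Complex.exp (α i)) (fun _ : Fin 1 => w)) ↔
      w ∉ AM.closure (expSet (Submodule.span ℚ (range α))) := by
  constructor
  · intro h h1
    rw [← cl_range_eq] at h1
    have h2 : AlgebraicIndependent ℚ
        (Sum.elim (fun i : Fin n => Complex.exp (α i)) (fun _ : Fin 1 => w)) :=
      h.restrictScalars (algebraMap ℚ (integralClosure ℚ ℂ)).injective
    have h3 : AlgebraicIndependent ℚ
        (Sum.elim (fun _ : Fin 1 => w) (fun i : Fin n => Complex.exp (α i))) := by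
      refine (algebraicIndependent_equiv' (Equiv.sumComm (Fin 1) (Fin n)) ?_).mpr h2
      ext (i | i) <;> rfl
    rw [AlgebraicIndependent.sumElim_iff] at h3
    have h4 := h3.2
    rw [algebraicIndependent_unique_type_iff] at h4
    exact h4 (mem_cl.mp h1)
  · intro h
    by_contra hcon
    exact h (mem_of_dep hα hlin hcon)

end Pool.Agent.Lib.MP_c82530_nt
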