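import Mathlib
import Pool.Agent.Lib.MP_c82530_nt.Support

set_option autoImplicit false

namespace Pool.Agent.Lib.MP_c82530_nt

open Set

/-! ### conjugation -/

/-- conjugation as a `ℚ`-linear map -/
noncomputable def cjL : ℂ →ₗ[ℚ] ℂ := cj.toLinearMap

lemma cjL_apply (z : ℂ) : cjL z = (starRingEnd ℂ) z := rfl

lemma cjL_cjL (z : ℂ) : cjL (cjL z) = z := by
  rw [cjL_apply, cjL_apply, Complex.conj_conj]

lemma conj_mem_map {W : Submodule ℚ ℂ} {z : ℂ} (h : z ∈ AM.closure (expSet W)) :
    (starRingEnd ℂ) z ∈ AM.closure (expSet (W.map cjL)) := by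
  have h1 := map_mem_cl cj h
  refine AM.closure_subset_closure ?_ h1
  rintro _ ⟨_, ⟨w, hw, rfl⟩, rfl⟩
  exact ⟨cj w, ⟨w, hw, rfl⟩, (cj_exp w).symm⟩

lemma map_alg {W : Submodule ℚ ℂ} (h : ∀ w ∈ W, IsAlgebraic ℚ w) :
    ∀ w ∈ W.map cjL, IsAlgebraic ℚ w := by
  rintro _ ⟨w, hw, rfl⟩
  exact isAlgebraic_conj (h w hw)

/-- if `z` and its conjugate are dependent, only the conjugation stable part matters. -/
lemma mem_inf_conj {W : Submodule ℚ ℂ} (hW : ∀ w ∈ W, IsAlgebraic ℚ w) {z : ℂ}
    (hz : z ∈ AM.closure {(starRingEnd ℂ) z}) (h : z ∈ AM.closure (expSet W)) :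
    z ∈ AM.closure (expSet (W ⊓ W.map cjL)) := by
  apply cl_inf hW (map_alg hW) h
  have h1 := conj_mem_map h
  have h2 := AM.closure_subset_closure (singleton_subset_iff.mpr h1) hz
  rwa [Matroid.closure_closure] at h2

/-- the real and purely imaginary numbers in `W` -/
lemma inf_conj_le (W : Submodule ℚ ℂ) :
    W ⊓ W.map cjL ≤ (W ⊓ LinearMap.ker (cjL - LinearMap.id)) ⊔
      (W ⊓ LinearMap.ker (cjL + LinearMap.id)) := by
  rintro w ⟨hw, v, hv, hvw⟩
  have hcw : cjL w ∈ W := by
    rw [← hvw, cjL_cjL]; exact hv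
  have e : w = (2⁻¹ : ℚ) • (w + cjL w) + (2⁻¹ : ℚ) • (w - cjL w) := by
    rw [← smul_add, add_add_sub_cancel, ← two_smul ℚ w, smul_smul]
    norm_num
  rw [e]
  refine Submodule.add_mem_sup ?_ ?_
  · refine ⟨W.smul_mem _ (W.add_mem hw hcw), ?_⟩
    rw [SetLike.mem_coe, LinearMap.mem_ker, LinearMap.sub_apply, LinearMap.id_apply, map_smul,
      map_add, cjL_cjL, add_comm (cjL w), sub_self]
  · refine ⟨W.smul_mem _ (W.sub_mem hw hcw), ?_⟩
    rw [SetLike.mem_coe, LinearMap.mem_ker, LinearMap.add_apply, LinearMap.id_apply, map_smul,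
      map_sub, cjL_cjL, ← smul_add]
    simp

lemma disj_RI (W : Submodule ℚ ℂ) : Disjoint (W ⊓ LinearMap.ker (cjL - LinearMap.id))
    (W ⊓ LinearMap.ker (cjL + LinearMap.id)) := by
  rw [Submodule.disjoint_def]
  rintro x ⟨-, hx⟩ ⟨-, hx'⟩
  rw [SetLike.mem_coe, LinearMap.mem_ker, LinearMap.sub_apply, LinearMap.id_apply,
    sub_eq_zero] at hx
  rw [SetLike.mem_coe, LinearMap.mem_ker, LinearMap.add_apply, LinearMap.id_apply, hx] at hx'
  exact self_eq_neg.mp (eq_neg_of_add_eq_zero_left hx')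

lemma mem_cl_conj {z : ℂ} (hzt : Transcendental ℚ z)
    (hz : (starRingEnd ℂ) z = z ∨ (starRingEnd ℂ) z = -z ∨
      ¬ AlgebraicIndependent ℚ ![z, (starRingEnd ℂ) z]) :
    z ∈ AM.closure {(starRingEnd ℂ) z} := by
  rcases hz with h | h | hz
  · rw [h]
    exact AM.mem_closure_of_mem' rfl (mem_univ _)
  · have h1 : (starRingEnd ℂ) z ∈ AM.closure {(starRingEnd ℂ) z} :=
      AM.mem_closure_of_mem' rfl (mem_univ _)
    have h2 := neg_mem_cl h1
    rwa [show -(starRingEnd ℂ) z = z by rw [h, neg_neg]] at h2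
  by_contra hcon
  apply hz
  have htr : Transcendental ℚ ((starRingEnd ℂ) z) := by
    intro h1
    apply hzt
    have := isAlgebraic_conj h1
    rwa [Complex.conj_conj] at this
  have h1 : AlgebraicIndependent ℚ (fun _ : Unit => (starRingEnd ℂ) z) := by
    rw [algebraicIndependent_unique_type_iff]; exact htr
  have h2 := indep_snoc h1 (l := z) (by
    rwa [range_const])
  let e : Fin 2 ≃ Unit ⊕ Unit :=
    ⟨![Sum.inr (), Sum.inl ()], Sum.elim (fun _ => 1) (fun _ => 0),
      by intro i; fin_cases i <;> rfl, by rintro (i | i) <;> rfl⟩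
  refine (algebraicIndependent_equiv' e ?_).mpr h2
  ext i; fin_cases i <;> rfl

/-- **Reduction to real and purely imaginary exponents.** -/
theorem reduction {n : ℕ} {α : Fin n → ℂ} (hα : ∀ i, IsAlgebraic ℚ (α i))
    (hlin : LinearIndependent ℚ α) :
    ∃ (m : ℕ) (γ : Fin m → ℂ), LinearIndependent ℚ γ ∧
      (∀ j, γ j ∈ Submodule.span ℚ (range α) ∧
        ((starRingEnd ℂ) (γ j) = γ j ∨ (starRingEnd ℂ) (γ j) = -γ j)) ∧
      (∀ w ∈ Submodule.span ℚ (range α), ((starRingEnd ℂ) w = w ∨ (starRingEnd ℂ) w = -w) →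
        w ∈ Submodule.span ℚ (range γ)) ∧
      ∀ z : ℂ, ¬ AlgebraicIndependent ℚ ![z, (starRingEnd ℂ) z] →
        (AlgebraicIndependent (integralClosure ℚ ℂ)
          (Sum.elim (fun i : Fin n => Complex.exp (α i)) (fun _ : Fin 1 => z)) ↔
        AlgebraicIndependent (integralClosure ℚ ℂ)
          (Sum.elim (fun i : Fin m => Complex.exp (γ i)) (fun _ : Fin 1 => z))) := by
  classical
  set A := Submodule.span ℚ (range α) with hA
  have hAfd : FiniteDimensional ℚ A := FiniteDimensional.span_of_finite ℚ (finite_range α)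
  have hAalg : ∀ w ∈ A, IsAlgebraic ℚ w := span_alg hα
  set R := A ⊓ LinearMap.ker (cjL - LinearMap.id) with hR
  set I := A ⊓ LinearMap.ker (cjL + LinearMap.id) with hI
  have hRfd : FiniteDimensional ℚ R := Submodule.finiteDimensional_of_le inf_le_left
  have hIfd : FiniteDimensional ℚ I := Submodule.finiteDimensional_of_le inf_le_left
  obtain ⟨p, b, hb, hbs⟩ : ∃ (p : ℕ) (b : Fin p → ℂ), LinearIndependent ℚ b ∧
      Submodule.span ℚ (range b) = R := ⟨_, exists_fin_basis R⟩
  obtain ⟨q, c, hc, hcs⟩ : ∃ (p : ℕ) (b : Fin p → ℂ), LinearIndependent ℚ b ∧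
      Submodule.span ℚ (range b) = I := ⟨_, exists_fin_basis I⟩
  have hbc : LinearIndependent ℚ (Sum.elim b c) := by
    apply LinearIndependent.sum_type hb hc
    rw [hbs, hcs]
    exact disj_RI A
  have hspan : Submodule.span ℚ (range ((Sum.elim b c) ∘ finSumFinEquiv.symm)) = R ⊔ I := by
    rw [EquivLike.range_comp, range_elim', Submodule.span_union, hbs, hcs]
  refine ⟨p + q, (Sum.elim b c) ∘ finSumFinEquiv.symm, ?_, ?_, ?_, ?_⟩
  · exact hbc.comp _ finSumFinEquiv.symm.injective
  · intro j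
    have hb' : ∀ i, b i ∈ R := fun i => by
      rw [← hbs]; exact Submodule.subset_span (mem_range_self i)
    have hc' : ∀ i, c i ∈ I := fun i => by
      rw [← hcs]; exact Submodule.subset_span (mem_range_self i)
    change (Sum.elim b c) (finSumFinEquiv.symm j) ∈ A ∧
      ((starRingEnd ℂ) ((Sum.elim b c) (finSumFinEquiv.symm j)) =
        (Sum.elim b c) (finSumFinEquiv.symm j) ∨
      (starRingEnd ℂ) ((Sum.elim b c) (finSumFinEquiv.symm j)) =
        -(Sum.elim b c) (finSumFinEquiv.symm j))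
    rcases finSumFinEquiv.symm j with i | i
    · refine ⟨(hb' i).1, Or.inl ?_⟩
      have := (hb' i).2
      rw [SetLike.mem_coe, LinearMap.mem_ker, LinearMap.sub_apply, LinearMap.id_apply,
        sub_eq_zero] at this
      exact this
    · refine ⟨(hc' i).1, Or.inr ?_⟩
      have := (hc' i).2
      rw [SetLike.mem_coe, LinearMap.mem_ker, LinearMap.add_apply, LinearMap.id_apply] at this
      exact eq_neg_of_add_eq_zero_left this
  · intro w hw h
    rw [hspan]
    rcases h with h | h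
    · refine Submodule.mem_sup_left ⟨hw, ?_⟩
      rw [SetLike.mem_coe, LinearMap.mem_ker, LinearMap.sub_apply, LinearMap.id_apply, cjL_apply,
        h, sub_self]
    · refine Submodule.mem_sup_right ⟨hw, ?_⟩
      rw [SetLike.mem_coe, LinearMap.mem_ker, LinearMap.add_apply, LinearMap.id_apply, cjL_apply,
        h, neg_add_cancel]
  · intro z hz
    have hγalg : ∀ i, IsAlgebraic ℚ (((Sum.elim b c) ∘ finSumFinEquiv.symm) i) := by
      intro i
      apply hAalg
      have h1 : ((Sum.elim b c) ∘ finSumFinEquiv.symm) i ∈ R ⊔ I := by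
        rw [← hspan]; exact Submodule.subset_span (mem_range_self i)
      exact (sup_le inf_le_left inf_le_left : R ⊔ I ≤ A) h1
    have hL := indep_iff hα hlin (w := z)
    have hRr := indep_iff hγalg (hbc.comp _ finSumFinEquiv.symm.injective) (w := z)
    rw [hspan] at hRr
    refine hL.trans (Iff.trans (not_congr ?_) hRr.symm)
    constructor
    · intro h
      by_cases hzt : Transcendental ℚ z
      · have hzc := mem_cl_conj hzt (Or.inr (Or.inr hz))
        exact AM.closure_subset_closure (image_mono (inf_conj_le A)) (mem_inf_conj hAalg hzc h)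
      · rw [Transcendental, not_not] at hzt
        exact alg_mem_cl _ hzt
    · intro h
      exact AM.closure_subset_closure (image_mono (sup_le inf_le_left inf_le_left : R ⊔ I ≤ A)) h

lemma dep_of_real_imag {z : ℂ} (h : (starRingEnd ℂ) z = z ∨ (starRingEnd ℂ) z = -z) :
    ¬ AlgebraicIndependent ℚ ![z, (starRingEnd ℂ) z] := by
  intro hind
  rcases h with h | h
  · have := hind.injective (show ![z, (starRingEnd ℂ) z] 0 = ![z, (starRingEnd ℂ) z] 1 from h.symm)
    exact absurd this (by decide)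
  · have h1 := hind.eq_zero_of_aeval_eq_zero (MvPolynomial.X 0 + MvPolynomial.X 1) (by
      simp [h])
    have h2 := congrArg (MvPolynomial.eval (fun _ : Fin 2 => (1 : ℚ))) h1
    simp at h2

end Pool.Agent.Lib.MP_c82530_nt
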