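import Mathlib
import Pool.Agent.Lib.MP_c82530_nt.Rank

set_option autoImplicit false

/-!
The defect of the exponentials of a space of algebraic numbers over a finitely generated field.
-/

namespace Pool.Agent.Lib.MP_c82530_nt

open Set Module

/-- rank of `exp W` together with `L` in the algebraic matroid -/
noncomputable def fr (L : Set ℂ) (W : Submodule ℚ ℂ) : ℕ∞ := AM.eRk (expSet W ∪ L)

lemma cl_sup (W1 W2 : Submodule ℚ ℂ) :
    AM.closure (expSet (W1 ⊔ W2)) = AM.closure (expSet W1 ∪ expSet W2) := by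
  apply Subset.antisymm
  · have h : expSet (W1 ⊔ W2) ⊆ AM.closure (expSet W1 ∪ expSet W2) := by
      rintro _ ⟨x, hx, rfl⟩
      obtain ⟨a, ha, b, hb, rfl⟩ := Submodule.mem_sup.mp hx
      rw [Complex.exp_add]
      apply mul_mem_cl
      · exact AM.mem_closure_of_mem' (Or.inl ⟨a, ha, rfl⟩) (mem_univ _)
      · exact AM.mem_closure_of_mem' (Or.inr ⟨b, hb, rfl⟩) (mem_univ _)
    have := AM.closure_subset_closure h
    rwa [Matroid.closure_closure] at this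
  · apply AM.closure_subset_closure
    exact union_subset (image_mono (SetLike.coe_subset_coe.mpr le_sup_left))
      (image_mono (SetLike.coe_subset_coe.mpr le_sup_right))

lemma expSet_mono {W1 W2 : Submodule ℚ ℂ} (h : W1 ≤ W2) : expSet W1 ⊆ expSet W2 :=
  image_mono h

lemma fr_mono (L : Set ℂ) {W1 W2 : Submodule ℚ ℂ} (h : W1 ≤ W2) : fr L W1 ≤ fr L W2 :=
  AM.eRk_mono (union_subset_union_left L (expSet_mono h))

lemma eRk_congr_closure {X Y : Set ℂ} (h : AM.closure X = AM.closure Y) : AM.eRk X = AM.eRk Y := by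
  rw [← AM.eRk_closure_eq X, h, AM.eRk_closure_eq]

/-- Lindemann-Weierstrass as a rank formula -/
lemma eRk_expSet {W : Submodule ℚ ℂ} [FiniteDimensional ℚ W] (hW : ∀ w ∈ W, IsAlgebraic ℚ w) :
    AM.eRk (expSet W) = finrank ℚ W := by
  obtain ⟨b, hb, hbs⟩ := exists_fin_basis W
  have hbalg : ∀ i, IsAlgebraic ℚ (b i) := fun i => hW _ (by
    rw [← hbs]; exact Submodule.subset_span (mem_range_self i))
  have h1 := lw b hbalg hb
  have h2 : AM.Indep (range fun i => Complex.exp (b i)) := by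
    rw [AM, AlgebraicIndependent.matroid_indep_iff]
    exact h1.to_subtype_range
  have h3 := cl_range_eq b
  rw [hbs] at h3
  rw [← eRk_congr_closure h3, h2.eRk_eq_encard, ← image_univ, h1.injective.encard_image,
    encard_univ]
  simp

lemma fr_bot (L : Set ℂ) : fr L ⊥ = AM.eRk L := by
  unfold fr
  apply eRk_congr_closure
  rw [← AM.closure_union_closure_left_eq, expSet_bot, AM.closure_union_closure_left_eq, empty_union]

lemma fr_submod (L : Set ℂ) (W1 W2 : Submodule ℚ ℂ) :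
    fr L (W1 ⊓ W2) + fr L (W1 ⊔ W2) ≤ fr L W1 + fr L W2 := by
  have h := AM.eRk_submod (expSet W1 ∪ L) (expSet W2 ∪ L)
  refine le_trans (add_le_add ?_ ?_) h
  · apply AM.eRk_mono
    rw [← union_comm L, ← union_comm L, ← union_comm L, ← union_inter_distrib_left]
    exact union_subset_union_right L (subset_inter (expSet_mono inf_le_left)
      (expSet_mono inf_le_right))
  · refine le_of_eq (eRk_congr_closure ?_)
    have e : expSet W1 ∪ L ∪ (expSet W2 ∪ L) = expSet W1 ∪ expSet W2 ∪ L := by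
      ext x; simp only [mem_union]; tauto
    rw [e, ← AM.closure_union_closure_left_eq, cl_sup, AM.closure_union_closure_left_eq]

lemma fr_le_add (L : Set ℂ) (W1 W2 : Submodule ℚ ℂ) :
    fr L (W1 ⊔ W2) ≤ fr L W1 + AM.eRk (expSet W2) := by
  have e : fr L (W1 ⊔ W2) = AM.eRk (expSet W1 ∪ L ∪ expSet W2) := by
    apply eRk_congr_closure
    have e : expSet W1 ∪ L ∪ expSet W2 = expSet W1 ∪ expSet W2 ∪ L := by
      ext x; simp only [mem_union]; tauto
    rw [e, ← AM.closure_union_closure_left_eq, cl_sup, AM.closure_union_closure_left_eq]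
  rw [e]
  exact AM.eRk_union_le_eRk_add_eRk _ _

section

variable {L : Set ℂ} (hL : L.Finite)
include hL

lemma eRk_L_ne_top : AM.eRk L ≠ ⊤ :=
  ne_top_of_le_ne_top hL.encard_lt_top.ne (AM.eRk_le_encard L)

lemma fr_ne_top {W : Submodule ℚ ℂ} [FiniteDimensional ℚ W] (hW : ∀ w ∈ W, IsAlgebraic ℚ w) :
    fr L W ≠ ⊤ := by
  refine ne_top_of_le_ne_top ?_ (AM.eRk_union_le_eRk_add_eRk (expSet W) L)
  rw [eRk_expSet hW]
  exact WithTop.add_ne_top.mpr ⟨ENat.coe_ne_top _, eRk_L_ne_top hL⟩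

end

/-- rank as a natural number -/
noncomputable def F (L : Set ℂ) (W : Submodule ℚ ℂ) : ℕ := (fr L W).toNat

/-- the defect -/
noncomputable def dl (L : Set ℂ) (W : Submodule ℚ ℂ) : ℕ :=
  finrank ℚ W + (AM.eRk L).toNat - F L W

section

variable {L : Set ℂ} (hL : L.Finite)
include hL

lemma coe_F {W : Submodule ℚ ℂ} [FiniteDimensional ℚ W] (hW : ∀ w ∈ W, IsAlgebraic ℚ w) :
    ((F L W : ℕ) : ℕ∞) = fr L W := ENat.coe_toNat (fr_ne_top hL hW)

lemma coe_t : (((AM.eRk L).toNat : ℕ) : ℕ∞) = AM.eRk L := ENat.coe_toNat (eRk_L_ne_top hL)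

lemma F_le {W : Submodule ℚ ℂ} [FiniteDimensional ℚ W] (hW : ∀ w ∈ W, IsAlgebraic ℚ w) :
    F L W ≤ finrank ℚ W + (AM.eRk L).toNat := by
  have h := AM.eRk_union_le_eRk_add_eRk (expSet W) L
  rw [eRk_expSet hW, ← coe_t hL] at h
  change fr L W ≤ _ at h
  rw [← coe_F hL hW] at h
  exact_mod_cast h

lemma le_F {W : Submodule ℚ ℂ} [FiniteDimensional ℚ W] (hW : ∀ w ∈ W, IsAlgebraic ℚ w) :
    finrank ℚ W ≤ F L W := by
  have h : AM.eRk (expSet W) ≤ fr L W := AM.eRk_mono subset_union_left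
  rw [eRk_expSet hW, ← coe_F hL hW] at h
  exact_mod_cast h

lemma dl_add {W : Submodule ℚ ℂ} [FiniteDimensional ℚ W] (hW : ∀ w ∈ W, IsAlgebraic ℚ w) :
    dl L W + F L W = finrank ℚ W + (AM.eRk L).toNat := by
  have := F_le hL hW
  unfold dl; omega

lemma dl_le {W : Submodule ℚ ℂ} [FiniteDimensional ℚ W] (hW : ∀ w ∈ W, IsAlgebraic ℚ w) :
    dl L W ≤ (AM.eRk L).toNat := by
  have := dl_add hL hW
  have := le_F hL hW
  omega

lemma dl_bot : dl L ⊥ = 0 := by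
  unfold dl F
  rw [fr_bot]
  simp

lemma F_submod {W1 W2 : Submodule ℚ ℂ} [FiniteDimensional ℚ W1] [FiniteDimensional ℚ W2]
    (h1 : ∀ w ∈ W1, IsAlgebraic ℚ w) (h2 : ∀ w ∈ W2, IsAlgebraic ℚ w) :
    F L (W1 ⊓ W2) + F L (W1 ⊔ W2) ≤ F L W1 + F L W2 := by
  have h := fr_submod L W1 W2
  have h3 : ∀ w ∈ W1 ⊔ W2, IsAlgebraic ℚ w := by
    intro w hw
    rw [← mem_Kalg]
    exact (sup_le (fun x hx => mem_Kalg.mpr (h1 x hx)) (fun x hx => mem_Kalg.mpr (h2 x hx)) :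
      W1 ⊔ W2 ≤ Kalg) hw
  haveI : FiniteDimensional ℚ (W1 ⊓ W2 : Submodule ℚ ℂ) :=
    Submodule.finiteDimensional_of_le inf_le_left
  rw [← coe_F hL h1, ← coe_F hL h2, ← coe_F hL h3, ← coe_F hL (W := W1 ⊓ W2) (fun w hw => h1 w hw.1)] at h
  exact_mod_cast h

lemma sup_alg {W1 W2 : Submodule ℚ ℂ} (h1 : ∀ w ∈ W1, IsAlgebraic ℚ w)
    (h2 : ∀ w ∈ W2, IsAlgebraic ℚ w) : ∀ w ∈ W1 ⊔ W2, IsAlgebraic ℚ w := by
  intro w hw
  rw [← mem_Kalg]
  exact (sup_le (fun x hx => mem_Kalg.mpr (h1 x hx)) (fun x hx => mem_Kalg.mpr (h2 x hx)) :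
    W1 ⊔ W2 ≤ Kalg) hw

/-- **the defect is supermodular** -/
lemma dl_super {W1 W2 : Submodule ℚ ℂ} [FiniteDimensional ℚ W1] [FiniteDimensional ℚ W2]
    (h1 : ∀ w ∈ W1, IsAlgebraic ℚ w) (h2 : ∀ w ∈ W2, IsAlgebraic ℚ w) :
    dl L W1 + dl L W2 ≤ dl L (W1 ⊔ W2) + dl L (W1 ⊓ W2) := by
  haveI : FiniteDimensional ℚ (W1 ⊓ W2 : Submodule ℚ ℂ) :=
    Submodule.finiteDimensional_of_le inf_le_left
  have a1 := dl_add hL h1
  have a2 := dl_add hL h2
  have a3 := dl_add hL (sup_alg hL h1 h2)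
  have a4 := dl_add hL (W := W1 ⊓ W2) (fun w hw => h1 w hw.1)
  have a5 := F_submod hL h1 h2
  have a6 := Submodule.finrank_sup_add_finrank_inf_eq W1 W2
  omega

/-- the defect is monotone -/
lemma dl_mono {W1 W2 : Submodule ℚ ℂ} [FiniteDimensional ℚ W2]
    (h2 : ∀ w ∈ W2, IsAlgebraic ℚ w) (h : W1 ≤ W2) : dl L W1 ≤ dl L W2 := by
  haveI : FiniteDimensional ℚ W1 := Submodule.finiteDimensional_of_le h
  have h1 : ∀ w ∈ W1, IsAlgebraic ℚ w := fun w hw => h2 w (h hw)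
  obtain ⟨C, hC⟩ := Submodule.exists_isCompl W1
  haveI : FiniteDimensional ℚ (C ⊓ W2 : Submodule ℚ ℂ) :=
    Submodule.finiteDimensional_of_le inf_le_right
  have h3 : W1 ⊔ C ⊓ W2 = W2 := by
    rw [← sup_inf_assoc_of_le C h, hC.sup_eq_top, top_inf_eq]
  have h4 : W1 ⊓ (C ⊓ W2) = ⊥ := by
    rw [← inf_assoc, hC.inf_eq_bot, bot_inf_eq]
  have a := fr_le_add L W1 (C ⊓ W2)
  have h5 : ∀ w ∈ C ⊓ W2, IsAlgebraic ℚ w := fun w hw => h2 w hw.2
  rw [h3, eRk_expSet h5, ← coe_F hL h1, ← coe_F hL h2] at a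
  have a' : F L W2 ≤ F L W1 + finrank ℚ (C ⊓ W2 : Submodule ℚ ℂ) := by exact_mod_cast a
  have a6 := Submodule.finrank_sup_add_finrank_inf_eq W1 (C ⊓ W2)
  rw [h3, h4, finrank_bot] at a6
  have b1 := dl_add hL h1
  have b2 := dl_add hL h2
  omega

/-- **the support space of finitely many numbers** -/
theorem exists_core : ∃ V : Submodule ℚ ℂ, FiniteDimensional ℚ V ∧ (∀ v ∈ V, IsAlgebraic ℚ v) ∧
    ∀ W : Submodule ℚ ℂ, FiniteDimensional ℚ W → (∀ w ∈ W, IsAlgebraic ℚ w) →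
      dl L W = dl L (W ⊓ V) ∧ dl L W ≤ dl L V ∧ (dl L W = dl L V ↔ V ≤ W) := by
  classical
  -- maximal defect
  let P : ℕ → Prop := fun m => ∃ W : Submodule ℚ ℂ, FiniteDimensional ℚ W ∧
    (∀ w ∈ W, IsAlgebraic ℚ w) ∧ dl L W = m
  have hP0 : P 0 := ⟨⊥, inferInstance, by
    intro w hw
    rw [Submodule.mem_bot] at hw
    rw [hw]; exact isAlgebraic_zero, dl_bot hL⟩
  set t := (AM.eRk L).toNat with ht
  set m := Nat.findGreatest P t with hm
  have hPm : P m := Nat.findGreatest_spec (Nat.zero_le t) hP0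
  have hmax : ∀ W : Submodule ℚ ℂ, FiniteDimensional ℚ W → (∀ w ∈ W, IsAlgebraic ℚ w) →
      dl L W ≤ m := by
    intro W hfd hW
    exact Nat.le_findGreatest (dl_le hL hW) ⟨W, hfd, hW, rfl⟩
  have hex : ∃ n : ℕ, ∃ W : Submodule ℚ ℂ, FiniteDimensional ℚ W ∧
    (∀ w ∈ W, IsAlgebraic ℚ w) ∧ dl L W = m ∧ finrank ℚ W = n := by
    obtain ⟨W, a, b, c⟩ := hPm
    exact ⟨_, W, a, b, c, rfl⟩
  obtain ⟨V, hfd, hV, hVm, hn⟩ := Nat.find_spec hex
  have hmin : ∀ V' ≤ V, dl L V' = m → V' = V := by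
    intro V' hle h
    haveI : FiniteDimensional ℚ V' := Submodule.finiteDimensional_of_le hle
    have h2 : Nat.find hex ≤ finrank ℚ V' :=
      Nat.find_min' hex ⟨V', inferInstance, fun v hv => hV v (hle hv), h, rfl⟩
    rw [← hn] at h2
    exact Submodule.eq_of_le_of_finrank_le hle h2
  refine ⟨V, hfd, hV, fun W hWfd hW => ?_⟩
  have h1 := dl_super hL hW hV
  have h2 := hmax (W ⊔ V) inferInstance (sup_alg hL hW hV)
  have h3 := dl_mono hL hW (inf_le_left : W ⊓ V ≤ W)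
  have h4 := hmax W hWfd hW
  rw [hVm] at h1 ⊢
  have h5 : dl L W = dl L (W ⊓ V) := by omega
  refine ⟨h5, h4, fun h => ?_, fun h => ?_⟩
  · have h6 := hmin (W ⊓ V) inf_le_right (h5.symm.trans h)
    rw [← h6]
    exact inf_le_left
  · rw [h5, inf_eq_right.mpr h, hVm]

end

end Pool.Agent.Lib.MP_c82530_nt
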