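import Mathlib
import Pool.Agent.Lib.MP_c82530_nt.Defect

set_option autoImplicit false

namespace Pool.Agent.Lib.MP_c82530_nt

open Set Module

/-- the field of all numbers algebraic over `ℚ(L)` -/
noncomputable abbrev KL (L : Set ℂ) : IntermediateField (IntermediateField.adjoin ℚ L) ℂ :=
  algebraicClosure (IntermediateField.adjoin ℚ L) ℂ

open scoped IntermediateField.algebraAdjoinAdjoin in
lemma mem_KL {L : Set ℂ} {z : ℂ} : z ∈ KL L ↔ z ∈ AM.closure L := by
  rw [mem_cl, mem_algebraicClosure_iff, IntermediateField.isAlgebraic_adjoin_iff]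

/-- the transcendence degree as a matroid rank -/
lemma trdeg_adjoin {s : Set ℂ} (hs : AM.eRk s ≠ ⊤) :
    Algebra.trdeg ℚ (Algebra.adjoin ℚ s) = ((AM.eRk s).toNat : Cardinal) := by
  obtain ⟨I, hI⟩ := AM.exists_isBasis s (subset_univ s)
  have hIs : I ⊆ s := hI.subset
  have hind : AlgebraicIndependent ℚ ((↑) : I → ℂ) := hI.indep
  have h0 : Algebra.trdeg ℚ (Algebra.adjoin ℚ I) = Cardinal.mk I := by
    have e := hind.aevalEquiv
    rw [Subtype.range_coe] at e
    rw [← e.trdeg_eq, MvPolynomial.trdeg_of_isDomain, Cardinal.lift_id]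
  have hle : Algebra.adjoin ℚ I ≤ Algebra.adjoin ℚ s := Algebra.adjoin_mono hIs
  let alg : Algebra (Algebra.adjoin ℚ I) (Algebra.adjoin ℚ s) :=
    (Subalgebra.inclusion hle).toRingHom.toAlgebra
  have t1 : IsScalarTower ℚ (Algebra.adjoin ℚ I) (Algebra.adjoin ℚ s) :=
    IsScalarTower.of_algebraMap_eq fun x => Subtype.ext rfl
  have t2 : IsScalarTower (Algebra.adjoin ℚ I) (Algebra.adjoin ℚ s) ℂ :=
    IsScalarTower.of_algebraMap_eq fun x => rfl
  have f1 : FaithfulSMul (Algebra.adjoin ℚ I) (Algebra.adjoin ℚ s) := by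
    rw [faithfulSMul_iff_algebraMap_injective]
    exact Subalgebra.inclusion_injective hle
  have a1 : Algebra.IsAlgebraic (Algebra.adjoin ℚ I) (Algebra.adjoin ℚ s) := by
    refine ⟨fun z => ?_⟩
    have hz : (z : ℂ) ∈ AM.closure s := by
      rw [mem_cl]
      exact isAlgebraic_algebraMap z
    rw [← hI.closure_eq_closure, mem_cl] at hz
    exact (isAlgebraic_algebraMap_iff (R := Algebra.adjoin ℚ I) (S := Algebra.adjoin ℚ s) (A := ℂ)
      Subtype.coe_injective).1 hz
  have h1 := trdeg_add_eq ℚ (Algebra.adjoin ℚ I) (A := Algebra.adjoin ℚ s)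
  rw [trdeg_eq_zero (R := Algebra.adjoin ℚ I) (A := Algebra.adjoin ℚ s), add_zero, h0] at h1
  rw [← h1, ← hI.encard_eq_eRk]
  have hfin : I.Finite := by
    rw [← encard_ne_top_iff, hI.encard_eq_eRk]
    exact hs
  have := hfin.to_subtype
  rw [← Nat.cast_card (α := I), Nat.card_coe_set_eq]
  rfl

/-- algebraic independence over `KL L` and over the subalgebra generated by a generating set -/
lemma indep_KL_iff {L J : Set ℂ} (hJ : AM.closure J = AM.closure L) {ι : Type*} (x : ι → ℂ) :
    AlgebraicIndependent (KL L) x ↔ AlgebraicIndependent (Algebra.adjoin ℚ J) x := by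
  have hmem : ∀ z ∈ Algebra.adjoin ℚ J, z ∈ KL L := by
    intro z hz
    rw [mem_KL, ← hJ, mem_cl]
    exact isAlgebraic_algebraMap (⟨z, hz⟩ : Algebra.adjoin ℚ J)
  let f : Algebra.adjoin ℚ J →+* KL L :=
    { toFun := fun z => ⟨z, hmem z z.2⟩
      map_one' := rfl
      map_mul' := fun _ _ => rfl
      map_zero' := rfl
      map_add' := fun _ _ => rfl }
  let alg : Algebra (Algebra.adjoin ℚ J) (KL L) := f.toAlgebra
  have t2 : IsScalarTower (Algebra.adjoin ℚ J) (KL L) ℂ :=
    IsScalarTower.of_algebraMap_eq fun x => rfl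
  have f1 : FaithfulSMul (Algebra.adjoin ℚ J) (KL L) := by
    rw [faithfulSMul_iff_algebraMap_injective]
    intro a b hab
    exact Subtype.ext (congrArg (fun z : KL L => (z : ℂ)) hab)
  have a1 : Algebra.IsAlgebraic (Algebra.adjoin ℚ J) (KL L) := by
    refine ⟨fun z => ?_⟩
    have hz : (z : ℂ) ∈ AM.closure J := by
      rw [hJ, ← mem_KL]; exact z.2
    rw [mem_cl] at hz
    exact (isAlgebraic_algebraMap_iff (R := Algebra.adjoin ℚ J) (S := KL L) (A := ℂ)
      Subtype.coe_injective).1 hz
  exact (Algebra.IsAlgebraic.algebraicIndependent_iff (Algebra.adjoin ℚ J) (KL L)).symm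

lemma closure_exp_union {n : ℕ} (α : Fin n → ℂ) (L : Set ℂ) :
    AM.closure (range (fun i => Complex.exp (α i)) ∪ L) =
      AM.closure (expSet (Submodule.span ℚ (range α)) ∪ L) := by
  rw [← AM.closure_union_closure_left_eq, cl_range_eq, AM.closure_union_closure_left_eq]

lemma eRk_exp_union {n : ℕ} (α : Fin n → ℂ) (L : Set ℂ) :
    AM.eRk (range (fun i => Complex.exp (α i)) ∪ L) = fr L (Submodule.span ℚ (range α)) :=
  eRk_congr_closure (closure_exp_union α L)

/-- the defect in terms of the transcendence degree -/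
lemma trdeg_add_dl {L : Set ℂ} (hL : L.Finite) {n : ℕ} {α : Fin n → ℂ}
    (hα : ∀ i, IsAlgebraic ℚ (α i)) (hlin : LinearIndependent ℚ α) :
    Algebra.trdeg ℚ (Algebra.adjoin ℚ (range (fun i => Complex.exp (α i)) ∪ L)) +
      (dl L (Submodule.span ℚ (range α)) : Cardinal) = n + ((AM.eRk L).toNat : Cardinal) := by
  have hfd : FiniteDimensional ℚ (Submodule.span ℚ (range α)) :=
    FiniteDimensional.span_of_finite ℚ (finite_range α)
  have h1 := fr_ne_top hL (span_alg hα)
  rw [trdeg_adjoin (by rw [eRk_exp_union]; exact h1), eRk_exp_union]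
  have h2 := dl_add hL (span_alg hα)
  rw [finrank_span_eq_card hlin, Fintype.card_fin] at h2
  change (F L (Submodule.span ℚ (range α)) : Cardinal) + _ = _
  rw [add_comm]
  exact_mod_cast h2

/-- defect zero means algebraic independence over `KL L` -/
lemma dl_eq_zero_iff {L : Set ℂ} (hL : L.Finite) {n : ℕ} {α : Fin n → ℂ}
    (hα : ∀ i, IsAlgebraic ℚ (α i)) (hlin : LinearIndependent ℚ α) :
    dl L (Submodule.span ℚ (range α)) = 0 ↔
      AlgebraicIndependent (KL L) (fun i => Complex.exp (α i)) := by
  have hfd : FiniteDimensional ℚ (Submodule.span ℚ (range α)) :=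
    FiniteDimensional.span_of_finite ℚ (finite_range α)
  have h2 := dl_add hL (span_alg hα)
  rw [finrank_span_eq_card hlin, Fintype.card_fin] at h2
  obtain ⟨J, hJ⟩ := AM.exists_isBasis L (subset_univ L)
  have hJfin : J.Finite := hL.subset hJ.subset
  have hJcard : J.ncard = (AM.eRk L).toNat := by
    rw [← hJ.encard_eq_eRk]; rfl
  have hJind : AlgebraicIndependent ℚ ((↑) : J → ℂ) := hJ.indep
  have hcl : AM.closure (range (fun i => Complex.exp (α i)) ∪ J) =
      AM.closure (expSet (Submodule.span ℚ (range α)) ∪ L) := by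
    rw [← closure_exp_union, ← AM.closure_union_closure_right_eq, hJ.closure_eq_closure,
      AM.closure_union_closure_right_eq]
  have hrk : AM.eRk (range (fun i => Complex.exp (α i)) ∪ J) =
      (F L (Submodule.span ℚ (range α)) : ℕ∞) := by
    rw [eRk_congr_closure hcl, coe_F hL (span_alg hα)]; rfl
  have hexp := lw α hα hlin
  have hcardE : (range (fun i => Complex.exp (α i))).encard = n := by
    rw [← image_univ, hexp.injective.encard_image, encard_univ]; simp
  rw [indep_KL_iff hJ.closure_eq_closure]
  constructor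
  · intro h0
    have hF : F L (Submodule.span ℚ (range α)) = n + J.ncard := by omega
    -- the union is independent
    have hfinU : (range (fun i => Complex.exp (α i)) ∪ J).Finite := (finite_range _).union hJfin
    have hle : (range (fun i => Complex.exp (α i)) ∪ J).encard ≤ (n + J.ncard : ℕ) := by
      refine (encard_union_le _ _).trans ?_
      rw [hcardE, ← hJfin.cast_ncard_eq]
      push_cast
      exact le_rfl
    have hge : ((n + J.ncard : ℕ) : ℕ∞) ≤ (range (fun i => Complex.exp (α i)) ∪ J).encard := by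
      rw [← hF, ← hrk]
      exact AM.eRk_le_encard _
    have heq := le_antisymm hle hge
    have hindU : AM.Indep (range (fun i => Complex.exp (α i)) ∪ J) := by
      apply (Matroid.indep_iff_eRk_eq_encard_of_finite hfinU).mpr
      rw [hrk, heq, hF]
    have hdisj : Disjoint (range (fun i => Complex.exp (α i))) J := by
      have h3 := encard_union_add_encard_inter (range (fun i => Complex.exp (α i))) J
      rw [heq, hcardE, ← hJfin.cast_ncard_eq] at h3
      have h4 : (range (fun i => Complex.exp (α i)) ∩ J).encard = 0 := by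
        have hf : (range (fun i => Complex.exp (α i)) ∩ J).Finite := hJfin.subset inter_subset_right
        rw [← hf.cast_ncard_eq] at h3 ⊢
        have h3' : n + J.ncard + (range (fun i => Complex.exp (α i)) ∩ J).ncard = n + J.ncard := by
          exact_mod_cast h3
        have : (range (fun i => Complex.exp (α i)) ∩ J).ncard = 0 := by omega
        rw [this]; rfl
      rw [encard_eq_zero] at h4
      exact disjoint_iff_inter_eq_empty.mpr h4
    have hinj : Function.Injective (Sum.elim (fun i => Complex.exp (α i)) ((↑) : J → ℂ)) := by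
      rintro (a | a) (b | b) hab
      · exact congrArg Sum.inl (hexp.injective hab)
      · exact absurd (show Complex.exp (α a) ∈ J by
          have : Complex.exp (α a) = (b : ℂ) := hab
          rw [this]; exact b.2) (disjoint_left.mp hdisj ⟨a, rfl⟩)
      · exact absurd (show Complex.exp (α b) ∈ J by
          have : (a : ℂ) = Complex.exp (α b) := hab
          rw [← this]; exact a.2) (disjoint_left.mp hdisj ⟨b, rfl⟩)
      · exact congrArg Sum.inr (Subtype.ext hab)
    have hr : range (Sum.elim (fun i => Complex.exp (α i)) ((↑) : J → ℂ)) =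
        range (fun i => Complex.exp (α i)) ∪ J := by
      rw [Sum.elim_range, Subtype.range_coe]
    have h5 : AlgebraicIndependent ℚ (Sum.elim (fun i => Complex.exp (α i)) ((↑) : J → ℂ)) := by
      rw [← algebraicIndependent_subtype_range hinj, hr]
      exact hindU
    rw [AlgebraicIndependent.sumElim_iff, Subtype.range_coe] at h5
    exact h5.2
  · intro h
    have h5 : AlgebraicIndependent ℚ (Sum.elim (fun i => Complex.exp (α i)) ((↑) : J → ℂ)) := by
      rw [AlgebraicIndependent.sumElim_iff, Subtype.range_coe]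
      exact ⟨hJind, h⟩
    have hr : range (Sum.elim (fun i => Complex.exp (α i)) ((↑) : J → ℂ)) =
        range (fun i => Complex.exp (α i)) ∪ J := by
      rw [Sum.elim_range, Subtype.range_coe]
    have h6 : AM.Indep (range (fun i => Complex.exp (α i)) ∪ J) := by
      rw [← hr, AM, AlgebraicIndependent.matroid_indep_iff]
      exact h5.to_subtype_range
    have h7 := h6.eRk_eq_encard
    have hJf := hJfin.to_subtype
    have h10 : (range (Sum.elim (fun i => Complex.exp (α i)) ((↑) : J → ℂ))).encard =
        ENat.card (Fin n) + ENat.card J := by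
      rw [← image_univ, h5.injective.encard_image, encard_univ, ENat.card_sum]
    rw [hrk, ← hr, h10] at h7
    have h8 : (F L (Submodule.span ℚ (range α)) : ℕ∞) = ((n + J.ncard : ℕ) : ℕ∞) := by
      rw [h7]
      push_cast
      congr 1
      · simp
      · rw [hJfin.cast_ncard_eq]; rfl
    have h9 : F L (Submodule.span ℚ (range α)) = n + J.ncard := by exact_mod_cast h8
    omega

end Pool.Agent.Lib.MP_c82530_nt
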