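import Mathlib
import Pool.Agent.Lib.MP_c82530_nt.Apply

set_option autoImplicit false

namespace Pool.Agent.Lib.MP_c82530_nt

open Set

open scoped ComplexConjugate

lemma add_mem_cl {s : Set ℂ} {z w : ℂ} (h : z ∈ AM.closure s) (h' : w ∈ AM.closure s) :
    z + w ∈ AM.closure s := by
  rw [mem_cl] at h h' ⊢
  exact h.add h'

lemma conj_cl1 {α z : ℂ} (h : z ∈ AM.closure {Complex.exp α}) :
    conj z ∈ AM.closure {Complex.exp (conj α)} := by
  have h1 := map_mem_cl cj h
  rw [image_singleton, cj_exp] at h1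
  exact h1

lemma conj_Llog {l : ℂ} (h : l ∈ Llog) : conj l ∈ Llog := by
  rw [mem_Llog] at h ⊢
  rw [Complex.exp_conj]
  exact isAlgebraic_conj h

lemma cl1_smul {α z : ℂ} (q : ℚ) (h : z ∈ AM.closure {Complex.exp (q • α)}) :
    z ∈ AM.closure {Complex.exp α} := by
  have h1 := AM.closure_subset_closure (singleton_subset_iff.mpr (exp_smul_mem_cl q α)) h
  rwa [Matroid.closure_closure] at h1

/-- two independent exponents -/
lemma inter_cl1 {α β z : ℂ} (hα : IsAlgebraic ℚ α) (hβ : IsAlgebraic ℚ β)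
    (hlin : LinearIndependent ℚ ![α, β]) (h1 : z ∈ AM.closure {Complex.exp α})
    (h2 : z ∈ AM.closure {Complex.exp β}) : IsAlgebraic ℚ z := by
  have h := direct (Finset.univ : Finset (Fin 2)) ![α, β]
    (by intro i _; fin_cases i; exacts [hα, hβ])
    (by
      intro i _ j _ hij
      fin_cases i <;> fin_cases j
      · exact absurd rfl hij
      · exact hlin
      · exact LinearIndependent.pair_symm_iff.mp hlin
      · exact absurd rfl hij) ![z, -z]
    (by intro i _; fin_cases i; exacts [h1, neg_mem_cl h2])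
    (by simp [isAlgebraic_zero]) 0 (Finset.mem_univ _)
  exact h

/-- `α` off the axes: its exponential closure contains no nonzero real or imaginary logarithm -/
lemma offaxis {α l : ℂ} (hα : IsAlgebraic ℚ α) (him : α.im ≠ 0) (hre : α.re ≠ 0)
    (hl : l ∈ Llog) (hc : conj l = l ∨ conj l = -l) (h : l ∈ AM.closure {Complex.exp α}) :
    l = 0 := by
  by_contra hl0
  have h1 : l ∈ AM.closure {Complex.exp (conj α)} := by
    have h2 := conj_cl1 h
    rcases hc with hc | hc
    · rwa [hc] at h2
    · rw [hc] at h2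
      have := neg_mem_cl h2
      rwa [neg_neg] at this
  have hlin : LinearIndependent ℚ ![α, conj α] := by
    have h3 := linInd_conj (α := α) (by
      intro h; exact him (Complex.conj_eq_iff_im.mp h)) (by
      intro h
      have := congrArg Complex.re h
      simp only [Complex.conj_re, Complex.neg_re] at this
      exact hre (by linarith))
    refine (linearIndependent_equiv' (finSumFinEquiv (m := 1) (n := 1)) ?_).mp h3
    ext (i | i) <;> fin_cases i <;> rfl
  exact Llog_tr hl hl0 (inter_cl1 hα (isAlgebraic_conj hα) hlin h h1)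

lemma linInd_conj' {α : ℂ} (him : α.im ≠ 0) (hre : α.re ≠ 0) :
    LinearIndependent ℚ ![α, conj α] := by
  have h3 := linInd_conj (α := α) (by
    intro h; exact him (Complex.conj_eq_iff_im.mp h)) (by
    intro h
    have := congrArg Complex.re h
    simp only [Complex.conj_re, Complex.neg_re] at this
    exact hre (by linarith))
  refine (linearIndependent_equiv' (finSumFinEquiv (m := 1) (n := 1)) ?_).mp h3
  ext (i | i) <;> fin_cases i <;> rfl

lemma eq_smul_of_dep {a b : ℂ} (ha : a ≠ 0) (h : ¬ LinearIndependent ℚ ![a, b]) :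
    ∃ q : ℚ, b = q • a := by
  rw [LinearIndependent.pair_iff' ha] at h
  push Not at h
  obtain ⟨q, hq⟩ := h
  exact ⟨q, hq.symm⟩

/-- **Two exceptional pairs off the axes** on the same horizontal (`ε = -1`) or vertical (`ε = 1`)
line. -/
theorem two_pairs {α₁ α₂ l₁ l₂ ε : ℂ} (hε : ε = 1 ∨ ε = -1)
    (hα₁ : IsAlgebraic ℚ α₁) (hα₂ : IsAlgebraic ℚ α₂)
    (him₁ : α₁.im ≠ 0) (hre₁ : α₁.re ≠ 0) (him₂ : α₂.im ≠ 0) (hre₂ : α₂.re ≠ 0)
    (hl₁ : l₁ ∈ Llog) (hl₂ : l₂ ∈ Llog) (h₁ : l₁ ∈ AM.closure {Complex.exp α₁})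
    (h₂ : l₂ ∈ AM.closure {Complex.exp α₂}) (hl0 : l₁ ≠ 0)
    (heq : l₁ + ε * conj l₁ = l₂ + ε * conj l₂) : l₁ = l₂ ∨ l₁ = ε * conj l₂ := by
  have hα₁0 : α₁ ≠ 0 := by rintro rfl; exact him₁ rfl
  have hα₂0 : α₂ ≠ 0 := by rintro rfl; exact him₂ rfl
  have hεε : ε * ε = 1 := by rcases hε with rfl | rfl <;> ring
  have hεc : conj ε = ε := by rcases hε with rfl | rfl <;> simp
  have hεalg : IsAlgebraic ℚ ε := by
    rcases hε with rfl | rfl
    · exact isAlgebraic_one
    · exact isAlgebraic_one.neg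
  have hεL : ∀ l ∈ Llog, ε * l ∈ Llog := by
    intro l hl
    rcases hε with rfl | rfl
    · rwa [one_mul]
    · rw [neg_one_mul]; exact Llog.neg_mem hl
  have hreal : ∀ δ : ℂ, δ = -ε * conj δ → conj δ = δ ∨ conj δ = -δ := by
    intro δ hδ
    rcases hε with rfl | rfl
    · right; linear_combination hδ
    · left
      rw [neg_neg, one_mul] at hδ
      exact hδ.symm
  by_cases hA : LinearIndependent ℚ ![α₁, α₂]
  swap
  · -- case A
    left
    obtain ⟨q, hq⟩ := eq_smul_of_dep hα₁0 hA
    rw [hq] at h₂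
    have h₂' := cl1_smul q h₂
    have hδ : l₁ - l₂ ∈ AM.closure {Complex.exp α₁} := by
      rw [sub_eq_add_neg]
      exact add_mem_cl h₁ (neg_mem_cl h₂')
    have := offaxis hα₁ him₁ hre₁ (Llog.sub_mem hl₁ hl₂) (hreal _ (by
      rw [map_sub]; linear_combination heq)) hδ
    exact sub_eq_zero.mp this
  by_cases hB : LinearIndependent ℚ ![α₁, conj α₂]
  swap
  · -- case B
    right
    obtain ⟨q, hq⟩ := eq_smul_of_dep hα₁0 hB
    have h₂' := conj_cl1 h₂
    rw [hq] at h₂'
    have h₂'' := cl1_smul q h₂'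
    have hδ : l₁ - ε * conj l₂ ∈ AM.closure {Complex.exp α₁} := by
      rw [sub_eq_add_neg]
      exact add_mem_cl h₁ (neg_mem_cl (mul_mem_cl (alg_mem_cl _ hεalg) h₂''))
    have := offaxis hα₁ him₁ hre₁ (Llog.sub_mem hl₁ (hεL _ (conj_Llog hl₂))) (hreal _ (by
      rw [map_sub, map_mul, hεc, Complex.conj_conj]
      linear_combination heq - l₂ * hεε)) hδ
    exact sub_eq_zero.mp this
  -- case C
  exfalso
  have hconj : ∀ a b : ℂ, LinearIndependent ℚ ![a, b] →
      LinearIndependent ℚ ![conj a, conj b] := by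
    intro a b hab
    rw [LinearIndependent.pair_iff] at hab ⊢
    intro s t hst
    apply hab
    have := congrArg (starRingEnd ℂ) hst
    simp only [map_add, Algebra.smul_def, map_mul, Complex.conj_conj, map_zero] at this
    simpa [Algebra.smul_def] using this
  have h := direct (Finset.univ : Finset (Fin 4)) ![α₁, conj α₁, α₂, conj α₂]
    (by
      intro i _
      fin_cases i
      exacts [hα₁, isAlgebraic_conj hα₁, hα₂, isAlgebraic_conj hα₂])
    (by
      have e01 := linInd_conj' him₁ hre₁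
      have e02 := hA
      have e03 := hB
      have e12 : LinearIndependent ℚ ![conj α₁, α₂] := by
        have := hconj _ _ hB
        rwa [Complex.conj_conj] at this
      have e13 := hconj _ _ hA
      have e23 := linInd_conj' him₂ hre₂
      intro i _ j _ hij
      fin_cases i <;> fin_cases j
      · exact absurd rfl hij
      · exact e01
      · exact e02
      · exact e03
      · exact LinearIndependent.pair_symm_iff.mp e01
      · exact absurd rfl hij
      · exact e12
      · exact e13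
      · exact LinearIndependent.pair_symm_iff.mp e02
      · exact LinearIndependent.pair_symm_iff.mp e12
      · exact absurd rfl hij
      · exact e23
      · exact LinearIndependent.pair_symm_iff.mp e03
      · exact LinearIndependent.pair_symm_iff.mp e13
      · exact LinearIndependent.pair_symm_iff.mp e23
      · exact absurd rfl hij)
    ![l₁, ε * conj l₁, -l₂, -(ε * conj l₂)]
    (by
      intro i _
      fin_cases i
      · exact h₁
      · exact mul_mem_cl (alg_mem_cl _ hεalg) (conj_cl1 h₁)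
      · exact neg_mem_cl h₂
      · exact neg_mem_cl (mul_mem_cl (alg_mem_cl _ hεalg) (conj_cl1 h₂)))
    (by
      have : ∑ i : Fin 4, ![l₁, ε * conj l₁, -l₂, -(ε * conj l₂)] i = 0 := by
        simp only [Fin.sum_univ_four, Matrix.cons_val]
        linear_combination heq
      rw [this]; exact isAlgebraic_zero) 0 (Finset.mem_univ _)
  exact Llog_tr hl₁ hl0 h

/-- exponents on the axes: the real and the imaginary part lie in the closure. -/
lemma onaxis {α l ε : ℂ} (hε : ε = 1 ∨ ε = -1) (hax : α.im = 0 ∨ α.re = 0)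
    (h : l ∈ AM.closure {Complex.exp α}) : l + ε * conj l ∈ AM.closure {Complex.exp α} := by
  have hεalg : IsAlgebraic ℚ ε := by
    rcases hε with rfl | rfl
    · exact isAlgebraic_one
    · exact isAlgebraic_one.neg
  have h1 := conj_cl1 h
  have h2 : conj l ∈ AM.closure {Complex.exp α} := by
    rcases hax with hax | hax
    · rwa [Complex.conj_eq_iff_im.mpr hax] at h1
    · have : conj α = (-1 : ℚ) • α := by
        rw [Algebra.smul_def]
        apply Complex.ext
        · simp [hax]
        · simp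
      rw [this] at h1
      exact cl1_smul _ h1
  exact add_mem_cl h (mul_mem_cl (alg_mem_cl _ hεalg) h2)

lemma indep_pair {α w : ℂ} (hα : IsAlgebraic ℚ α) (hα0 : α ≠ 0)
    (hw : w ∉ AM.closure {Complex.exp α}) :
    AlgebraicIndependent (integralClosure ℚ ℂ) ![Complex.exp α, w] := by
  have h := indep_snoc_k (n := 1) (α := fun _ => α) (fun _ => hα)
    (LinearIndependent.of_subsingleton 0 hα0) (w := w) (by
      rw [range_const]; exact hw)
  refine (algebraicIndependent_equiv' (finSumFinEquiv (m := 1) (n := 1)) ?_).mp h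
  ext (i | i) <;> fin_cases i <;> rfl

/-- **Thin exceptional sets.** -/
theorem thin {ε : ℂ} (hε : ε = 1 ∨ ε = -1) (c : ℂ) (hc : c ≠ 0) :
    ∃ (l₀ a : ℂ), l₀ - ε * conj l₀ ≠ 0 ∧ IsAlgebraic ℚ a ∧ (a.im = 0 ∨ a.re = 0) ∧
      ∀ α l : ℂ, IsAlgebraic ℚ α → (∀ q : ℚ, α ≠ q • a) → l ∈ Llog → l + ε * conj l = c →
        l ≠ l₀ → l ≠ ε * conj l₀ → AlgebraicIndependent (integralClosure ℚ ℂ) ![Complex.exp α, l] := by
  classical
  have hεε : ε * ε = 1 := by rcases hε with rfl | rfl <;> ring
  have hεc : conj ε = ε := by rcases hε with rfl | rfl <;> simp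
  have hεL : ∀ l ∈ Llog, ε * l ∈ Llog := by
    intro l hl
    rcases hε with rfl | rfl
    · rwa [one_mul]
    · rw [neg_one_mul]; exact Llog.neg_mem hl
  have hcL : ∀ l ∈ Llog, l + ε * conj l ∈ Llog := fun l hl =>
    Llog.add_mem hl (hεL _ (conj_Llog hl))
  -- the on-axis exceptional line
  obtain ⟨a, ha, hax, hline⟩ : ∃ a : ℂ, IsAlgebraic ℚ a ∧ (a.im = 0 ∨ a.re = 0) ∧
      ∀ α, IsAlgebraic ℚ α → (∀ q : ℚ, α ≠ q • a) → (α.im = 0 ∨ α.re = 0) → c ∈ Llog →
        c ∉ AM.closure {Complex.exp α} := by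
    by_cases hex : ∃ a : ℂ, IsAlgebraic ℚ a ∧ a ≠ 0 ∧ (a.im = 0 ∨ a.re = 0) ∧
      c ∈ AM.closure {Complex.exp a}
    · obtain ⟨a, ha, ha0, hax, hca⟩ := hex
      refine ⟨a, ha, hax, fun α hα hq _ hcL hcα => ?_⟩
      by_cases hlin : LinearIndependent ℚ ![a, α]
      · exact Llog_tr hcL hc (inter_cl1 ha hα hlin hca hcα)
      · obtain ⟨q, hq'⟩ := eq_smul_of_dep ha0 hlin
        exact hq q hq'
    · push Not at hex
      refine ⟨0, isAlgebraic_zero, Or.inl rfl, fun α hα hq hαx _ hcα => ?_⟩
      exact hex α hα (by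
        have := hq 0
        rwa [smul_zero] at this) hαx hcα
  have hdep : ∀ α l : ℂ, IsAlgebraic ℚ α → (∀ q : ℚ, α ≠ q • a) → l ∈ Llog →
      l + ε * conj l = c → l ∈ AM.closure {Complex.exp α} → α.im ≠ 0 ∧ α.re ≠ 0 := by
    intro α l hα hq hl hlc hmem
    by_contra hcon
    have hαx : α.im = 0 ∨ α.re = 0 := by
      by_contra h
      push Not at h
      exact hcon h
    refine hline α hα hq hαx ?_ ?_
    · rw [← hlc]; exact hcL l hl
    · rw [← hlc]; exact onaxis hε hαx hmem
  have hα0 : ∀ α : ℂ, (∀ q : ℚ, α ≠ q • a) → α ≠ 0 := by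
    intro α hq
    have := hq 0
    rwa [zero_smul] at this
  by_cases hex : ∃ α l : ℂ, IsAlgebraic ℚ α ∧ (∀ q : ℚ, α ≠ q • a) ∧ l ∈ Llog ∧
      l + ε * conj l = c ∧ l ∈ AM.closure {Complex.exp α}
  · obtain ⟨α₁, l₁, hα₁, hq₁, hl₁, hlc₁, hmem₁⟩ := hex
    obtain ⟨him₁, hre₁⟩ := hdep α₁ l₁ hα₁ hq₁ hl₁ hlc₁ hmem₁
    have hl10 : l₁ ≠ 0 := by
      rintro rfl
      apply hc
      rw [← hlc₁, map_zero, mul_zero, add_zero]
    refine ⟨l₁, a, ?_, ha, hax, fun α l hα hq hl hlc hne1 hne2 => ?_⟩
    · -- `l₁` is not on the relevant axis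
      intro h
      apply hl10
      apply offaxis hα₁ him₁ hre₁ hl₁ _ hmem₁
      rcases hε with rfl | rfl
      · left
        rw [one_mul] at h
        exact (sub_eq_zero.mp h).symm
      · right
        linear_combination h
    · apply indep_pair hα (hα0 α hq)
      intro hmem
      obtain ⟨him, hre⟩ := hdep α l hα hq hl hlc hmem
      have hl0 : l ≠ 0 := by
        rintro rfl
        apply hc
        rw [← hlc, map_zero, mul_zero, add_zero]
      rcases two_pairs hε hα hα₁ him hre him₁ hre₁ hl hl₁ hmem hmem₁ hl0 (hlc.trans hlc₁.symm)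
        with h | h
      · exact hne1 h
      · exact hne2 h
  · push Not at hex
    refine ⟨if ε = 1 then Complex.I else 1, a, ?_, ha, hax, fun α l hα hq hl hlc _ _ => ?_⟩
    · rcases hε with rfl | rfl
      · rw [if_pos rfl]
        intro h
        have := congrArg Complex.im h
        simp at this
      · rw [if_neg (by norm_num)]
        simp
    · apply indep_pair hα (hα0 α hq)
      exact hex α l hα hq hl hlc

end Pool.Agent.Lib.MP_c82530_nt
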