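import Mathlib
import Pool.Agent.Lib.MP_c82530_nt.Rank
import Pool.Agent.Lib.MP_c82530_nt.Thin

/-!
# Exceptional logarithms

For exponents without real and purely imaginary combinations there is at most one exceptional
logarithm on each horizontal and on each vertical line; for all exponents outside one space at
most one of the logarithms of each algebraic number is exceptional.
-/

set_option autoImplicit false

namespace Pool.Agent.Lib.MP_c82530_nt

open Set

lemma sub_mem_cl' {s : Set ℂ} {z w : ℂ} (h : z ∈ AM.closure s) (h' : w ∈ AM.closure s) :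
    z - w ∈ AM.closure s := by
  rw [sub_eq_add_neg]
  exact add_mem_cl h (neg_mem_cl h')

lemma conj_eq_of_im {z : ℂ} (h : z.im = 0) : (starRingEnd ℂ) z = z :=
  Complex.conj_eq_iff_im.2 h

lemma conj_eq_neg_of_re {z : ℂ} (h : z.re = 0) : (starRingEnd ℂ) z = -z := by
  apply Complex.ext
  · simp [h]
  · simp

/-- a space without nonzero real and purely imaginary numbers -/
lemma inf_conj_bot {W : Submodule ℚ ℂ} (h : ∀ w ∈ W, (w.im = 0 ∨ w.re = 0) → w = 0) :
    W ⊓ W.map cjL = ⊥ := by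
  rw [eq_bot_iff]
  refine (inf_conj_le W).trans (sup_le ?_ ?_)
  · rintro w ⟨hw, hk⟩
    rw [SetLike.mem_coe, LinearMap.mem_ker, LinearMap.sub_apply, LinearMap.id_apply, sub_eq_zero,
      cjL_apply] at hk
    exact (Submodule.mem_bot ℚ).2 (h w hw (Or.inl (Complex.conj_eq_iff_im.1 hk)))
  · rintro w ⟨hw, hk⟩
    rw [SetLike.mem_coe, LinearMap.mem_ker, LinearMap.add_apply, LinearMap.id_apply,
      cjL_apply] at hk
    refine (Submodule.mem_bot ℚ).2 (h w hw (Or.inr ?_))
    have := congrArg Complex.re hk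
    simp only [Complex.add_re, Complex.conj_re, Complex.zero_re] at this
    linarith

/-- the conjugation free case: a number dependent with its conjugate -/
lemma isAlgebraic_of_conj_dep {W : Submodule ℚ ℂ} (hW : ∀ w ∈ W, IsAlgebraic ℚ w)
    (h : ∀ w ∈ W, (w.im = 0 ∨ w.re = 0) → w = 0) {z : ℂ} (hz : z ∈ AM.closure (expSet W))
    (hc : z.im = 0 ∨ z.re = 0 ∨ ¬ AlgebraicIndependent ℚ ![z, (starRingEnd ℂ) z]) :
    IsAlgebraic ℚ z := by
  by_contra hzt
  have h1 : z ∈ AM.closure {(starRingEnd ℂ) z} := by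
    refine mem_cl_conj hzt ?_
    rcases hc with hc | hc | hc
    · exact Or.inl (conj_eq_of_im hc)
    · exact Or.inr (Or.inl (conj_eq_neg_of_re hc))
    · exact Or.inr (Or.inr hc)
  have h2 := mem_inf_conj hW h1 hz
  rw [inf_conj_bot h, expSet_bot, mem_cl_empty] at h2
  exact hzt h2

/-- `2 π i` -/
noncomputable def tp : ℂ := 2 * (Real.pi : ℂ) * Complex.I

lemma tp_ne : tp ≠ 0 := Complex.two_pi_I_ne_zero

lemma tp_exp : IsAlgebraic ℚ (Complex.exp tp) := by
  have : Complex.exp tp = 1 := Complex.exp_two_pi_mul_I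
  rw [this]
  exact isAlgebraic_one

lemma tp_tr : Transcendental ℚ tp := log_transcendental tp_exp tp_ne

lemma tp_mem_of_two {W : Submodule ℚ ℂ} {l l' : ℂ} (h : l ∈ AM.closure (expSet W))
    (h' : l' ∈ AM.closure (expSet W)) (he : Complex.exp l = Complex.exp l') (hne : l ≠ l') :
    tp ∈ AM.closure (expSet W) := by
  obtain ⟨k, hk⟩ := Complex.exp_eq_exp_iff_exists_int.1 he
  have hk0 : (k : ℂ) ≠ 0 := by
    intro h0
    apply hne
    rw [hk, h0, zero_mul, add_zero]
  have h1 : tp = (k : ℂ)⁻¹ * (l - l') := by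
    rw [hk]
    unfold tp
    field_simp
    ring
  rw [h1]
  refine mul_mem_cl (alg_mem_cl _ ?_) (sub_mem_cl' h h')
  exact IsAlgebraic.inv (by simpa using isAlgebraic_algebraMap (R := ℚ) (A := ℂ) (k : ℚ))

/-- the space of exponents which decides the logarithms of one algebraic number -/
theorem exists_branch : ∃ V : Submodule ℚ ℂ, FiniteDimensional ℚ V ∧ (∀ v ∈ V, IsAlgebraic ℚ v) ∧
    (∀ v ∈ V, (starRingEnd ℂ) v ∈ V) ∧
    ∀ W : Submodule ℚ ℂ, (∀ w ∈ W, IsAlgebraic ℚ w) → (V = ⊥ ∨ ¬ V ≤ W) →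
      tp ∉ AM.closure (expSet W) := by
  by_cases hp : tp ∈ AM.closure (expSet Kalg)
  · obtain ⟨V, hfd, halg, hV⟩ := exists_support hp
    refine ⟨V, hfd, halg, ?_, ?_⟩
    · have h1 : tp ∈ AM.closure (expSet V) := (hV V halg).2 le_rfl
      have h2 := conj_mem_map h1
      have h3 : (starRingEnd ℂ) tp = -tp := by
        apply conj_eq_neg_of_re
        unfold tp
        simp
      rw [h3] at h2
      have h4 := neg_mem_cl h2
      rw [neg_neg] at h4
      have h5 := (hV _ (map_alg halg)).1 h4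
      intro v hv
      obtain ⟨w, hw, rfl⟩ := h5 hv
      have : (starRingEnd ℂ) (cjL w) = w := by rw [← cjL_apply, cjL_cjL]
      rw [this]
      exact hw
    · rintro W hW (h | h) hmem
      · have h1 : tp ∈ AM.closure (expSet ⊥) :=
          (hV ⊥ (by intro w hw; rw [(Submodule.mem_bot ℚ).1 hw]; exact isAlgebraic_zero)).2 h.le
        rw [expSet_bot, mem_cl_empty] at h1
        exact tp_tr h1
      · exact h ((hV W hW).1 hmem)
  · refine ⟨⊥, inferInstance, ?_, ?_, ?_⟩
    · intro v hv; rw [(Submodule.mem_bot ℚ).1 hv]; exact isAlgebraic_zero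
    · intro v hv; rw [(Submodule.mem_bot ℚ).1 hv, map_zero]; exact Submodule.zero_mem _
    · intro W hW _ hmem
      exact hp (AM.closure_subset_closure (image_mono fun w hw => mem_Kalg.2 (hW w hw)) hmem)

/-- `exp α₁, …, exp αₙ, w` are algebraically independent over the algebraic numbers -/
abbrev AI {n : ℕ} (α : Fin n → ℂ) (w : ℂ) : Prop :=
  AlgebraicIndependent (integralClosure ℚ ℂ)
    (Sum.elim (fun i : Fin n => Complex.exp (α i)) (fun _ : Fin 1 => w))

/-- exponents without real and purely imaginary combinations -/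
theorem branch_free {n : ℕ} {α : Fin n → ℂ} (hα : ∀ i, IsAlgebraic ℚ (α i))
    (hlin : LinearIndependent ℚ α)
    (hfree : ∀ w ∈ Submodule.span ℚ (range α), (w.im = 0 ∨ w.re = 0) → w = 0) :
    (∀ l : ℂ, l ≠ 0 → IsAlgebraic ℚ (Complex.exp l) → ¬ AI α l →
      l.im ≠ 0 ∧ l.re ≠ 0 ∧ AlgebraicIndependent (integralClosure ℚ ℂ) ![l, (starRingEnd ℂ) l]) ∧
    (∀ l l' : ℂ, IsAlgebraic ℚ (Complex.exp l) → IsAlgebraic ℚ (Complex.exp l') →
      ¬ AI α l → ¬ AI α l' → (l.re = l'.re ∨ l.im = l'.im) → l = l') := by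
  have hW := span_alg hα
  have key : ∀ l : ℂ, l ≠ 0 → IsAlgebraic ℚ (Complex.exp l) →
      l ∈ AM.closure (expSet (Submodule.span ℚ (range α))) →
      ¬ (l.im = 0 ∨ l.re = 0 ∨ ¬ AlgebraicIndependent ℚ ![l, (starRingEnd ℂ) l]) := by
    intro l hl0 hl hmem hc
    exact log_transcendental hl hl0 (isAlgebraic_of_conj_dep hW hfree hmem hc)
  constructor
  · intro l hl0 hl hdep
    have h1 := key l hl0 hl (mem_of_dep hα hlin hdep)
    push Not at h1
    exact ⟨h1.1, h1.2.1, h1.2.2.integralClosure⟩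
  · intro l l' hl hl' hd hd' hline
    by_contra hne
    have hmem := sub_mem_cl' (mem_of_dep hα hlin hd) (mem_of_dep hα hlin hd')
    have hexp : IsAlgebraic ℚ (Complex.exp (l - l')) := by
      rw [Complex.exp_sub, div_eq_mul_inv]
      exact hl.mul hl'.inv
    refine key (l - l') (sub_ne_zero.2 hne) hexp hmem ?_
    rcases hline with h | h
    · exact Or.inr (Or.inl (by rw [Complex.sub_re, h, sub_self]))
    · exact Or.inl (by rw [Complex.sub_im, h, sub_self])

/-- all exponents -/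
theorem branch_all {V : Submodule ℚ ℂ} (hV : ∀ W : Submodule ℚ ℂ, (∀ w ∈ W, IsAlgebraic ℚ w) →
      (V = ⊥ ∨ ¬ V ≤ W) → tp ∉ AM.closure (expSet W)) {n : ℕ} {α : Fin n → ℂ}
    (hα : ∀ i, IsAlgebraic ℚ (α i)) (hlin : LinearIndependent ℚ α)
    (h : V = ⊥ ∨ ¬ V ≤ Submodule.span ℚ (range α)) (β : ℂ) :
    {l : ℂ | Complex.exp l = β ∧ ¬ AI α l}.Subsingleton := by
  rintro l ⟨hl, hd⟩ l' ⟨hl', hd'⟩
  by_contra hne
  exact hV _ (span_alg hα) h (tp_mem_of_two (mem_of_dep hα hlin hd) (mem_of_dep hα hlin hd')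
    (hl.trans hl'.symm) hne)

/-- `π` and `2 π i` -/
lemma pi_mem_iff {s : Set ℂ} : (Real.pi : ℂ) ∈ AM.closure s ↔ tp ∈ AM.closure s := by
  have hI : IsAlgebraic ℚ Complex.I := by
    refine ⟨Polynomial.X ^ 2 + 1, ?_, by simp⟩
    exact (Polynomial.monic_X_pow_add_C (1 : ℚ) two_ne_zero).ne_zero
  have h2 : IsAlgebraic ℚ (2 : ℂ) := by simpa using isAlgebraic_algebraMap (R := ℚ) (A := ℂ) (2 : ℚ)
  constructor
  · intro h
    have h1 : tp = (2 * Complex.I) * (Real.pi : ℂ) := by unfold tp; ring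
    rw [h1]
    exact mul_mem_cl (alg_mem_cl _ (h2.mul hI)) h
  · intro h
    have h1 : (Real.pi : ℂ) = (2 * Complex.I)⁻¹ * tp := by
      unfold tp
      field_simp
    rw [h1]
    exact mul_mem_cl (alg_mem_cl _ (h2.mul hI).inv) h

/-- the logarithms of all algebraic numbers and `π` -/
theorem branch_pi {n : ℕ} {α : Fin n → ℂ} (hα : ∀ i, IsAlgebraic ℚ (α i))
    (hlin : LinearIndependent ℚ α) :
    AI α (Real.pi : ℂ) ↔ ∀ β : ℂ, IsAlgebraic ℚ β →
      {l : ℂ | Complex.exp l = β ∧ ¬ AI α l}.Subsingleton := by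
  constructor
  · rintro h β - l ⟨hl, hd⟩ l' ⟨hl', hd'⟩
    by_contra hne
    refine (indep_iff hα hlin).1 h (pi_mem_iff.2 ?_)
    exact tp_mem_of_two (mem_of_dep hα hlin hd) (mem_of_dep hα hlin hd') (hl.trans hl'.symm) hne
  · intro h
    by_contra hd
    have h1 := pi_mem_iff.1 (mem_of_dep hα hlin hd)
    have h0 : ¬ AI α 0 := fun h0 => (indep_iff hα hlin).1 h0 (alg_mem_cl _ isAlgebraic_zero)
    have h2 : ¬ AI α tp := fun h2 => (indep_iff hα hlin).1 h2 h1
    have h3 := h 1 isAlgebraic_one ⟨Complex.exp_zero, h0⟩ ⟨Complex.exp_two_pi_mul_I, h2⟩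
    exact tp_ne h3.symm

/-- the space of exponents which decides the logarithms of all algebraic numbers -/
theorem branch_space : ∃ V : Submodule ℚ ℂ, FiniteDimensional ℚ V ∧ (∀ v ∈ V, IsAlgebraic ℚ v) ∧
    (∀ v ∈ V, (starRingEnd ℂ) v ∈ V) ∧
    ∀ (n : ℕ) (α : Fin n → ℂ), (∀ i, IsAlgebraic ℚ (α i)) → LinearIndependent ℚ α →
      (V = ⊥ ∨ ¬ V ≤ Submodule.span ℚ (range α)) → AI α (Real.pi : ℂ) := by
  obtain ⟨V, hfd, halg, hconj, hV⟩ := exists_branch
  refine ⟨V, hfd, halg, hconj, fun n α hα hlin h => ?_⟩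
  refine (indep_iff hα hlin).2 fun hmem => ?_
  exact hV _ (span_alg hα) h (pi_mem_iff.1 hmem)

/-- a conjugation stable line consists of real or of purely imaginary numbers -/
lemma line_axis {a : ℂ} (ha : a ≠ 0) (h : (starRingEnd ℂ) a ∈ Submodule.span ℚ {a}) :
    a.im = 0 ∨ a.re = 0 := by
  obtain ⟨q, hq⟩ := Submodule.mem_span_singleton.1 h
  rw [Algebra.smul_def] at hq
  have hn := congrArg (fun z : ℂ => ‖z‖) hq
  simp only [norm_mul, RCLike.norm_conj] at hn
  have hna : ‖a‖ ≠ 0 := norm_ne_zero_iff.mpr ha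
  have hn1 : ‖(algebraMap ℚ ℂ) q‖ = 1 := mul_right_cancel₀ hna (by rw [hn, one_mul])
  rw [eq_ratCast, Complex.norm_ratCast] at hn1
  have hq1 : q = 1 ∨ q = -1 := by
    rcases (abs_eq (zero_le_one' ℝ)).mp hn1 with h | h
    · left; exact_mod_cast h
    · right; exact_mod_cast h
  rcases hq1 with rfl | rfl
  · left
    rw [map_one, one_mul] at hq
    exact Complex.conj_eq_iff_im.1 hq.symm
  · right
    rw [map_neg, map_one, neg_one_mul] at hq
    have := congrArg Complex.re hq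
    simp only [Complex.neg_re, Complex.conj_re] at this
    linarith

/-- one exponent: one exceptional line -/
theorem branch_one : ∃ a : ℂ, IsAlgebraic ℚ a ∧ (a.im = 0 ∨ a.re = 0) ∧
    ∀ α : ℂ, IsAlgebraic ℚ α → (∀ q : ℚ, α ≠ q * a) → ∀ β : ℂ,
      {l : ℂ | Complex.exp l = β ∧
        ¬ AlgebraicIndependent (integralClosure ℚ ℂ) ![Complex.exp α, l]}.Subsingleton := by
  obtain ⟨V, hfd, halg, hconj, hV⟩ := exists_branch
  have main : ∀ α : ℂ, IsAlgebraic ℚ α → α ≠ 0 → (V = ⊥ ∨ ¬ V ≤ Submodule.span ℚ {α}) → ∀ β : ℂ,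
      {l : ℂ | Complex.exp l = β ∧
        ¬ AlgebraicIndependent (integralClosure ℚ ℂ) ![Complex.exp α, l]}.Subsingleton := by
    intro α hα hα0 h β
    have hlin : LinearIndependent ℚ (fun _ : Fin 1 => α) := LinearIndependent.of_subsingleton 0 hα0
    have h1 := branch_all hV (α := fun _ : Fin 1 => α) (fun _ => hα) hlin
      (by rwa [range_const]) β
    intro l hl l' hl'
    have conv : ∀ w : ℂ, AI (fun _ : Fin 1 => α) w →
        AlgebraicIndependent (integralClosure ℚ ℂ) ![Complex.exp α, w] := by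
      intro w hw
      refine (algebraicIndependent_equiv' (finSumFinEquiv (m := 1) (n := 1)) ?_).mp hw
      ext (i | i) <;> fin_cases i <;> rfl
    exact h1 ⟨hl.1, fun h => hl.2 (conv _ h)⟩ ⟨hl'.1, fun h => hl'.2 (conv _ h)⟩
  by_cases hbot : V = ⊥
  · refine ⟨0, isAlgebraic_zero, Or.inl rfl, fun α hα hne β => main α hα ?_ (Or.inl hbot) β⟩
    rintro rfl
    exact hne 0 (by simp)
  by_cases hline : ∃ a, V = Submodule.span ℚ {a}
  · obtain ⟨a, ha⟩ := hline
    have ha0 : a ≠ 0 := by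
      rintro rfl
      exact hbot (by rw [ha]; simp)
    have haV : a ∈ V := by rw [ha]; exact Submodule.mem_span_singleton_self a
    refine ⟨a, halg a haV, line_axis ha0 (by rw [← ha]; exact hconj a haV), fun α hα hne β => ?_⟩
    refine main α hα ?_ (Or.inr fun hle => ?_) β
    · rintro rfl
      exact hne 0 (by simp)
    · obtain ⟨q, hq⟩ := Submodule.mem_span_singleton.1 (hle haV)
      have hq0 : q ≠ 0 := by
        rintro rfl
        exact ha0 (by rw [← hq, zero_smul])
      refine hne q⁻¹ ?_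
      rw [← hq, Algebra.smul_def, eq_ratCast, ← mul_assoc, Rat.cast_inv,
        inv_mul_cancel₀ (by exact_mod_cast hq0), one_mul]
  · refine ⟨0, isAlgebraic_zero, Or.inl rfl, fun α hα hne β => main α hα ?_ (Or.inr fun hle => ?_) β⟩
    · rintro rfl
      exact hne 0 (by simp)
    · obtain ⟨v, hv, hv0⟩ := Submodule.exists_mem_ne_zero_of_ne_bot hbot
      obtain ⟨q, hq⟩ := Submodule.mem_span_singleton.1 (hle hv)
      have hq0 : q ≠ 0 := by
        rintro rfl
        exact hv0 (by rw [← hq, zero_smul])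
      refine hline ⟨α, le_antisymm hle ?_⟩
      rw [Submodule.span_singleton_le_iff_mem]
      have : α = q⁻¹ • v := by rw [← hq, smul_smul, inv_mul_cancel₀ hq0, one_smul]
      rw [this]
      exact V.smul_mem _ hv

end Pool.Agent.Lib.MP_c82530_nt
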