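import Mathlib
import Pool.Agent.Lib.MP_c82530_nt.Bridge

set_option autoImplicit false

namespace Pool.Agent.Lib.MP_c82530_nt

open Set Module

lemma map_map_cjL (W : Submodule ℚ ℂ) : (W.map cjL).map cjL = W := by
  ext x
  constructor
  · rintro ⟨_, ⟨y, hy, rfl⟩, rfl⟩
    rw [cjL_cjL]; exact hy
  · intro hx
    exact ⟨cjL x, ⟨x, hx, rfl⟩, cjL_cjL x⟩

lemma finrank_map_cjL (W : Submodule ℚ ℂ) : finrank ℚ (W.map cjL) = finrank ℚ W := by
  have h := LinearEquiv.finrank_map_eq (LinearEquiv.ofInvolutive cjL cjL_cjL) W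
  rw [← h]
  rfl

lemma cj_cj (z : ℂ) : cj (cj z) = z := cjL_cjL z

lemma eRk_image_cj_le (s : Set ℂ) : AM.eRk (cj '' s) ≤ AM.eRk s := by
  obtain ⟨I, hI⟩ := AM.exists_isBasis s (subset_univ s)
  have h1 : cj '' s ⊆ AM.closure (cj '' I) := by
    rintro _ ⟨z, hz, rfl⟩
    apply map_mem_cl
    rw [hI.closure_eq_closure]
    exact AM.mem_closure_of_mem' hz (mem_univ _)
  calc AM.eRk (cj '' s) ≤ AM.eRk (AM.closure (cj '' I)) := AM.eRk_mono h1
    _ = AM.eRk (cj '' I) := AM.eRk_closure_eq _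
    _ ≤ (cj '' I).encard := AM.eRk_le_encard _
    _ ≤ I.encard := encard_image_le _ _
    _ = AM.eRk s := hI.encard_eq_eRk

lemma fr_conj_le {L : Set ℂ} (hc : ∀ z ∈ L, cj z ∈ AM.closure L) (W : Submodule ℚ ℂ) :
    fr L (W.map cjL) ≤ fr L W := by
  refine le_trans ?_ (eRk_image_cj_le (expSet W ∪ L))
  rw [← AM.eRk_closure_eq (cj '' (expSet W ∪ L))]
  apply AM.eRk_mono
  rintro z (⟨_, ⟨w, hw, rfl⟩, rfl⟩ | hz)
  · apply AM.mem_closure_of_mem' _ (mem_univ _)
    exact ⟨Complex.exp w, Or.inl ⟨w, hw, rfl⟩, cj_exp w⟩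
  · have h1 := map_mem_cl cj (hc z hz)
    rw [cj_cj] at h1
    exact AM.closure_subset_closure (image_mono subset_union_right) h1

lemma dl_conj {L : Set ℂ} (hc : ∀ z ∈ L, cj z ∈ AM.closure L) (W : Submodule ℚ ℂ) :
    dl L (W.map cjL) = dl L W := by
  have h1 : fr L (W.map cjL) = fr L W := by
    apply le_antisymm (fr_conj_le hc W)
    have := fr_conj_le hc (W.map cjL)
    rwa [map_map_cjL] at this
  unfold dl F
  rw [h1, finrank_map_cjL]

section

variable {L : Set ℂ} (hL : L.Finite)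
include hL

/-- a finite family of independent subspaces: the defects add up to at most the defect of the
sum -/
lemma sum_dl_le {κ : Type*} [DecidableEq κ] (W : κ → Submodule ℚ ℂ)
    (hfd : ∀ i, FiniteDimensional ℚ (W i))
    (hW : ∀ i, ∀ w ∈ W i, IsAlgebraic ℚ w) (hind : iSupIndep W) (s : Finset κ) :
    ∑ i ∈ s, dl L (W i) ≤ dl L (s.sup W) ∧ FiniteDimensional ℚ (s.sup W : Submodule ℚ ℂ) ∧
      ∀ w ∈ s.sup W, IsAlgebraic ℚ w := by
  induction s using Finset.induction_on with
  | empty =>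
    refine ⟨by simp, by rw [Finset.sup_empty]; infer_instance, ?_⟩
    intro w hw
    rw [Finset.sup_empty, Submodule.mem_bot] at hw
    rw [hw]; exact isAlgebraic_zero
  | insert a s ha ih =>
    obtain ⟨h1, h2, h3⟩ := ih
    haveI := h2
    haveI := hfd a
    rw [Finset.sup_insert, Finset.sum_insert ha]
    have h4 := dl_super hL (hW a) h3
    have h5 : W a ⊓ s.sup W = ⊥ := by
      have h6 := hind.disjoint_biSup (x := a) (y := (s : Set κ)) (by simpa using ha)
      rw [Finset.sup_eq_iSup]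
      exact h6.eq_bot
    rw [h5, dl_bot hL] at h4
    exact ⟨by omega, inferInstance, sup_alg hL (hW a) h3⟩

/-- the conjugation inequality -/
lemma two_dl_le (hc : ∀ z ∈ L, cj z ∈ AM.closure L) {W : Submodule ℚ ℂ} [FiniteDimensional ℚ W]
    (hW : ∀ w ∈ W, IsAlgebraic ℚ w) :
    2 * dl L W ≤ (AM.eRk L).toNat + dl L (W ⊓ W.map cjL) := by
  haveI : FiniteDimensional ℚ (W.map cjL) := inferInstance
  have h1 := dl_super hL hW (map_alg hW)
  rw [dl_conj hc] at h1
  have h2 := dl_le hL (sup_alg hL hW (map_alg hW))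
  omega

/-- at most `t` blocks of a partition of an independent family are bad -/
lemma blocks {ι κ : Type*} [Finite ι] [Fintype κ] [DecidableEq κ] {α : ι → ℂ}
    (hα : ∀ i, IsAlgebraic ℚ (α i))
    (hlin : LinearIndependent ℚ α) (c : ι → κ) :
    {k | dl L (Submodule.span ℚ (α '' {i | c i = k})) ≠ 0}.ncard ≤ (AM.eRk L).toNat := by
  classical
  let W : κ → Submodule ℚ ℂ := fun k => Submodule.span ℚ (α '' {i | c i = k})
  have hfd : ∀ k, FiniteDimensional ℚ (W k) := fun k =>
    FiniteDimensional.span_of_finite ℚ (toFinite _)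
  have hW : ∀ k, ∀ w ∈ W k, IsAlgebraic ℚ w := by
    intro k w hw
    rw [← mem_Kalg]
    refine (Submodule.span_le (p := Kalg)).mpr ?_ hw
    rintro _ ⟨i, -, rfl⟩
    exact mem_Kalg.mpr (hα i)
  have hind : iSupIndep W := by
    intro k
    have h1 : (⨆ j, ⨆ (_ : j ≠ k), W j) ≤ Submodule.span ℚ (α '' {i | c i ≠ k}) := by
      refine iSup_le fun j => iSup_le fun hj => Submodule.span_mono (image_mono ?_)
      intro i hi
      rw [mem_setOf_eq] at hi ⊢
      rw [hi]; exact hj
    refine Disjoint.mono_right h1 (hlin.disjoint_span_image ?_)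
    rw [disjoint_left]
    intro i hi hi'
    exact hi' hi
  obtain ⟨h1, h2, h3⟩ := sum_dl_le hL W hfd hW hind Finset.univ
  haveI := h2
  have h4 := dl_le hL h3
  have h5 : {k | dl L (W k) ≠ 0}.ncard ≤ ∑ k, dl L (W k) := by
    rw [ncard_eq_toFinset_card', ]
    calc (Set.toFinset {k | dl L (W k) ≠ 0}).card
        = ∑ k ∈ Set.toFinset {k | dl L (W k) ≠ 0}, 1 := by simp
      _ ≤ ∑ k ∈ Set.toFinset {k | dl L (W k) ≠ 0}, dl L (W k) := by
        apply Finset.sum_le_sum
        intro k hk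
        rw [Set.mem_toFinset] at hk
        exact Nat.one_le_iff_ne_zero.mpr hk
      _ ≤ ∑ k, dl L (W k) := Finset.sum_le_univ_sum_of_nonneg (fun _ => Nat.zero_le _)
  exact h5.trans (h1.trans h4)

end

/-- the algebraic numbers whose exponential is algebraic over `ℚ(L)` -/
noncomputable def AL (L : Set ℂ) : Submodule ℚ ℂ where
  carrier := {α | IsAlgebraic ℚ α ∧ Complex.exp α ∈ AM.closure L}
  add_mem' := by
    rintro a b ⟨ha, ha'⟩ ⟨hb, hb'⟩
    refine ⟨ha.add hb, ?_⟩
    rw [Complex.exp_add]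
    exact mul_mem_cl ha' hb'
  zero_mem' := by
    refine ⟨isAlgebraic_zero, ?_⟩
    rw [Complex.exp_zero]
    exact alg_mem_cl _ isAlgebraic_one
  smul_mem' := by
    rintro q a ⟨ha, ha'⟩
    refine ⟨?_, ?_⟩
    · rw [← mem_Kalg] at ha ⊢
      exact Kalg.smul_mem q ha
    · rw [← mem_clF] at ha' ⊢
      exact exp_smul_mem _ (fun z hz => clF_closed hz) q ha'

lemma AL_alg {L : Set ℂ} : ∀ w ∈ AL L, IsAlgebraic ℚ w := fun _ h => h.1

/-- the space of the exponents with exponential algebraic over `ℚ(L)` is in the support space and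
has dimension at most the transcendence degree -/
lemma AL_le {L : Set ℂ} (hL : L.Finite) {V : Submodule ℚ ℂ} (hfd : FiniteDimensional ℚ V)
    (h : ∀ W : Submodule ℚ ℂ, FiniteDimensional ℚ W → (∀ w ∈ W, IsAlgebraic ℚ w) →
      dl L W = dl L (W ⊓ V)) : AL L ≤ V ∧ Module.finrank ℚ (AL L) ≤ (AM.eRk L).toNat := by
  have h1 : AL L ≤ V := by
    intro α hα
    by_contra hcon
    have hα0 : α ≠ 0 := by
      rintro rfl
      exact hcon V.zero_mem
    have halg : ∀ i : Fin 1, IsAlgebraic ℚ ((fun _ => α) i : ℂ) := fun _ => hα.1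
    have hlin : LinearIndependent ℚ (fun _ : Fin 1 => α) := by
      rw [linearIndependent_unique_iff]; exact hα0
    have hr : range (fun _ : Fin 1 => α) = {α} := range_const
    have h2 := dl_eq_zero_iff hL halg hlin
    rw [hr] at h2
    have h3 : Submodule.span ℚ {α} ⊓ V = ⊥ := by
      rw [eq_bot_iff]
      rintro x ⟨hx, hxV⟩
      obtain ⟨q, rfl⟩ := Submodule.mem_span_singleton.mp hx
      rcases eq_or_ne q 0 with rfl | hq
      · simp
      · exfalso
        apply hcon
        have h4 := V.smul_mem q⁻¹ hxV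
        rwa [smul_smul, inv_mul_cancel₀ hq, one_smul] at h4
    have h5 := h (Submodule.span ℚ {α}) (FiniteDimensional.span_of_finite ℚ (finite_singleton α))
      (by
        have := span_alg halg
        rwa [hr] at this)
    rw [h3, dl_bot hL] at h5
    have h6 := h2.mp h5
    rw [algebraicIndependent_unique_type_iff] at h6
    exact h6 (isAlgebraic_algebraMap (⟨_, mem_KL.mpr hα.2⟩ : KL L))
  haveI : FiniteDimensional ℚ (AL L) := Submodule.finiteDimensional_of_le h1
  refine ⟨h1, ?_⟩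
  have h2 : expSet (AL L) ⊆ AM.closure L := by
    rintro _ ⟨x, hx, rfl⟩
    exact hx.2
  have h3 := AM.eRk_mono h2
  rw [AM.eRk_closure_eq, eRk_expSet AL_alg, ← coe_t hL] at h3
  exact_mod_cast h3

end Pool.Agent.Lib.MP_c82530_nt
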